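import Pool.Agent.Lib.MP_641cb6_lc.KC.Domb

/-!
# A polynomial is close to its dominating monomial (board kc_modules, module ASY)
-/

set_option autoImplicit false

namespace Pool.Agent.Lib.MP_641cb6_lc.KC

open Finset Filter Topology

/-- the value as a sum over the monomials -/
theorem val2_eq (f : P2) (R b : ℂ) :
    val2 f R b = ∑ m ∈ mons f, cf f m * R ^ m.2 * b ^ m.1 := by
  classical
  unfold val2 mons
  rw [Polynomial.eval₂_eq_sum, Polynomial.sum_def, sum_biUnion]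
  · apply sum_congr rfl
    intro i _
    rw [sum_image]
    · rw [Polynomial.coe_evalRingHom, Polynomial.eval_eq_sum, Polynomial.sum_def, sum_mul]
      rfl
    · intro a _ b _ h
      exact (Prod.ext_iff.1 h).2
  · intro a _ b _ hab
    rw [Function.onFun, Finset.disjoint_left]
    intro x hx hy
    rw [mem_image] at hx hy
    obtain ⟨p, -, hp⟩ := hx
    obtain ⟨q, -, hq⟩ := hy
    rw [← hq] at hp
    exact hab (Prod.ext_iff.1 hp).1

/-- the size of one monomial -/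
theorem size_eq {R ρ : ℝ} (hR : 1 < R) (hρ : 0 < ρ) (n : ℕ × ℕ) :
    R ^ n.2 * ρ ^ n.1 = R ^ (wt (Real.log ρ / Real.log R) n) := by
  have hR0 : 0 < R := by linarith
  have hl : 0 < Real.log R := Real.log_pos hR
  unfold wt
  rw [Real.rpow_add hR0, Real.rpow_natCast]
  congr 1
  rw [Real.rpow_mul hR0.le, Real.rpow_natCast]
  congr 1
  rw [Real.rpow_def_of_pos hR0, mul_div_cancel₀ _ hl.ne', Real.exp_log hρ]

theorem size_le {R ρ τ τ' : ℝ} (hR : 1 < R) (h1 : R ^ τ ≤ ρ) (h2 : ρ ≤ R ^ τ') (n m : ℕ × ℕ) :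
    R ^ n.2 * ρ ^ n.1 / (R ^ m.2 * ρ ^ m.1) ≤
      R ^ (-(wt τ m - wt τ n)) + R ^ (-(wt τ' m - wt τ' n)) := by
  have hR0 : 0 < R := by linarith
  have hρ : 0 < ρ := lt_of_lt_of_le (Real.rpow_pos_of_pos hR0 _) h1
  have hl : 0 < Real.log R := Real.log_pos hR
  rw [size_eq hR hρ, size_eq hR hρ, ← Real.rpow_sub hR0]
  set σ := Real.log ρ / Real.log R with hσ
  have s1 : τ ≤ σ := by
    rw [hσ, le_div_iff₀ hl, ← Real.log_rpow hR0]
    exact Real.log_le_log (Real.rpow_pos_of_pos hR0 _) h1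
  have s2 : σ ≤ τ' := by
    rw [hσ, div_le_iff₀ hl, ← Real.log_rpow hR0]
    exact Real.log_le_log hρ h2
  rcases le_total (n.1 : ℝ) m.1 with h | h
  · have k : wt σ n - wt σ m ≤ -(wt τ m - wt τ n) := by
      unfold wt
      nlinarith
    have k1 := Real.rpow_le_rpow_of_exponent_le hR.le k
    have k2 := Real.rpow_pos_of_pos hR0 (-(wt τ' m - wt τ' n))
    linarith
  · have k : wt σ n - wt σ m ≤ -(wt τ' m - wt τ' n) := by
      unfold wt
      nlinarith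
    have k1 := Real.rpow_le_rpow_of_exponent_le hR.le k
    have k2 := Real.rpow_pos_of_pos hR0 (-(wt τ m - wt τ n))
    linarith

theorem asy {f : P2} {τ τ' : ℝ} (hτ : τ ≤ τ') {m : ℕ × ℕ} (h : Dom f τ m) (h' : Dom f τ' m)
    {ε : ℝ} (hε : 0 < ε) : ∀ᶠ R : ℝ in atTop, ∀ ρ ∈ Set.Icc (R ^ τ) (R ^ τ'), ∀ u : ℂ, ‖u‖ = 1 →
      ‖val2 f R (ρ * u) / (cf f m * R ^ m.2 * (ρ * u) ^ m.1) - 1‖ ≤ ε := by
  classical
  have _ := hτ
  have hlim : Tendsto (fun R : ℝ => ∑ n ∈ (mons f).erase m, ‖cf f n / cf f m‖ *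
      (R ^ (-(wt τ m - wt τ n)) + R ^ (-(wt τ' m - wt τ' n)))) atTop (𝓝 0) := by
    rw [show (0 : ℝ) = ∑ n ∈ (mons f).erase m, ‖cf f n / cf f m‖ * (0 + 0) by simp]
    apply tendsto_finsetSum
    intro n hn
    rw [mem_erase, mem_mons] at hn
    apply Tendsto.const_mul
    apply Tendsto.add
    · exact tendsto_rpow_neg_atTop (sub_pos.2 (h.2 n hn.2 hn.1))
    · exact tendsto_rpow_neg_atTop (sub_pos.2 (h'.2 n hn.2 hn.1))
  have hev := (hlim.eventually (gt_mem_nhds hε)).and (eventually_gt_atTop (1 : ℝ))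
  filter_upwards [hev]
  rintro R ⟨hR, hR1⟩ ρ ⟨hρ1, hρ2⟩ u hu
  have hR0 : 0 < R := by linarith
  have hρ : 0 < ρ := lt_of_lt_of_le (Real.rpow_pos_of_pos hR0 _) hρ1
  have hu0 : u ≠ 0 := by
    intro h0
    rw [h0, norm_zero] at hu
    exact zero_ne_one hu
  have hRc : (R : ℂ) ≠ 0 := by exact_mod_cast hR0.ne'
  have hρc : (ρ : ℂ) ≠ 0 := by exact_mod_cast hρ.ne'
  have hden : cf f m * (R : ℂ) ^ m.2 * (ρ * u) ^ m.1 ≠ 0 :=
    mul_ne_zero (mul_ne_zero h.1 (pow_ne_zero _ hRc)) (pow_ne_zero _ (mul_ne_zero hρc hu0))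
  have hval : val2 f R (ρ * u) / (cf f m * R ^ m.2 * (ρ * u) ^ m.1) - 1 =
      ∑ n ∈ (mons f).erase m, cf f n * (R : ℂ) ^ n.2 * (ρ * u) ^ n.1 /
        (cf f m * R ^ m.2 * (ρ * u) ^ m.1) := by
    rw [val2_eq, ← Finset.add_sum_erase _ _ (mem_mons.2 h.1), add_div, div_self hden, sum_div]
    ring
  rw [hval]
  refine (norm_sum_le _ _).trans (le_trans ?_ hR.le)
  apply Finset.sum_le_sum
  intro n _
  have e : ‖cf f n * (R : ℂ) ^ n.2 * (ρ * u) ^ n.1 / (cf f m * R ^ m.2 * (ρ * u) ^ m.1)‖ =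
      ‖cf f n / cf f m‖ * (R ^ n.2 * ρ ^ n.1 / (R ^ m.2 * ρ ^ m.1)) := by
    simp only [norm_div, norm_mul, norm_pow, hu, Complex.norm_real, Real.norm_eq_abs,
      abs_of_pos hR0, abs_of_pos hρ, mul_one]
    rw [div_mul_div_comm]
    congr 1
    · ring
    · ring
  rw [e]
  exact mul_le_mul_of_nonneg_left (size_le hR1 hρ1 hρ2 n m) (norm_nonneg _)

theorem val2_C (K : Polynomial ℂ) (R b : ℂ) : val2 (Polynomial.C K) R b = K.eval R := by
  unfold val2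
  rw [Polynomial.eval₂_C, Polynomial.coe_evalRingHom]

theorem asyK {K : Polynomial ℂ} (hK : K ≠ 0) {ε : ℝ} (hε : 0 < ε) :
    ∀ᶠ R : ℝ in atTop, ‖ratK K R - 1‖ ≤ ε := by
  have h := asy (le_refl (0 : ℝ)) (dom_C hK 0) (dom_C hK 0) hε
  filter_upwards [h]
  intro R hR
  have h1 := hR 1 (by rw [Real.rpow_zero]; exact ⟨le_refl _, le_refl _⟩) 1 (by simp)
  rw [val2_C, cf_C, if_pos rfl] at h1
  unfold ratK
  simpa using h1

end Pool.Agent.Lib.MP_641cb6_lc.KC
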