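import Pool.Agent.Lib.MP_641cb6_lc.KC.Defs

/-!
# Dominating monomials (board kc_modules, module DOMA)
-/

set_option autoImplicit false

namespace Pool.Agent.Lib.MP_641cb6_lc.KC

open Finset

theorem wt_add (τ : ℝ) (m m' : ℕ × ℕ) : wt τ (m + m') = wt τ m + wt τ m' := by
  unfold wt
  push_cast [Prod.fst_add, Prod.snd_add]
  ring

theorem cf_add (f g : P2) (m : ℕ × ℕ) : cf (f + g) m = cf f m + cf g m := by
  simp [cf]

theorem cf_mul (f g : P2) (n : ℕ × ℕ) : cf (f * g) n =
    ∑ x ∈ antidiagonal n.1, ∑ y ∈ antidiagonal n.2, cf f (x.1, y.1) * cf g (x.2, y.2) := by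
  simp [cf, Polynomial.coeff_mul, Polynomial.finsetSum_coeff]

theorem Dom.le {f : P2} {τ : ℝ} {m : ℕ × ℕ} (h : Dom f τ m) {n : ℕ × ℕ} (hn : cf f n ≠ 0) :
    wt τ n ≤ wt τ m := by
  by_cases e : n = m
  · rw [e]
  · exact (h.2 n hn e).le

theorem dom_unique {f : P2} {τ : ℝ} {m m' : ℕ × ℕ} (h : Dom f τ m) (h' : Dom f τ m') :
    m = m' := by
  by_contra hne
  have h1 := h.2 m' h'.1 (Ne.symm hne)
  have h2 := h'.2 m h.1 hne
  exact absurd h1 (not_lt.2 h2.le)

theorem dom_X (τ : ℝ) : Dom Polynomial.X τ (1, 0) := by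
  constructor
  · simp [cf]
  · rintro ⟨i, p⟩ h hne
    exfalso
    simp only [cf, Polynomial.coeff_X] at h
    by_cases hi : 1 = i
    · rw [if_pos hi, Polynomial.coeff_one] at h
      by_cases hp : p = 0
      · exact hne (by rw [← hi, hp])
      · rw [if_neg hp] at h
        exact h rfl
    · rw [if_neg hi] at h
      exact h (Polynomial.coeff_zero _)

theorem cf_C (K : Polynomial ℂ) (m : ℕ × ℕ) :
    cf (Polynomial.C K) m = if m.1 = 0 then K.coeff m.2 else 0 := by
  simp only [cf, Polynomial.coeff_C]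
  split_ifs <;> simp

theorem dom_C {K : Polynomial ℂ} (hK : K ≠ 0) (τ : ℝ) :
    Dom (Polynomial.C K) τ (0, K.natDegree) := by
  constructor
  · rw [cf_C, if_pos rfl]
    exact Polynomial.leadingCoeff_ne_zero.2 hK
  · rintro ⟨i, p⟩ h hne
    rw [cf_C] at h
    simp only at h
    by_cases hi : i = 0
    · rw [if_pos hi] at h
      subst hi
      have h1 := Polynomial.le_natDegree_of_ne_zero h
      have h2 : p ≠ K.natDegree := fun e => hne (by rw [e])
      have h3 : p < K.natDegree := lt_of_le_of_ne h1 h2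
      have h4 : (p : ℝ) < K.natDegree := by exact_mod_cast h3
      unfold wt
      simpa using h4
    · rw [if_neg hi] at h
      exact absurd rfl h

theorem dom_mul {f g : P2} {τ : ℝ} {m m' : ℕ × ℕ} (h : Dom f τ m) (h' : Dom g τ m') :
    Dom (f * g) τ (m + m') ∧ cf (f * g) (m + m') = cf f m * cf g m' := by
  have key : cf (f * g) (m + m') = cf f m * cf g m' := by
    rw [cf_mul]
    have e0 : ∀ x ∈ antidiagonal (m + m').1, ∀ y ∈ antidiagonal (m + m').2,
        ¬ (x = (m.1, m'.1) ∧ y = (m.2, m'.2)) → cf f (x.1, y.1) * cf g (x.2, y.2) = 0 := by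
      rintro ⟨x1, x2⟩ hx ⟨y1, y2⟩ hy hne
      rw [HasAntidiagonal.mem_antidiagonal] at hx hy
      by_contra hc
      have hc1 := left_ne_zero_of_mul hc
      have hc2 := right_ne_zero_of_mul hc
      have e1 : ((x1, y1) : ℕ × ℕ) + (x2, y2) = m + m' := Prod.ext hx hy
      have e2 := wt_add τ (x1, y1) (x2, y2)
      rw [e1, wt_add] at e2
      have l1 := h.le hc1
      have l2 := h'.le hc2
      have n1 : (x1, y1) = m := by
        by_contra hn
        have := h.2 _ hc1 hn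
        linarith
      have n2 : (x2, y2) = m' := by
        by_contra hn
        have := h'.2 _ hc2 hn
        linarith
      apply hne
      rw [← n1, ← n2]
      exact ⟨rfl, rfl⟩
    rw [Finset.sum_eq_single (m.1, m'.1)]
    · rw [Finset.sum_eq_single (m.2, m'.2)]
      · intro y hy hne
        exact e0 _ (by rw [HasAntidiagonal.mem_antidiagonal]; rfl) y hy (fun h => hne h.2)
      · intro hn
        exact absurd (by rw [HasAntidiagonal.mem_antidiagonal]; rfl) hn
    · intro x hx hne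
      apply Finset.sum_eq_zero
      intro y hy
      exact e0 x hx y hy (fun h => hne h.1)
    · intro hn
      exact absurd (by rw [HasAntidiagonal.mem_antidiagonal]; rfl) hn
  refine ⟨⟨?_, ?_⟩, key⟩
  · rw [key]
    exact mul_ne_zero h.1 h'.1
  · intro n hn hne
    rw [cf_mul] at hn
    obtain ⟨x, hx, hx'⟩ := Finset.exists_ne_zero_of_sum_ne_zero hn
    obtain ⟨y, hy, hy'⟩ := Finset.exists_ne_zero_of_sum_ne_zero hx'
    obtain ⟨x1, x2⟩ := x
    obtain ⟨y1, y2⟩ := y
    rw [HasAntidiagonal.mem_antidiagonal] at hx hy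
    have hc1 := left_ne_zero_of_mul hy'
    have hc2 := right_ne_zero_of_mul hy'
    simp only at hc1 hc2 hx hy
    have e1 : ((x1, y1) : ℕ × ℕ) + (x2, y2) = n := Prod.ext hx hy
    have l1 := h.le hc1
    have l2 := h'.le hc2
    rw [← e1, wt_add, wt_add]
    by_cases n1 : (x1, y1) = m
    · by_cases n2 : (x2, y2) = m'
      · exact absurd (by rw [← e1, n1, n2]) hne
      · have := h'.2 _ hc2 n2
        linarith
    · have := h.2 _ hc1 n1
      linarith

theorem dom_one (τ : ℝ) : Dom 1 τ 0 := by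
  have h := dom_C (one_ne_zero (α := Polynomial ℂ)) τ
  rw [Polynomial.natDegree_one, Polynomial.C_1] at h
  exact h

theorem cf_one : cf 1 0 = 1 := by
  simp [cf]

theorem dom_pow {f : P2} {τ : ℝ} {m : ℕ × ℕ} (h : Dom f τ m) (n : ℕ) :
    Dom (f ^ n) τ (n • m) ∧ cf (f ^ n) (n • m) = cf f m ^ n := by
  induction n with
  | zero =>
    rw [pow_zero, zero_smul, pow_zero]
    exact ⟨dom_one τ, cf_one⟩
  | succ n ih =>
    have h1 := dom_mul ih.1 h
    rw [pow_succ, succ_nsmul, pow_succ, ← ih.2]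
    exact h1

theorem dom_prod {φ : ℕ → P2} {α : ℕ → ℕ} {μ : ℕ → ℕ × ℕ} {τ : ℝ} (k : ℕ)
    (h : ∀ j < k, α j ≠ 0 → Dom (φ j) τ (μ j)) :
    Dom (∏ j ∈ range k, φ j ^ α j) τ (∑ j ∈ range k, α j • μ j) ∧
      cf (∏ j ∈ range k, φ j ^ α j) (∑ j ∈ range k, α j • μ j) =
        ∏ j ∈ range k, cf (φ j) (μ j) ^ α j := by
  induction k with
  | zero =>
    simp only [range_zero, prod_empty, sum_empty]
    exact ⟨dom_one τ, cf_one⟩
  | succ k ih =>
    have ih := ih fun j hj => h j (by omega)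
    rw [prod_range_succ, sum_range_succ, prod_range_succ]
    have h1 : Dom (φ k ^ α k) τ (α k • μ k) ∧
        cf (φ k ^ α k) (α k • μ k) = cf (φ k) (μ k) ^ α k := by
      by_cases h0 : α k = 0
      · rw [h0, pow_zero, zero_smul, pow_zero]
        exact ⟨dom_one τ, cf_one⟩
      · exact dom_pow (h k (by omega) h0) _
    rw [← ih.2, ← h1.2]
    exact dom_mul ih.1 h1.1

theorem dom_mon {φ : ℕ → P2} {k : ℕ} {K : Polynomial ℂ} (hK : K ≠ 0) {α : ℕ → ℕ}
    {μ : ℕ → ℕ × ℕ} {τ : ℝ} (h : ∀ j < k, α j ≠ 0 → Dom (φ j) τ (μ j)) :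
    Dom (mon φ k K α) τ (exps μ k K α) ∧
      cf (mon φ k K α) (exps μ k K α) = coef φ μ k K α := by
  have h1 := dom_prod k h
  have h2 := dom_mul (dom_C hK τ) h1.1
  have e : cf (Polynomial.C K) (0, K.natDegree) = K.leadingCoeff := by
    rw [cf_C, if_pos rfl]
    rfl
  rw [e, h1.2] at h2
  exact h2

theorem dom_convex {f : P2} {a b τ : ℝ} {m : ℕ × ℕ} (ha : Dom f a m) (hb : Dom f b m)
    (h1 : a ≤ τ) (h2 : τ ≤ b) : Dom f τ m := by
  refine ⟨ha.1, ?_⟩
  intro n hn hne
  have ka := ha.2 n hn hne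
  have kb := hb.2 n hn hne
  unfold wt at *
  rcases le_total (n.1 : ℝ) m.1 with h | h
  · nlinarith
  · nlinarith

theorem dom_mono {f : P2} {a b : ℝ} {m m' : ℕ × ℕ} (ha : Dom f a m) (hb : Dom f b m')
    (hab : a < b) (hne : m ≠ m') : m.1 < m'.1 := by
  have k1 := ha.2 m' hb.1 (Ne.symm hne)
  have k2 := hb.2 m ha.1 hne
  unfold wt at *
  by_contra hc
  push Not at hc
  have hc' : (m'.1 : ℝ) ≤ m.1 := by exact_mod_cast hc
  nlinarith

end Pool.Agent.Lib.MP_641cb6_lc.KC
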