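import Pool.Agent.Lib.MP_641cb6_lc.KH.Defs

/-!
# Arithmetic of the bound, constant 3
-/

set_option autoImplicit false

namespace Pool.Agent.Lib.MP_641cb6_lc.KC

open Pool.Agent.Lib.MP_641cb6_lc.KH (bd)

namespace Cbdn

private lemma step {n W D d j : ℕ} (hn : 1 ≤ n) (hW : W ≤ 3 * n) (hD : D ≤ 3 * n)
    (hd : d + 1 ≤ (3 * n + 4) ^ (j + 1)) :
    n * (D + d) + 2 * W + 2 + 1 ≤ (3 * n + 4) ^ (j + 1 + 1) := by
  have h1 : 3 * n + 4 ≤ (3 * n + 4) ^ (j + 1) := Nat.le_self_pow (by omega) _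
  rw [pow_succ]
  generalize (3 * n + 4) ^ (j + 1) = B at *
  have h2 : n * (D + d) ≤ n * (3 * n + (B - 1)) := Nat.mul_le_mul_left n (by omega)
  obtain ⟨C, rfl⟩ : ∃ C, B = C + 1 := ⟨B - 1, by omega⟩
  simp only [Nat.add_sub_cancel] at h2
  nlinarith

private lemma aux {n W D : ℕ} (hn : 1 ≤ n) (hW : W ≤ 3 * n) (hD : D ≤ 3 * n) (k : ℕ) :
    ∀ d j : ℕ, d + 1 ≤ (3 * n + 4) ^ (j + 1) →
      bd n W D k d ≤ (3 * n + 4) ^ k * ((3 * n + 4) ^ (j + k + 1)) ^ n := by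
  induction k with
  | zero =>
    intro d j hd
    simp only [bd, pow_zero, one_mul, Nat.add_zero]
    exact Nat.pow_le_pow_left hd n
  | succ k ih =>
    intro d j hd
    have h := ih _ (j + 1) (step hn hW hD hd)
    have h3 : 3 ≤ 3 * n + 4 := by omega
    calc bd n W D (k + 1) d = 3 * bd n W D k (n * (D + d) + 2 * W + 2) := rfl
      _ ≤ (3 * n + 4) * ((3 * n + 4) ^ k * ((3 * n + 4) ^ (j + 1 + k + 1)) ^ n) :=
        Nat.mul_le_mul h3 h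
      _ = (3 * n + 4) ^ (k + 1) * ((3 * n + 4) ^ (j + (k + 1) + 1)) ^ n := by
        rw [show j + 1 + k + 1 = j + (k + 1) + 1 by ring, pow_succ (3 * n + 4) k]
        ring

end Cbdn

theorem bd_le3 {n W D : ℕ} (hn : 1 ≤ n) (hW : W ≤ 3 * n) (hD : D ≤ 3 * n) :
    bd n W D n 0 ≤ (3 * n + 4) ^ (n + 1) ^ 2 := by
  have h := Cbdn.aux hn hW hD n 0 0 (by simp)
  refine h.trans ?_
  rw [← pow_mul, ← pow_add]
  refine Nat.pow_le_pow_right (by omega) ?_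
  nlinarith

end Pool.Agent.Lib.MP_641cb6_lc.KC
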