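import Pool.Agent.Lib.MP_641cb6_lc.KH.Defs

/-!
# Module CLT: functions of logarithmic type from complex logarithms
-/

set_option autoImplicit false

namespace Pool.Agent.Lib.MP_641cb6_lc.KC

open Pool.Agent.Lib.MP_641cb6_lc.KH (LogType)
open MvPolynomial

theorem logType_const {n D : ℕ} (w : MvPolynomial (Fin n) ℝ) (c : ℝ) :
    LogType w D fun _ => c := by
  refine ⟨fun _ => 0, fun j => by simp, fun x _ => ?_⟩
  have h : (∑ j : Fin n, (eval x (0 : MvPolynomial (Fin n) ℝ) / eval x w) •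
      (ContinuousLinearMap.proj j : (Fin n → ℝ) →L[ℝ] ℝ)) = 0 := by
    refine Finset.sum_eq_zero fun j _ => ?_
    simp
  rw [h]
  exact hasFDerivAt_const c x

theorem logType_add {n D : ℕ} {w : MvPolynomial (Fin n) ℝ} {g g' : (Fin n → ℝ) → ℝ}
    (h : LogType w D g) (h' : LogType w D g') : LogType w D fun x => g x + g' x := by
  obtain ⟨q, hq, hg⟩ := h
  obtain ⟨q', hq', hg'⟩ := h'
  refine ⟨fun j => q j + q' j, fun j => ?_, fun x hx => ?_⟩
  · exact (totalDegree_add _ _).trans (max_le (hq j) (hq' j))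
  · have h := (hg x hx).add (hg' x hx)
    have e : (∑ j : Fin n, (eval x (q j + q' j) / eval x w) •
        (ContinuousLinearMap.proj j : (Fin n → ℝ) →L[ℝ] ℝ)) =
        (∑ j : Fin n, (eval x (q j) / eval x w) •
          (ContinuousLinearMap.proj j : (Fin n → ℝ) →L[ℝ] ℝ)) +
        ∑ j : Fin n, (eval x (q' j) / eval x w) •
          (ContinuousLinearMap.proj j : (Fin n → ℝ) →L[ℝ] ℝ) := by
      rw [← Finset.sum_add_distrib]
      refine Finset.sum_congr rfl fun j _ => ?_
      rw [map_add, add_div, add_smul]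
    rw [e]
    exact h

theorem logType_smul {n D : ℕ} {w : MvPolynomial (Fin n) ℝ} {g : (Fin n → ℝ) → ℝ} (c : ℝ)
    (h : LogType w D g) : LogType w D fun x => c * g x := by
  obtain ⟨q, hq, hg⟩ := h
  refine ⟨fun j => C c * q j, fun j => ?_, fun x hx => ?_⟩
  · refine (totalDegree_mul _ _).trans ?_
    rw [totalDegree_C, zero_add]
    exact hq j
  · have h := (hg x hx).const_mul c
    have e : (∑ j : Fin n, (eval x (C c * q j) / eval x w) •
        (ContinuousLinearMap.proj j : (Fin n → ℝ) →L[ℝ] ℝ)) =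
        c • ∑ j : Fin n, (eval x (q j) / eval x w) •
          (ContinuousLinearMap.proj j : (Fin n → ℝ) →L[ℝ] ℝ) := by
      rw [Finset.smul_sum]
      refine Finset.sum_congr rfl fun j _ => ?_
      rw [map_mul, eval_C, mul_div_assoc, smul_smul]
    rw [e]
    exact h

theorem logType_log {n D : ℕ} {w w' : MvPolynomial (Fin n) ℝ} {p : Fin n} (hw : w = X p * w')
    (hD : w'.totalDegree ≤ D) : LogType w D fun x => Real.log (x p) := by
  classical
  refine ⟨fun j => if j = p then w' else 0, fun j => ?_, fun x hx => ?_⟩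
  · dsimp only
    split_ifs
    · exact hD
    · simp
  · have hx' : x p * eval x w' ≠ 0 := by
      have := hx
      rw [hw, map_mul, eval_X] at this
      exact this
    have hp : x p ≠ 0 := left_ne_zero_of_mul hx'
    have hw' : eval x w' ≠ 0 := right_ne_zero_of_mul hx'
    have h1 : HasFDerivAt (fun x : Fin n → ℝ => x p)
        (ContinuousLinearMap.proj p : (Fin n → ℝ) →L[ℝ] ℝ) x :=
      (ContinuousLinearMap.proj p : (Fin n → ℝ) →L[ℝ] ℝ).hasFDerivAt
    have h := h1.log hp
    have e : (∑ j : Fin n, (eval x (if j = p then w' else 0) / eval x w) •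
        (ContinuousLinearMap.proj j : (Fin n → ℝ) →L[ℝ] ℝ)) =
        (x p)⁻¹ • (ContinuousLinearMap.proj p : (Fin n → ℝ) →L[ℝ] ℝ) := by
      rw [Finset.sum_eq_single p]
      · rw [if_pos rfl, hw, map_mul, eval_X]
        congr 1
        field_simp
      · intro j _ hj
        rw [if_neg hj, map_zero, zero_div, zero_smul]
      · intro hh
        exact absurd (Finset.mem_univ p) hh
    rw [e]
    exact h

/-- a gradient with two components -/
theorem clt_two_terms {n : ℕ} {w w' : MvPolynomial (Fin n) ℝ} {p q : Fin n} (hpq : p ≠ q)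
    {u v : MvPolynomial (Fin n) ℝ} {x : Fin n → ℝ} {t : ℝ} (ht : t ≠ 0)
    (hw' : eval x w' ≠ 0) (hw : eval x w = t * eval x w') :
    (∑ j : Fin n, (eval x (if j = p then u * w' else if j = q then v * w' else 0) / eval x w) •
        (ContinuousLinearMap.proj j : (Fin n → ℝ) →L[ℝ] ℝ)) =
      (eval x u / t) • (ContinuousLinearMap.proj p : (Fin n → ℝ) →L[ℝ] ℝ) +
      (eval x v / t) • (ContinuousLinearMap.proj q : (Fin n → ℝ) →L[ℝ] ℝ) := by
  have e1 : ∀ y : MvPolynomial (Fin n) ℝ, eval x (y * w') / eval x w = eval x y / t := by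
    intro y
    rw [map_mul, hw]
    field_simp
  have e2 : ∀ j : Fin n, (eval x (if j = p then u * w' else if j = q then v * w' else 0) /
      eval x w) • (ContinuousLinearMap.proj j : (Fin n → ℝ) →L[ℝ] ℝ) =
      (if j = p then (eval x u / t) • (ContinuousLinearMap.proj p : (Fin n → ℝ) →L[ℝ] ℝ) else 0) +
      (if j = q then (eval x v / t) • (ContinuousLinearMap.proj q : (Fin n → ℝ) →L[ℝ] ℝ)
        else 0) := by
    intro j
    by_cases hp : j = p
    · rw [if_pos hp, if_pos hp, if_neg (fun h => hpq (hp.symm.trans h)), e1, add_zero, hp]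
    · rw [if_neg hp, if_neg hp, zero_add]
      by_cases hq : j = q
      · rw [if_pos hq, if_pos hq, e1, hq]
      · rw [if_neg hq, if_neg hq, map_zero, zero_div, zero_smul]
  rw [Finset.sum_congr rfl fun j _ => e2 j, Finset.sum_add_distrib]
  simp

theorem logType_norm {n D : ℕ} {w w' : MvPolynomial (Fin n) ℝ} {p q : Fin n} (hpq : p ≠ q) (a : ℝ)
    (hw : w = ((X p - C a) ^ 2 + X q ^ 2) * w') (hD : w'.totalDegree + 1 ≤ D) :
    LogType w D fun x => Real.log ‖(⟨x p - a, x q⟩ : ℂ)‖ := by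
  classical
  have hfun : (fun x : Fin n → ℝ => Real.log ‖(⟨x p - a, x q⟩ : ℂ)‖) =
      fun x => (1 / 2 : ℝ) * Real.log ((x p - a) ^ 2 + x q ^ 2) := by
    funext x
    have h1 : ‖(⟨x p - a, x q⟩ : ℂ)‖ = Real.sqrt ((x p - a) ^ 2 + x q ^ 2) := by
      rw [Complex.norm_def, Complex.normSq_mk]
      congr 1
      ring
    rw [h1, Real.log_sqrt (by positivity)]
    ring
  rw [hfun]
  refine ⟨fun j => if j = p then (X p - C a) * w' else if j = q then X q * w' else 0,
    fun j => ?_, fun x hx => ?_⟩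
  · dsimp only
    split_ifs
    · refine (totalDegree_mul _ _).trans ?_
      have h1 : (X p - C a : MvPolynomial (Fin n) ℝ).totalDegree ≤ 1 := by
        refine (totalDegree_sub _ _).trans ?_
        rw [totalDegree_X, totalDegree_C]
        exact max_le le_rfl zero_le_one
      omega
    · refine (totalDegree_mul _ _).trans ?_
      rw [totalDegree_X]
      omega
    · simp
  · have hx' : ((x p - a) ^ 2 + x q ^ 2) * eval x w' ≠ 0 := by
      have := hx
      rw [hw] at this
      simpa using this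
    have ht : (x p - a) ^ 2 + x q ^ 2 ≠ 0 := left_ne_zero_of_mul hx'
    have hw' : eval x w' ≠ 0 := right_ne_zero_of_mul hx'
    have hw2 : eval x w = ((x p - a) ^ 2 + x q ^ 2) * eval x w' := by
      rw [hw]
      simp
    rw [clt_two_terms hpq ht hw' hw2]
    have h1 : HasFDerivAt (fun x : Fin n → ℝ => x p - a)
        (ContinuousLinearMap.proj p : (Fin n → ℝ) →L[ℝ] ℝ) x :=
      (ContinuousLinearMap.proj p : (Fin n → ℝ) →L[ℝ] ℝ).hasFDerivAt.sub_const a
    have h2 : HasFDerivAt (fun x : Fin n → ℝ => x q)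
        (ContinuousLinearMap.proj q : (Fin n → ℝ) →L[ℝ] ℝ) x :=
      (ContinuousLinearMap.proj q : (Fin n → ℝ) →L[ℝ] ℝ).hasFDerivAt
    have h := (((h1.pow 2).add (h2.pow 2)).log ht).const_mul (1 / 2 : ℝ)
    refine h.congr_fderiv ?_
    ext y
    simp
    field_simp

theorem logType_arg {n D : ℕ} {w w' : MvPolynomial (Fin n) ℝ} {p q : Fin n} (hpq : p ≠ q) (a : ℝ)
    (e : ℂ) (hw : w = ((X p - C a) ^ 2 + X q ^ 2) * w') (hD : w'.totalDegree + 1 ≤ D)
    (he : ∀ x, eval x w ≠ 0 → (e * ⟨x p - a, x q⟩).re ≠ 0) :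
    LogType w D fun x => Real.arctan ((e * ⟨x p - a, x q⟩).im / (e * ⟨x p - a, x q⟩).re) := by
  classical
  refine ⟨fun j => if j = p then (- X q) * w' else if j = q then (X p - C a) * w' else 0,
    fun j => ?_, fun x hx => ?_⟩
  · dsimp only
    split_ifs
    · refine (totalDegree_mul _ _).trans ?_
      rw [totalDegree_neg, totalDegree_X]
      omega
    · refine (totalDegree_mul _ _).trans ?_
      have h1 : (X p - C a : MvPolynomial (Fin n) ℝ).totalDegree ≤ 1 := by
        refine (totalDegree_sub _ _).trans ?_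
        rw [totalDegree_X, totalDegree_C]
        exact max_le le_rfl zero_le_one
      omega
    · simp
  · have hx' : ((x p - a) ^ 2 + x q ^ 2) * eval x w' ≠ 0 := by
      have := hx
      rw [hw] at this
      simpa using this
    have ht : (x p - a) ^ 2 + x q ^ 2 ≠ 0 := left_ne_zero_of_mul hx'
    have hw' : eval x w' ≠ 0 := right_ne_zero_of_mul hx'
    have hw2 : eval x w = ((x p - a) ^ 2 + x q ^ 2) * eval x w' := by
      rw [hw]
      simp
    have hre := he x hx
    rw [clt_two_terms hpq ht hw' hw2]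
    obtain ⟨e1, e2⟩ := e
    simp only [Complex.mul_re, Complex.mul_im] at hre ⊢
    have h1 : HasFDerivAt (fun x : Fin n → ℝ => x p - a)
        (ContinuousLinearMap.proj p : (Fin n → ℝ) →L[ℝ] ℝ) x :=
      (ContinuousLinearMap.proj p : (Fin n → ℝ) →L[ℝ] ℝ).hasFDerivAt.sub_const a
    have h2 : HasFDerivAt (fun x : Fin n → ℝ => x q)
        (ContinuousLinearMap.proj q : (Fin n → ℝ) →L[ℝ] ℝ) x :=
      (ContinuousLinearMap.proj q : (Fin n → ℝ) →L[ℝ] ℝ).hasFDerivAt
    have hI : HasFDerivAt (fun x : Fin n → ℝ => e1 * x q + e2 * (x p - a))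
        (e1 • (ContinuousLinearMap.proj q : (Fin n → ℝ) →L[ℝ] ℝ) +
          e2 • (ContinuousLinearMap.proj p : (Fin n → ℝ) →L[ℝ] ℝ)) x :=
      (h2.const_mul e1).add (h1.const_mul e2)
    have hR : HasFDerivAt (fun x : Fin n → ℝ => e1 * (x p - a) - e2 * x q)
        (e1 • (ContinuousLinearMap.proj p : (Fin n → ℝ) →L[ℝ] ℝ) -
          e2 • (ContinuousLinearMap.proj q : (Fin n → ℝ) →L[ℝ] ℝ)) x :=
      (h1.const_mul e1).sub (h2.const_mul e2)
    have hRi : HasFDerivAt (fun x : Fin n → ℝ => (e1 * (x p - a) - e2 * x q)⁻¹)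
        ((-((e1 * (x p - a) - e2 * x q) ^ 2)⁻¹) •
          (e1 • (ContinuousLinearMap.proj p : (Fin n → ℝ) →L[ℝ] ℝ) -
          e2 • (ContinuousLinearMap.proj q : (Fin n → ℝ) →L[ℝ] ℝ))) x :=
      (hasDerivAt_inv hre).comp_hasFDerivAt x hR
    have hT : HasFDerivAt
        (fun x : Fin n → ℝ => (e1 * x q + e2 * (x p - a)) / (e1 * (x p - a) - e2 * x q)) _ x :=
      hI.mul hRi
    have h := hT.arctan
    refine h.congr_fderiv ?_
    ext y
    simp only [smul_apply, add_apply,
      sub_apply, ContinuousLinearMap.proj_apply, smul_eq_mul, map_neg,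
      map_sub, eval_X, eval_C]
    obtain ⟨u, hu⟩ : ∃ u, u = x p - a := ⟨_, rfl⟩
    obtain ⟨v, hv⟩ : ∃ v, v = x q := ⟨_, rfl⟩
    obtain ⟨R, hRR⟩ : ∃ R, R = e1 * u - e2 * v := ⟨_, rfl⟩
    obtain ⟨I, hII⟩ : ∃ I, I = e1 * v + e2 * u := ⟨_, rfl⟩
    rw [← hu, ← hv] at hre ht ⊢
    rw [← hRR] at hre ⊢
    rw [← hII]
    have hRI : R ^ 2 + I ^ 2 = (e1 ^ 2 + e2 ^ 2) * (u ^ 2 + v ^ 2) := by
      rw [hRR, hII]
      ring
    have h0 : 0 < R ^ 2 + I ^ 2 := by positivity
    have h3 : e1 ^ 2 + e2 ^ 2 ≠ 0 := by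
      intro h4
      rw [h4, zero_mul] at hRI
      exact h0.ne' hRI
    have h5 : (1 : ℝ) + (I / R) ^ 2 = (R ^ 2 + I ^ 2) / R ^ 2 := by
      field_simp
    rw [h5, hRI]
    field_simp
    rw [hRR, hII]
    ring

end Pool.Agent.Lib.MP_641cb6_lc.KC
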