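import Pool.Agent.Lib.MP_641cb6_lc.KC.SymC
import Pool.Agent.Lib.MP_641cb6_lc.KC.Sim

/-!
# When is a computed value zero?
-/

set_option autoImplicit false

namespace Pool.Agent.Lib.MP_641cb6_lc.KC

open Pool.Agent.Lib.MP_641cb6_lc.KH
open Set

/-- a value is zero iff its factor is zero or an atom that occurs in it is zero -/
theorem val_zero {n : ℕ} (P : ℂ → Prop) (T : CompTree ℂ) (x : (Fin n → ℂ) × ℂ) (k i : ℕ) :
    (T.run P x k).val i = 0 ↔ ((sym n T (T.run P x k).hist).val i).1 = 0 ∨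
      ∃ l < n + 1 + (sym n T (T.run P x k).hist).atoms.length,
        ((sym n T (T.run P x k).hist).val i).2 l ≠ 0 ∧
          (sym n T (T.run P x k).hist).ev x l = 0 := by
  rw [sim_val]
  set s := sym n T (T.run P x k).hist with hs
  rw [mul_eq_zero, Finsupp.prod, Finset.prod_eq_zero_iff]
  refine or_congr Iff.rfl ?_
  constructor
  · rintro ⟨l, hl, h⟩
    have h1 : (s.val i).2 l ≠ 0 := Finsupp.mem_support_iff.1 hl
    refine ⟨l, sym_supp T _ i l h1, h1, ?_⟩
    by_contra h2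
    exact zpow_ne_zero _ h2 h
  · rintro ⟨l, _, h1, h2⟩
    refine ⟨l, Finsupp.mem_support_iff.2 h1, ?_⟩
    rw [h2, zero_zpow _ h1]

end Pool.Agent.Lib.MP_641cb6_lc.KC
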