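import Pool.Agent.Lib.MP_641cb6_lc.KC.Defs
import Pool.Agent.Lib.MP_641cb6_lc.KH.Defs
import Pool.Agent.Lib.MP_641cb6_lc.KH.Fam
import Pool.Agent.Lib.MP_641cb6_lc.KC.Tpol
import Pool.Agent.Lib.MP_641cb6_lc.KH.Ind
import Pool.Agent.Lib.MP_641cb6_lc.KC.Cbdn
import Pool.Agent.Lib.MP_641cb6_lc.KC.Clt

/-!
# Module CRED: zeros of combinations of complex logarithms
-/

set_option autoImplicit false

namespace Pool.Agent.Lib.MP_641cb6_lc.KC

open Pool.Agent.Lib.MP_641cb6_lc.KH (LogType bd jac nz)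
open MvPolynomial Set Topology Filter

namespace Cred

variable {r : ℕ}

/-- the place of the real part of `z i` -/
def P (i : Fin r) : Fin (2 * r + 1) := ⟨2 * i + 1, by omega⟩

/-- the place of the imaginary part of `z i` -/
def Q (i : Fin r) : Fin (2 * r + 1) := ⟨2 * i + 2, by omega⟩

/-- families indexed by the `2 r + 1` places -/
def mk {α : Type*} (a : α) (p q : Fin r → α) (j : Fin (2 * r + 1)) : α :=
  if h : (j : ℕ) = 0 then a
  else if h2 : (j : ℕ) % 2 = 1 then p ⟨((j : ℕ) - 1) / 2, by omega⟩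
    else q ⟨((j : ℕ) - 2) / 2, by omega⟩

lemma mk_zero {α : Type*} (a : α) (p q : Fin r → α) : mk a p q 0 = a := by
  simp [mk]

lemma mk_P {α : Type*} (a : α) (p q : Fin r → α) (i : Fin r) : mk a p q (P i) = p i := by
  have h1 : ¬ ((P i : Fin (2 * r + 1)) : ℕ) = 0 := by simp [P]
  have h2 : ((P i : Fin (2 * r + 1)) : ℕ) % 2 = 1 := by simp only [P]; omega
  rw [mk, dif_neg h1, dif_pos h2]
  congr 1
  apply Fin.ext
  simp only [P]
  omega

lemma mk_Q {α : Type*} (a : α) (p q : Fin r → α) (i : Fin r) : mk a p q (Q i) = q i := by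
  have h1 : ¬ ((Q i : Fin (2 * r + 1)) : ℕ) = 0 := by simp [Q]
  have h2 : ¬ ((Q i : Fin (2 * r + 1)) : ℕ) % 2 = 1 := by simp only [Q]; omega
  rw [mk, dif_neg h1, dif_neg h2]
  congr 1
  apply Fin.ext
  simp only [Q]
  omega

lemma place (j : Fin (2 * r + 1)) : j = 0 ∨ (∃ i, j = P i) ∨ ∃ i, j = Q i := by
  by_cases h : (j : ℕ) = 0
  · exact Or.inl (Fin.ext h)
  · right
    have hj := j.isLt
    by_cases h2 : (j : ℕ) % 2 = 1
    · left
      refine ⟨⟨((j : ℕ) - 1) / 2, by omega⟩, Fin.ext ?_⟩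
      simp only [P]
      omega
    · right
      refine ⟨⟨((j : ℕ) - 2) / 2, by omega⟩, Fin.ext ?_⟩
      simp only [Q]
      omega

lemma P_ne_Q (i j : Fin r) : P i ≠ Q j := by
  intro h
  have := congrArg (fun k : Fin (2 * r + 1) => (k : ℕ)) h
  simp only [P, Q] at this
  omega

/-- `Z - a` as a function of the real variables -/
def Zc (a : ℝ) (i : Fin r) (x : Fin (2 * r + 1) → ℝ) : ℂ := ⟨x (P i) - a, x (Q i)⟩

/-- `log (e Z)` on the right half plane, extended to the left half plane -/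
noncomputable def Lg (e Z : ℂ) : ℂ :=
  ⟨Real.log ‖Z‖ + Real.log ‖e‖, Real.arctan ((e * Z).im / (e * Z).re)⟩

lemma Lg_eq {e Z : ℂ} (h : 0 < (e * Z).re) : Lg e Z = Complex.log (e * Z) := by
  have h0 : e * Z ≠ 0 := by
    intro h1
    rw [h1] at h
    simp at h
  have he : e ≠ 0 := left_ne_zero_of_mul h0
  have hZ : Z ≠ 0 := right_ne_zero_of_mul h0
  apply Complex.ext
  · rw [Complex.log_re, norm_mul, Real.log_mul (norm_ne_zero_iff.mpr he) (norm_ne_zero_iff.mpr hZ)]
    simp only [Lg]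
    ring
  · rw [Complex.log_im]
    simp only [Lg]
    rw [← Complex.tan_arg]
    have h2 : |Complex.arg (e * Z)| < Real.pi / 2 :=
      Complex.abs_arg_lt_pi_div_two_iff.mpr (Or.inl h)
    rw [abs_lt] at h2
    exact Real.arctan_tan h2.1 h2.2

lemma Lg_deriv {f : ℝ → ℂ} {f' : ℂ} {t : ℝ} (hf : HasDerivAt f f' t) {e : ℂ}
    (h : 0 < (e * f t).re) : HasDerivAt (fun t => Lg e (f t)) (f' / f t) t := by
  have h0 : e * f t ≠ 0 := by
    intro h1
    rw [h1] at h
    simp at h
  have he : e ≠ 0 := left_ne_zero_of_mul h0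
  have hev : ∀ᶠ s in 𝓝 t, 0 < (e * f s).re := by
    have hc : ContinuousAt (fun s => (e * f s).re) t :=
      Complex.continuous_re.continuousAt.comp (continuousAt_const.mul hf.continuousAt)
    exact hc.eventually (lt_mem_nhds h)
  have h1 : HasDerivAt (fun s => Complex.log (e * f s)) (f' / f t) t := by
    have h2 := (hf.const_mul e).clog_real (Or.inl h)
    have h3 : e * f' / (e * f t) = f' / f t := mul_div_mul_left _ _ he
    rw [h3] at h2
    exact h2
  refine h1.congr_of_eventuallyEq ?_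
  filter_upwards [hev] with s hs
  exact Lg_eq hs

section Poly

variable (e e' : Fin r → ℂ)

/-- the real part of `e (Z - a)` -/
noncomputable def rp (e : ℂ) (a : ℝ) (i : Fin r) : MvPolynomial (Fin (2 * r + 1)) ℝ :=
  C e.re * (X (P i) - C a) - C e.im * X (Q i)

/-- the square of the norm of `Z - a` -/
noncomputable def qd (a : ℝ) (i : Fin r) : MvPolynomial (Fin (2 * r + 1)) ℝ :=
  (X (P i) - C a) ^ 2 + X (Q i) ^ 2

/-- one factor of the denominator -/
noncomputable def fac (i : Fin r) : MvPolynomial (Fin (2 * r + 1)) ℝ :=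
  (rp (e i) 0 i * qd 0 i) * (rp (e' i) 1 i * qd 1 i)

/-- the denominator -/
noncomputable def w : MvPolynomial (Fin (2 * r + 1)) ℝ := X 0 * ∏ i, fac e e' i

lemma deg_lin (a : ℝ) (i : Fin r) :
    (X (P i) - C a : MvPolynomial (Fin (2 * r + 1)) ℝ).totalDegree ≤ 1 := by
  refine (totalDegree_sub _ _).trans ?_
  rw [totalDegree_X, totalDegree_C]
  exact max_le le_rfl zero_le_one

lemma deg_rp (e : ℂ) (a : ℝ) (i : Fin r) : (rp e a i).totalDegree ≤ 1 := by
  unfold rp
  refine (totalDegree_sub _ _).trans (max_le ?_ ?_)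
  · refine (totalDegree_mul _ _).trans ?_
    rw [totalDegree_C, zero_add]
    exact deg_lin a i
  · refine (totalDegree_mul _ _).trans ?_
    rw [totalDegree_C, zero_add, totalDegree_X]

lemma deg_qd (a : ℝ) (i : Fin r) : (qd a i).totalDegree ≤ 2 := by
  unfold qd
  refine (totalDegree_add _ _).trans (max_le ?_ ?_)
  · refine (totalDegree_pow _ _).trans ?_
    have := deg_lin a i
    omega
  · refine (totalDegree_pow _ _).trans ?_
    rw [totalDegree_X]

lemma deg_fac (i : Fin r) : (fac e e' i).totalDegree ≤ 6 := by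
  unfold fac
  have h1 := totalDegree_mul (rp (e i) 0 i * qd 0 i) (rp (e' i) 1 i * qd 1 i)
  have h2 := totalDegree_mul (rp (e i) 0 i) (qd 0 i)
  have h3 := totalDegree_mul (rp (e' i) 1 i) (qd 1 i)
  have h4 := deg_rp (e i) 0 i
  have h5 := deg_rp (e' i) 1 i
  have h6 := deg_qd 0 i
  have h7 := deg_qd 1 i
  omega

lemma deg_prod (s : Finset (Fin r)) : (∏ i ∈ s, fac e e' i).totalDegree ≤ 6 * s.card := by
  refine (totalDegree_finsetProd _ _).trans ?_
  refine (Finset.sum_le_card_nsmul s _ 6 fun i _ => deg_fac e e' i).trans ?_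
  rw [smul_eq_mul, mul_comm]

lemma deg_w : (w e e').totalDegree ≤ 6 * r + 1 := by
  unfold w
  refine (totalDegree_mul _ _).trans ?_
  have h := deg_prod e e' Finset.univ
  rw [Finset.card_univ, Fintype.card_fin] at h
  rw [totalDegree_X]
  omega

lemma log0 : LogType (w e e') (6 * r + 3) fun x => Real.log (x 0) := by
  refine logType_log (w' := ∏ i, fac e e' i) rfl ?_
  have h := deg_prod e e' Finset.univ
  rw [Finset.card_univ, Fintype.card_fin] at h
  omega

/-- the cofactor of `qd a i` -/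
lemma cof (i : Fin r) (a : ℝ) (ha : a = 0 ∨ a = 1) :
    ∃ w' : MvPolynomial (Fin (2 * r + 1)) ℝ,
      w e e' = ((X (P i) - C a) ^ 2 + X (Q i) ^ 2) * w' ∧ w'.totalDegree + 1 ≤ 6 * r + 3 := by
  have hp : ∏ i, fac e e' i = fac e e' i * ∏ j ∈ Finset.univ.erase i, fac e e' j :=
    (Finset.mul_prod_erase _ _ (Finset.mem_univ i)).symm
  have hd := deg_prod e e' (Finset.univ.erase i)
  rw [Finset.card_erase_of_mem (Finset.mem_univ i), Finset.card_univ, Fintype.card_fin] at hd
  have hr : 1 ≤ r := by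
    have := i.isLt
    omega
  have h4 := deg_rp (e i) 0 i
  have h5 := deg_rp (e' i) 1 i
  have h6 := deg_qd 0 i
  have h7 := deg_qd 1 i
  rcases ha with rfl | rfl
  · refine ⟨X 0 * (rp (e i) 0 i * (rp (e' i) 1 i * qd 1 i)) *
      ∏ j ∈ Finset.univ.erase i, fac e e' j, ?_, ?_⟩
    · rw [w, hp, fac]
      change X 0 * (rp (e i) 0 i * qd 0 i * (rp (e' i) 1 i * qd 1 i) *
        ∏ j ∈ Finset.univ.erase i, fac e e' j) = qd 0 i * _
      ring
    · have h1 := totalDegree_mul (X 0 * (rp (e i) 0 i * (rp (e' i) 1 i * qd 1 i)))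
        (∏ j ∈ Finset.univ.erase i, fac e e' j)
      have h2 := totalDegree_mul (X 0) (rp (e i) 0 i * (rp (e' i) 1 i * qd 1 i))
      rw [totalDegree_X] at h2
      have h3 := totalDegree_mul (rp (e i) 0 i) (rp (e' i) 1 i * qd 1 i)
      have h8 := totalDegree_mul (rp (e' i) 1 i) (qd 1 i)
      omega
  · refine ⟨X 0 * (rp (e' i) 1 i * (rp (e i) 0 i * qd 0 i)) *
      ∏ j ∈ Finset.univ.erase i, fac e e' j, ?_, ?_⟩
    · rw [w, hp, fac]
      change X 0 * (rp (e i) 0 i * qd 0 i * (rp (e' i) 1 i * qd 1 i) *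
        ∏ j ∈ Finset.univ.erase i, fac e e' j) = qd 1 i * _
      ring
    · have h1 := totalDegree_mul (X 0 * (rp (e' i) 1 i * (rp (e i) 0 i * qd 0 i)))
        (∏ j ∈ Finset.univ.erase i, fac e e' j)
      have h2 := totalDegree_mul (X 0) (rp (e' i) 1 i * (rp (e i) 0 i * qd 0 i))
      rw [totalDegree_X] at h2
      have h3 := totalDegree_mul (rp (e' i) 1 i) (rp (e i) 0 i * qd 0 i)
      have h8 := totalDegree_mul (rp (e i) 0 i) (qd 0 i)
      omega

lemma eval_rp (e : ℂ) (a : ℝ) (i : Fin r) (x : Fin (2 * r + 1) → ℝ) :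
    eval x (rp e a i) = (e * Zc a i x).re := by
  simp [rp, Zc, Complex.mul_re]

lemma eval_qd (a : ℝ) (i : Fin r) (x : Fin (2 * r + 1) → ℝ) :
    eval x (qd a i) = Complex.normSq (Zc a i x) := by
  simp [qd, Zc, Complex.normSq_apply]
  ring

lemma eval_w (x : Fin (2 * r + 1) → ℝ) :
    eval x (w e e') = x 0 * ∏ i, ((e i * Zc 0 i x).re * Complex.normSq (Zc 0 i x) *
      ((e' i * Zc 1 i x).re * Complex.normSq (Zc 1 i x))) := by
  rw [w, map_mul, eval_X, map_prod]
  congr 1
  refine Finset.prod_congr rfl fun i _ => ?_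
  rw [fac, map_mul, map_mul, map_mul, eval_rp, eval_rp, eval_qd, eval_qd]

lemma ne_of_w {x : Fin (2 * r + 1) → ℝ} (h : eval x (w e e') ≠ 0) (i : Fin r) :
    (e i * Zc 0 i x).re ≠ 0 ∧ (e' i * Zc 1 i x).re ≠ 0 := by
  rw [eval_w] at h
  have h1 := right_ne_zero_of_mul h
  rw [Finset.prod_ne_zero_iff] at h1
  have h2 := h1 i (Finset.mem_univ i)
  exact ⟨left_ne_zero_of_mul (left_ne_zero_of_mul h2),
    left_ne_zero_of_mul (right_ne_zero_of_mul h2)⟩

lemma logLg (i : Fin r) (a : ℝ) (ha : a = 0 ∨ a = 1) (ε ω : ℂ)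
    (hε : ∀ x, eval x (w e e') ≠ 0 → (ε * Zc a i x).re ≠ 0) :
    LogType (w e e') (6 * r + 3) fun x => (ω * Lg ε (Zc a i x)).re := by
  obtain ⟨w', hw, hD⟩ := cof e e' i a ha
  have h1 := logType_norm (P_ne_Q i i) a hw hD
  have h2 := logType_arg (P_ne_Q i i) a ε hw hD hε
  have h3 := logType_add (logType_add (logType_smul ω.re h1)
    (logType_const (w e e') (ω.re * Real.log ‖ε‖))) (logType_smul (-ω.im) h2)
  convert h3 using 2 with x
  rw [Complex.mul_re]
  simp only [Lg, Zc]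
  ring

lemma logSum {g : Fin r → (Fin (2 * r + 1) → ℝ) → ℝ}
    (hg : ∀ i, LogType (w e e') (6 * r + 3) (g i)) (s : Finset (Fin r)) :
    LogType (w e e') (6 * r + 3) fun x => ∑ i ∈ s, g i x := by
  classical
  induction s using Finset.induction_on with
  | empty => simpa using logType_const (w e e') (0 : ℝ)
  | insert i s hi ih =>
    have h := logType_add (hg i) ih
    convert h using 2 with x
    rw [Finset.sum_insert hi]

/-- the real part of a multiple of an affine combination of logarithms -/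
noncomputable def G (ω c : ℂ) (a₀ : ℝ) (a : Fin r → ℝ) (x : Fin (2 * r + 1) → ℝ) : ℝ :=
  (ω * (c + a₀ * Real.log (x 0) + ∑ j, a j * Lg (e j) (Zc 0 j x))).re

lemma logG (ω c : ℂ) (a₀ : ℝ) (a : Fin r → ℝ) :
    LogType (w e e') (6 * r + 3) (G e ω c a₀ a) := by
  have h1 := logType_add (logType_add (logType_const (w e e') (ω * c).re)
    (logType_smul (ω.re * a₀) (log0 e e')))
    (logSum e e' (g := fun j x => a j * (ω * Lg (e j) (Zc 0 j x)).re)
      (fun j => logType_smul (a j) (logLg e e' j 0 (Or.inl rfl) (e j) ω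
        fun _ hx => (ne_of_w e e' hx j).1)) Finset.univ)
  convert h1 using 2 with x
  rw [G, mul_add, mul_add, Complex.add_re, Complex.add_re, Finset.mul_sum, Complex.re_sum]
  congr 1
  · congr 1
    rw [Complex.mul_re]
    simp
    ring
  · refine Finset.sum_congr rfl fun j _ => ?_
    rw [show ω * (↑(a j) * Lg (e j) (Zc 0 j x)) = ((a j : ℝ) : ℂ) * (ω * Lg (e j) (Zc 0 j x)) by
      ring, Complex.re_ofReal_mul]

/-- a row of the system: the real part of a multiple of one of the relations -/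
noncomputable def H (ω : ℂ) (c : Fin r → ℂ) (a₀ : Fin r → ℝ) (A : Fin r → Fin r → ℝ) (i : Fin r)
    (x : Fin (2 * r + 1) → ℝ) : ℝ :=
  (ω * Lg (e' i) (Zc 1 i x)).re + (-1) * G e ω (c i) (a₀ i) (A i) x

lemma logH (ω : ℂ) (c : Fin r → ℂ) (a₀ : Fin r → ℝ) (A : Fin r → Fin r → ℝ) (i : Fin r) :
    LogType (w e e') (6 * r + 3) (H e e' ω c a₀ A i) :=
  logType_add (logLg e e' i 1 (Or.inr rfl) (e' i) ω fun _ hx => (ne_of_w e e' hx i).2)
    (logType_smul (-1) (logG e e' ω (c i) (a₀ i) (A i)))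

end Poly

section Line

variable (e e' : Fin r → ℂ)

lemma Zc_line (a : ℝ) (i : Fin r) (x v : Fin (2 * r + 1) → ℝ) :
    HasDerivAt (fun t : ℝ => Zc a i (x + t • v)) (Zc 0 i v) 0 := by
  have h : (fun t : ℝ => Zc a i (x + t • v)) = fun t : ℝ => Zc a i x + (t : ℂ) * Zc 0 i v := by
    funext t
    apply Complex.ext
    · simp [Zc]
      ring
    · simp [Zc]
  rw [h]
  have h1 : HasDerivAt (fun t : ℝ => (t : ℂ)) 1 0 := Complex.ofRealCLM.hasDerivAt
  simpa using (h1.mul_const (Zc 0 i v)).const_add (Zc a i x)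

lemma line0 (x : Fin (2 * r + 1) → ℝ) (v : Fin (2 * r + 1) → ℝ) :
    x + (0 : ℝ) • v = x := by simp

lemma Lg_line (ε : ℂ) (a : ℝ) (i : Fin r) (x v : Fin (2 * r + 1) → ℝ)
    (h : 0 < (ε * Zc a i x).re) :
    HasDerivAt (fun t : ℝ => Lg ε (Zc a i (x + t • v))) (Zc 0 i v / Zc a i x) 0 := by
  have h1 := Lg_deriv (Zc_line a i x v) (e := ε) (by rw [line0]; exact h)
  rw [line0] at h1
  exact h1

lemma log_line (x v : Fin (2 * r + 1) → ℝ) (h : x 0 ≠ 0) :
    HasDerivAt (fun t : ℝ => ((Real.log ((x + t • v) 0) : ℝ) : ℂ)) ((v 0 : ℂ) / x 0) 0 := by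
  have h1 : HasDerivAt (fun t : ℝ => (x + t • v) 0) (v 0) 0 := by
    have h2 : (fun t : ℝ => (x + t • v) 0) = fun t => x 0 + t * v 0 := by
      funext t
      simp
    rw [h2]
    simpa using ((hasDerivAt_id (0 : ℝ)).mul_const (v 0)).const_add (x 0)
  have h3 := h1.log (by rw [line0]; exact h)
  rw [line0] at h3
  have h4 := h3.ofReal_comp
  rw [Complex.ofReal_div] at h4
  exact h4

lemma re_deriv {f : ℝ → ℂ} {f' : ℂ} {t : ℝ} (h : HasDerivAt f f' t) (ω : ℂ) :
    HasDerivAt (fun t => (ω * f t).re) (ω * f').re t := by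
  have h1 := (Complex.reCLM.hasFDerivAt (x := ω * f t)).comp_hasDerivAt t (h.const_mul ω)
  exact h1

lemma G_line (ω c : ℂ) (a₀ : ℝ) (a : Fin r → ℝ) (x v : Fin (2 * r + 1) → ℝ) (h0 : x 0 ≠ 0)
    (h : ∀ j, 0 < (e j * Zc 0 j x).re) :
    HasDerivAt (fun t : ℝ => G e ω c a₀ a (x + t • v))
      (ω * (a₀ * (v 0 / x 0) + ∑ j, a j * (Zc 0 j v / Zc 0 j x))).re 0 := by
  have h1 := (log_line x v h0).const_mul (a₀ : ℂ)
  have h2 : HasDerivAt (fun t : ℝ => ∑ j, (a j : ℂ) * Lg (e j) (Zc 0 j (x + t • v)))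
      (∑ j, a j * (Zc 0 j v / Zc 0 j x)) 0 :=
    HasDerivAt.fun_sum fun j _ => (Lg_line (e j) 0 j x v (h j)).const_mul (a j : ℂ)
  have h3 := re_deriv ((h1.const_add c).add h2) ω
  exact h3

lemma H_line (ω : ℂ) (c : Fin r → ℂ) (a₀ : Fin r → ℝ) (A : Fin r → Fin r → ℝ) (i : Fin r)
    (x v : Fin (2 * r + 1) → ℝ) (h0 : x 0 ≠ 0) (h : ∀ j, 0 < (e j * Zc 0 j x).re)
    (h' : ∀ j, 0 < (e' j * Zc 1 j x).re) :
    HasDerivAt (fun t : ℝ => H e e' ω c a₀ A i (x + t • v))
      (ω * (Zc 0 i v / Zc 1 i x -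
        (a₀ i * (v 0 / x 0) + ∑ j, A i j * (Zc 0 j v / Zc 0 j x)))).re 0 := by
  have h1 := re_deriv (Lg_line (e' i) 1 i x v (h' i)) ω
  have h2 := (G_line e ω (c i) (a₀ i) (A i) x v h0 h).const_mul (-1 : ℝ)
  have h4 : (ω * (Zc 0 i v / Zc 1 i x -
        (a₀ i * (v 0 / x 0) + ∑ j, A i j * (Zc 0 j v / Zc 0 j x)))).re =
      (ω * (Zc 0 i v / Zc 1 i x)).re +
        -1 * (ω * (a₀ i * (v 0 / x 0) + ∑ j, A i j * (Zc 0 j v / Zc 0 j x))).re := by
    rw [mul_sub, Complex.sub_re]
    ring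
  rw [h4]
  exact h1.add h2

lemma jac_mulVec {n : ℕ} (F : Fin n → (Fin n → ℝ) → ℝ) (x v : Fin n → ℝ) (i : Fin n) :
    (jac F x).mulVec v i = fderiv ℝ (F i) x v := by
  have hv : v = ∑ j, v j • (Pi.single j (1 : ℝ) : Fin n → ℝ) := by
    funext k
    simp [Finset.sum_apply, Pi.single_apply]
  conv_rhs => rw [hv]
  rw [map_sum]
  simp only [map_smul, smul_eq_mul]
  unfold jac Matrix.mulVec dotProduct
  simp only [Matrix.of_apply]
  exact Finset.sum_congr rfl fun j _ => mul_comm _ _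

lemma line_eq {n : ℕ} {w : MvPolynomial (Fin n) ℝ} {D : ℕ} {g : (Fin n → ℝ) → ℝ}
    (hg : LogType w D g) {x : Fin n → ℝ} (hx : eval x w ≠ 0) (v : Fin n → ℝ) {d : ℝ}
    (h : HasDerivAt (fun t : ℝ => g (x + t • v)) d 0) : fderiv ℝ g x v = d := by
  obtain ⟨q, _, hq⟩ := hg
  have h1 := (hq x hx)
  have h2 : HasFDerivAt g (fderiv ℝ g x) x := h1.differentiableAt.hasFDerivAt
  have h3 : HasDerivAt (fun t : ℝ => g (x + t • v)) (fderiv ℝ g x v) 0 := h2.hasLineDerivAt v
  exact h3.unique h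

end Line

end Cred

open Cred in
theorem cred {r : ℕ} {V : Set ℝ} (hV : IsOpen V) (hV0 : ∀ b ∈ V, 0 < b) {z : Fin r → ℝ → ℂ}
    {e e' : Fin r → ℂ} (h : CChain r V z e e') (c : ℂ) (a₀ : ℝ) (a : Fin r → ℝ) (ω : ℂ) (δ : ℝ) :
    {b | b ∈ V ∧ (ω * clam z e c a₀ a b).re - δ = 0 ∧
      deriv (fun b => (ω * clam z e c a₀ a b).re) b ≠ 0}.encard ≤ B0 r := by
  choose c' a' A hA hrel using h.rel
  -- the system
  set F : Fin (2 * r + 1) → (Fin (2 * r + 1) → ℝ) → ℝ :=
    mk (fun x => G e ω c a₀ a x + (-δ)) (H e e' 1 c' a' A) (H e e' (-Complex.I) c' a' A) with hF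
  have hlog : ∀ i, LogType (w e e') (6 * r + 3) (F i) := by
    intro i
    rcases place i with rfl | ⟨i, rfl⟩ | ⟨i, rfl⟩
    · rw [hF, mk_zero]
      exact logType_add (logG e e' ω c a₀ a) (logType_const _ _)
    · rw [hF, mk_P]
      exact logH e e' _ _ _ _ _
    · rw [hF, mk_Q]
      exact logH e e' _ _ _ _ _
  have hkh := KH.kh (deg_w e e') (2 * r + 1) 0 Finset.univ F (by simp)
    (fun i _ => hlog i) (fun i hi => absurd (Finset.mem_univ i) hi)
  have hbd : bd (2 * r + 1) (6 * r + 1) (6 * r + 3) (2 * r + 1) 0 ≤ B0 r := by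
    refine (bd_le3 (by omega) (by omega) (by omega)).trans (le_of_eq ?_)
    rw [B0, show 3 * (2 * r + 1) + 4 = 6 * r + 7 by ring,
      show (2 * r + 1 + 1) ^ 2 = 4 * (r + 1) ^ 2 by ring]
  -- the curve
  set γ : ℝ → (Fin (2 * r + 1) → ℝ) := fun b => mk b (fun i => (z i b).re) (fun i => (z i b).im)
    with hγ
  have hγ0 : ∀ b, γ b 0 = b := fun b => by rw [hγ]; exact mk_zero _ _ _
  have hγZ : ∀ b i, Zc 0 i (γ b) = z i b := by
    intro b i
    apply Complex.ext
    · simp [Zc, hγ, mk_P]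
    · simp [Zc, hγ, mk_Q]
  have hγZ1 : ∀ b i, Zc 1 i (γ b) = z i b - 1 := by
    intro b i
    apply Complex.ext
    · simp [Zc, hγ, mk_P]
    · simp [Zc, hγ, mk_Q]
  have hinj : Function.Injective γ := by
    intro b b' hb
    rw [← hγ0 b, hb, hγ0]
  rw [← hinj.encard_image]
  refine (Set.encard_le_encard ?_).trans (hkh.trans (by exact_mod_cast hbd))
  rintro _ ⟨b, ⟨hb, hb0, hbd⟩, rfl⟩
  have hbpos := hV0 b hb
  have hx0 : γ b 0 ≠ 0 := by rw [hγ0]; exact hbpos.ne'
  have hpos : ∀ j, 0 < (e j * Zc 0 j (γ b)).re := fun j => by rw [hγZ]; exact h.pos j b hb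
  have hpos' : ∀ j, 0 < (e' j * Zc 1 j (γ b)).re := fun j => by rw [hγZ1]; exact h.pos' j b hb
  have hw : eval (γ b) (w e e') ≠ 0 := by
    rw [eval_w]
    refine mul_ne_zero hx0 (Finset.prod_ne_zero_iff.mpr fun i _ => ?_)
    have h1 : ∀ (ε Z : ℂ), 0 < (ε * Z).re → Complex.normSq Z ≠ 0 := by
      intro ε Z hε h2
      rw [Complex.normSq_eq_zero] at h2
      rw [h2] at hε
      simp at hε
    exact mul_ne_zero (mul_ne_zero (hpos i).ne' (h1 _ _ (hpos i)))
      (mul_ne_zero (hpos' i).ne' (h1 _ _ (hpos' i)))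
  have hG : ∀ (ω c : ℂ) (a₀ : ℝ) (a : Fin r → ℝ),
      G e ω c a₀ a (γ b) = (ω * clam z e c a₀ a b).re := by
    intro ω c a₀ a
    rw [G, clam, hγ0]
    congr 4
    funext j
    rw [Lg_eq (hpos j), hγZ]
  have hH : ∀ (ω : ℂ) (i : Fin r), H e e' ω c' a' A i (γ b) = 0 := by
    intro ω i
    rw [H, hG, Lg_eq (hpos' i), hγZ1, hrel i b hb, clam]
    ring
  refine ⟨hw, ?_, ?_⟩
  · intro i
    rcases place i with rfl | ⟨i, rfl⟩ | ⟨i, rfl⟩
    · rw [hF, mk_zero]
      show G e ω c a₀ a (γ b) + (-δ) = 0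
      rw [hG]
      linarith
    · rw [hF, mk_P]
      exact hH _ _
    · rw [hF, mk_Q]
      exact hH _ _
  · intro hdet
    obtain ⟨v, hv0, hv⟩ := Matrix.exists_mulVec_eq_zero_iff.mpr hdet
    have hrow : ∀ i, fderiv ℝ (F i) (γ b) v = 0 := by
      intro i
      rw [← jac_mulVec, hv]
      rfl
    -- derivatives of the functions of the chain
    have hz : ∀ i, HasDerivAt (z i) (deriv (z i) b) b := fun i =>
      (((h.smooth i).differentiableOn (by norm_num)).differentiableAt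
        (hV.mem_nhds hb)).hasDerivAt
    have hlogz : ∀ j, HasDerivAt (fun b => Complex.log (e j * z j b))
        (deriv (z j) b / z j b) b := by
      intro j
      have hp := h.pos j b hb
      have he : e j ≠ 0 := by
        intro h1
        rw [h1] at hp
        simp at hp
      have h2 := ((hz j).const_mul (e j)).clog_real (Or.inl hp)
      rwa [mul_div_mul_left _ _ he] at h2
    have hlogz' : ∀ j, HasDerivAt (fun b => Complex.log (e' j * (z j b - 1)))
        (deriv (z j) b / (z j b - 1)) b := by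
      intro j
      have hp := h.pos' j b hb
      have he : e' j ≠ 0 := by
        intro h1
        rw [h1] at hp
        simp at hp
      have h2 := (((hz j).sub_const 1).const_mul (e' j)).clog_real (Or.inl hp)
      rwa [mul_div_mul_left _ _ he] at h2
    have hclam : ∀ (c : ℂ) (a₀ : ℝ) (a : Fin r → ℝ), HasDerivAt (clam z e c a₀ a)
        (a₀ * (1 / b) + ∑ j, a j * (deriv (z j) b / z j b)) b := by
      intro c a₀ a
      have h1 : HasDerivAt (fun b : ℝ => ((Real.log b : ℝ) : ℂ)) ((1 : ℂ) / b) b := by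
        have h2 := (Real.hasDerivAt_log hbpos.ne').ofReal_comp
        rw [Complex.ofReal_inv, inv_eq_one_div] at h2
        exact h2
      exact ((h1.const_mul (a₀ : ℂ)).const_add c).add
        (HasDerivAt.fun_sum fun j _ => (hlogz j).const_mul (a j : ℂ))
    have hder : ∀ i, deriv (z i) b / (z i b - 1) =
        a' i * (1 / b) + ∑ j, A i j * (deriv (z j) b / z j b) := by
      intro i
      have h1 := hclam (c' i) (a' i) (A i)
      have h2 : (fun b => Complex.log (e' i * (z i b - 1))) =ᶠ[𝓝 b]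
          clam z e (c' i) (a' i) (A i) := by
        filter_upwards [hV.mem_nhds hb] with s hs
        exact hrel i s hs
      exact ((hlogz' i).congr_of_eventuallyEq h2.symm).unique h1
    -- the rows of the relations
    have hrel' : ∀ i, Zc 0 i v / (z i b - 1) =
        a' i * (v 0 / b) + ∑ j, A i j * (Zc 0 j v / z j b) := by
      intro i
      have h1 : ∀ ω' : ℂ, fderiv ℝ (H e e' ω' c' a' A i) (γ b) v =
          (ω' * (Zc 0 i v / (z i b - 1) -
            (a' i * (v 0 / b) + ∑ j, A i j * (Zc 0 j v / z j b)))).re := by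
        intro ω'
        have h2 := line_eq (logH e e' ω' c' a' A i) hw v
          (H_line e e' ω' c' a' A i (γ b) v hx0 hpos hpos')
        rw [h2, hγZ1, hγ0]
        simp only [hγZ]
      have h3 := hrow (P i)
      have h4 := hrow (Q i)
      rw [hF, mk_P, h1] at h3
      rw [hF, mk_Q, h1] at h4
      rw [← sub_eq_zero]
      apply Complex.ext
      · simpa using h3
      · simpa [Complex.mul_re] using h4
    have hind : ∀ n : ℕ, ∀ i : Fin r, (i : ℕ) = n → Zc 0 i v = v 0 * deriv (z i) b := by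
      intro n
      induction n using Nat.strong_induction_on with
      | _ n ih =>
        intro i hi
        have hne : z i b - 1 ≠ 0 := by
          intro h1
          have hp := h.pos' i b hb
          rw [h1] at hp
          simp at hp
        have h1 : ∑ j, (A i j : ℂ) * (Zc 0 j v / z j b) =
            v 0 * ∑ j, A i j * (deriv (z j) b / z j b) := by
          rw [Finset.mul_sum]
          refine Finset.sum_congr rfl fun j _ => ?_
          by_cases hj : i ≤ j
          · rw [hA i j hj]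
            simp
          · have hj' : (j : ℕ) < n := by
              rw [← hi]
              exact not_le.mp hj
            rw [ih j hj' j rfl]
            ring
        have h2 : Zc 0 i v / (z i b - 1) = v 0 * (deriv (z i) b / (z i b - 1)) := by
          rw [hrel' i, h1, hder i]
          ring
        rw [← mul_div_assoc] at h2
        exact (div_left_inj' hne).mp h2
    have hV' : ∀ i, Zc 0 i v = v 0 * deriv (z i) b := fun i => hind i i rfl
    -- the row of the combination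
    have hd : deriv (fun b => (ω * clam z e c a₀ a b).re) b =
        (ω * (a₀ * (1 / b) + ∑ j, a j * (deriv (z j) b / z j b))).re :=
      (re_deriv (hclam c a₀ a) ω).deriv
    have h5 := hrow 0
    rw [hF, mk_zero] at h5
    have h6 := line_eq (logType_add (logG e e' ω c a₀ a) (logType_const _ (-δ))) hw v
      ((G_line e ω c a₀ a (γ b) v hx0 hpos).add_const (-δ))
    rw [h6, hγ0] at h5
    have h7 : (ω * (a₀ * (v 0 / b) + ∑ j, a j * (Zc 0 j v / Zc 0 j (γ b)))).re =
        v 0 * (ω * (a₀ * (1 / b) + ∑ j, a j * (deriv (z j) b / z j b))).re := by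
      rw [← Complex.re_ofReal_mul]
      congr 1
      rw [mul_add, mul_add, mul_add]
      congr 1
      · ring
      · rw [Finset.mul_sum, Finset.mul_sum, Finset.mul_sum]
        refine Finset.sum_congr rfl fun j _ => ?_
        rw [hV', hγZ]
        ring
    rw [h7, ← hd] at h5
    have hv00 : v 0 = 0 := by
      rcases mul_eq_zero.mp h5 with h8 | h8
      · exact h8
      · exact absurd h8 hbd
    apply hv0
    funext j
    rcases place j with rfl | ⟨i, rfl⟩ | ⟨i, rfl⟩
    · exact hv00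
    · have h8 := congrArg Complex.re (hV' i)
      rw [hv00] at h8
      simpa [Zc] using h8
    · have h8 := congrArg Complex.im (hV' i)
      rw [hv00] at h8
      simpa [Zc] using h8

end Pool.Agent.Lib.MP_641cb6_lc.KC
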