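import Pool.Agent.Lib.MP_641cb6_lc.KC.Defs

/-!
# CREP: from products of powers to chains of logarithms
-/

set_option autoImplicit false

namespace Pool.Agent.Lib.MP_641cb6_lc.KC

open Set Topology Filter

namespace CrepAux

/-- the logarithm of `ρ ^ n * exp w` -/
theorem log_zpow_mul_exp {ρ : ℝ} (hρ : 0 < ρ) (n : ℤ) {w : ℂ} (hw : ‖w‖ < 1) :
    Complex.log ((ρ : ℂ) ^ n * Complex.exp w) = (n : ℝ) * Real.log ρ + w := by
  have h1 : ((ρ : ℂ) ^ n) = ((ρ ^ n : ℝ) : ℂ) := by push_cast; rfl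
  have him := (Complex.abs_im_le_norm w).trans_lt hw
  rw [abs_lt] at him
  have hpi := Real.pi_gt_three
  rw [h1, Complex.log_ofReal_mul (zpow_pos hρ n) (Complex.exp_ne_zero w),
    Complex.log_exp (by linarith [him.1]) (by linarith [him.2]), Real.log_zpow]
  push_cast
  rfl

theorem re_pos {ρ : ℝ} (hρ : 0 < ρ) (n : ℤ) {w : ℂ} (hw : ‖w‖ < 1) :
    0 < ((ρ : ℂ) ^ n * Complex.exp w).re := by
  have h1 : ((ρ : ℂ) ^ n) = ((ρ ^ n : ℝ) : ℂ) := by push_cast; rfl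
  have him := (Complex.abs_im_le_norm w).trans_lt hw
  rw [abs_lt] at him
  have hpi := Real.pi_gt_three
  rw [h1, Complex.re_ofReal_mul, Complex.exp_re]
  refine mul_pos (zpow_pos hρ n) (mul_pos (Real.exp_pos _) (Real.cos_pos_of_mem_Ioo ⟨?_, ?_⟩))
  · linarith [him.1]
  · linarith [him.2]

theorem prod_rep {k : ℕ} {V : Set ℝ} {alive : ℕ → Prop} {F ℓ : ℕ → ℝ → ℂ} {C : ℕ → ℂ} {ν : ℕ → ℕ}
    (hrep : ∀ j < k, alive j → ∀ ρ ∈ V, F j ρ = C j * (ρ : ℂ) ^ ν j * Complex.exp (ℓ j ρ))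
    {j : ℕ} (hj : j ≤ k) {β : ℕ → ℕ} (hβ : ∀ i < j, β i ≠ 0 → alive i) {ρ : ℝ} (hρ : ρ ∈ V) :
    ∏ i ∈ Finset.range j, F i ρ ^ β i = (∏ i ∈ Finset.range j, C i ^ β i) *
      (ρ : ℂ) ^ (∑ i ∈ Finset.range j, ν i * β i) *
      Complex.exp (∑ i ∈ Finset.range j, (β i : ℂ) * ℓ i ρ) := by
  rw [← Finset.prod_pow_eq_pow_sum, Complex.exp_sum, ← Finset.prod_mul_distrib,
    ← Finset.prod_mul_distrib]
  refine Finset.prod_congr rfl fun i hi => ?_
  have hi' := Finset.mem_range.1 hi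
  by_cases h : β i = 0
  · simp [h]
  · rw [hrep i (hi'.trans_le hj) (hβ i hi' h) ρ hρ, mul_pow, mul_pow, Complex.exp_nat_mul, pow_mul]

/-- functions that are real affine combinations of `log b` and `log (e i * z i)`, `i < m` -/
def Rep {r : ℕ} (V : Set ℝ) (z : Fin r → ℝ → ℂ) (e : Fin r → ℂ) (m : ℕ) (g : ℝ → ℂ) : Prop :=
  ∃ (c : ℂ) (a₀ : ℝ) (a : Fin r → ℝ), (∀ i : Fin r, m ≤ i.val → a i = 0) ∧
    ∀ b ∈ V, g b = clam z e c a₀ a b

section Rep

variable {r : ℕ} {V : Set ℝ} {z : Fin r → ℝ → ℂ} {e : Fin r → ℂ} {m : ℕ}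

theorem Rep.congr {g g' : ℝ → ℂ} (h : Rep V z e m g) (hg : ∀ b ∈ V, g' b = g b) :
    Rep V z e m g' := by
  obtain ⟨c, a₀, a, h1, h2⟩ := h
  exact ⟨c, a₀, a, h1, fun b hb => (hg b hb).trans (h2 b hb)⟩

theorem Rep.mono {m' : ℕ} (hm : m ≤ m') {g : ℝ → ℂ} (h : Rep V z e m g) : Rep V z e m' g := by
  obtain ⟨c, a₀, a, h1, h2⟩ := h
  exact ⟨c, a₀, a, fun i hi => h1 i (hm.trans hi), h2⟩

theorem Rep.const (c : ℂ) : Rep V z e m fun _ => c :=
  ⟨c, 0, 0, fun _ _ => rfl, fun b _ => by simp [clam]⟩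

theorem Rep.log : Rep V z e m fun b => (Real.log b : ℂ) :=
  ⟨0, 1, 0, fun _ _ => rfl, fun b _ => by simp [clam]⟩

theorem Rep.logz (i : Fin r) (hi : i.val < m) :
    Rep V z e m fun b => Complex.log (e i * z i b) := by
  classical
  refine ⟨0, 0, Pi.single i 1, fun j hj => ?_, fun b _ => ?_⟩
  · rw [Pi.single_apply, if_neg]
    rintro rfl
    omega
  · simp only [clam, Pi.single_apply]
    simp [Finset.sum_ite_eq', apply_ite (fun x : ℝ => (x : ℂ)), ite_mul]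

theorem Rep.add {g g' : ℝ → ℂ} (h : Rep V z e m g) (h' : Rep V z e m g') :
    Rep V z e m fun b => g b + g' b := by
  obtain ⟨c, a₀, a, h1, h2⟩ := h
  obtain ⟨c', a₀', a', h1', h2'⟩ := h'
  refine ⟨c + c', a₀ + a₀', a + a', fun i hi => ?_, fun b hb => ?_⟩
  · simp [h1 i hi, h1' i hi]
  · change g b + g' b = _
    rw [h2 b hb, h2' b hb]
    simp only [clam, Pi.add_apply]
    push_cast
    simp only [add_mul, Finset.sum_add_distrib]
    ring

theorem Rep.smul {g : ℝ → ℂ} (x : ℝ) (h : Rep V z e m g) :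
    Rep V z e m fun b => (x : ℂ) * g b := by
  obtain ⟨c, a₀, a, h1, h2⟩ := h
  refine ⟨x * c, x * a₀, fun i => x * a i, fun i hi => ?_, fun b hb => ?_⟩
  · simp [h1 i hi]
  · change (x : ℂ) * g b = _
    rw [h2 b hb]
    simp only [clam]
    push_cast
    rw [mul_add, mul_add, Finset.mul_sum]
    simp only [mul_assoc]

theorem Rep.sum {ι : Type} (s : Finset ι) {g : ι → ℝ → ℂ} (h : ∀ i ∈ s, Rep V z e m (g i)) :
    Rep V z e m fun b => ∑ i ∈ s, g i b := by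
  classical
  induction s using Finset.induction_on with
  | empty => simpa using Rep.const (V := V) (z := z) (e := e) (m := m) 0
  | insert a s ha ih =>
    have h1 := (h a (Finset.mem_insert_self a s)).add
      (ih fun i hi => h i (Finset.mem_insert_of_mem hi))
    refine h1.congr fun b _ => ?_
    rw [Finset.sum_insert ha]

end Rep

end CrepAux

open CrepAux

theorem crep {k : ℕ} {V : Set ℝ} (hV0 : ∀ ρ ∈ V, 0 < ρ) {alive : ℕ → Prop}
    {F ℓ : ℕ → ℝ → ℂ} {C : ℕ → ℂ} {ν : ℕ → ℕ} {η : ℝ}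
    (hF : ∀ j < k, ContDiffOn ℝ 1 (F j) V) (hC : ∀ j < k, alive j → C j ≠ 0)
    (hrep : ∀ j < k, alive j → ∀ ρ ∈ V,
      F j ρ = C j * (ρ : ℂ) ^ ν j * Complex.exp (ℓ j ρ))
    (hsmall : ∀ j < k, alive j → ∀ ρ ∈ V, ‖ℓ j ρ‖ ≤ η) (h0 : ∀ ρ ∈ V, ℓ 0 ρ = 0)
    (hch : ∀ j, 1 ≤ j → j < k → alive j → ∃ (K K' : ℂ) (α α' : ℕ → ℕ), K ≠ 0 ∧
      (∀ i < j, α i ≠ 0 → alive i) ∧ (K' ≠ 0 → ∀ i < j, α' i ≠ 0 → alive i) ∧
      (∀ ρ ∈ V, F j ρ = K * ∏ i ∈ Finset.range j, F i ρ ^ α i +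
        K' * ∏ i ∈ Finset.range j, F i ρ ^ α' i) ∧
      (1 + ∑ i ∈ Finset.range j, ((α i : ℝ) + α' i)) * η < 1) :
    ∃ (z : Fin (k - 1) → ℝ → ℂ) (e e' : Fin (k - 1) → ℂ), CChain (k - 1) V z e e' ∧
      ∀ γ : ℕ → ℝ, (∀ j < k, γ j ≠ 0 → alive j) →
        ∃ (c : ℂ) (a₀ : ℝ) (a : Fin (k - 1) → ℝ), ∀ ρ ∈ V,
          ∑ j ∈ Finset.range k, (γ j : ℂ) * ℓ j ρ = clam z e c a₀ a ρ := by
  classical
  choose! K K' α α' hK hα hα' hFj hη using hch
  -- the constants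
  set A : ℕ → ℂ := fun j => K j * ∏ i ∈ Finset.range j, C i ^ α j i with hAdef
  set A' : ℕ → ℂ := fun j => K' j * ∏ i ∈ Finset.range j, C i ^ α' j i with hA'def
  set N : ℕ → ℕ := fun j => ∑ i ∈ Finset.range j, ν i * α j i with hN
  set N' : ℕ → ℕ := fun j => ∑ i ∈ Finset.range j, ν i * α' j i with hN'
  have hA0 : ∀ j, 1 ≤ j → j < k → alive j → A j ≠ 0 := by
    intro j h1 h2 h3
    refine mul_ne_zero (hK j h1 h2 h3) (Finset.prod_ne_zero_iff.2 fun i hi => ?_)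
    have hi' := Finset.mem_range.1 hi
    by_cases h : α j i = 0
    · simp [h]
    · exact pow_ne_zero _ (hC i (hi'.trans h2) (hα j h1 h2 h3 i hi' h))
  have hA'0 : ∀ j, 1 ≤ j → j < k → alive j → K' j ≠ 0 → A' j ≠ 0 := by
    intro j h1 h2 h3 h4
    refine mul_ne_zero h4 (Finset.prod_ne_zero_iff.2 fun i hi => ?_)
    have hi' := Finset.mem_range.1 hi
    by_cases h : α' j i = 0
    · simp [h]
    · exact pow_ne_zero _ (hC i (hi'.trans h2) (hα' j h1 h2 h3 h4 i hi' h))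
  -- the exponents
  set w : ℕ → ℝ → ℂ := fun j ρ => ℓ j ρ - ∑ i ∈ Finset.range j, (α j i : ℂ) * ℓ i ρ with hw
  set w' : ℕ → ℝ → ℂ := fun j ρ => ∑ i ∈ Finset.range j, (α' j i : ℂ) * ℓ i ρ -
    ∑ i ∈ Finset.range j, (α j i : ℂ) * ℓ i ρ with hw'
  have hbd : ∀ (j : ℕ) (β : ℕ → ℕ) (ρ : ℝ), ρ ∈ V → j < k → (∀ i < j, β i ≠ 0 → alive i) →
      ‖∑ i ∈ Finset.range j, (β i : ℂ) * ℓ i ρ‖ ≤ (∑ i ∈ Finset.range j, (β i : ℝ)) * η := by
    intro j β ρ hρ hj hβ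
    rw [Finset.sum_mul]
    refine (norm_sum_le _ _).trans (Finset.sum_le_sum fun i hi => ?_)
    have hi' := Finset.mem_range.1 hi
    by_cases h : β i = 0
    · simp [h]
    · rw [norm_mul, Complex.norm_natCast]
      exact mul_le_mul_of_nonneg_left (hsmall i (hi'.trans hj) (hβ i hi' h) ρ hρ)
        (Nat.cast_nonneg _)
  have hwlt : ∀ j, 1 ≤ j → j < k → alive j → ∀ ρ ∈ V, ‖w j ρ‖ < 1 := by
    intro j h1 h2 h3 ρ hρ
    have hη0 : 0 ≤ η := (norm_nonneg _).trans (hsmall j h2 h3 ρ hρ)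
    have e1 := hbd j (α j) ρ hρ h2 (hα j h1 h2 h3)
    have e2 := hη j h1 h2 h3
    rw [Finset.sum_add_distrib] at e2
    have e3 : 0 ≤ (∑ i ∈ Finset.range j, (α' j i : ℝ)) * η := by positivity
    calc ‖w j ρ‖ ≤ ‖ℓ j ρ‖ + ‖∑ i ∈ Finset.range j, (α j i : ℂ) * ℓ i ρ‖ := norm_sub_le _ _
      _ ≤ η + (∑ i ∈ Finset.range j, (α j i : ℝ)) * η := add_le_add (hsmall j h2 h3 ρ hρ) e1
      _ < 1 := by nlinarith
  have hw'lt : ∀ j, 1 ≤ j → j < k → alive j → K' j ≠ 0 → ∀ ρ ∈ V, ‖w' j ρ‖ < 1 := by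
    intro j h1 h2 h3 h4 ρ hρ
    have hη0 : 0 ≤ η := (norm_nonneg _).trans (hsmall j h2 h3 ρ hρ)
    have e1 := hbd j (α j) ρ hρ h2 (hα j h1 h2 h3)
    have e1' := hbd j (α' j) ρ hρ h2 (hα' j h1 h2 h3 h4)
    have e2 := hη j h1 h2 h3
    rw [Finset.sum_add_distrib] at e2
    calc ‖w' j ρ‖ ≤ ‖∑ i ∈ Finset.range j, (α' j i : ℂ) * ℓ i ρ‖ +
          ‖∑ i ∈ Finset.range j, (α j i : ℂ) * ℓ i ρ‖ := norm_sub_le _ _
      _ ≤ (∑ i ∈ Finset.range j, (α' j i : ℝ)) * η + (∑ i ∈ Finset.range j, (α j i : ℝ)) * η :=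
        add_le_add e1' e1
      _ < 1 := by nlinarith
  -- the first monomial
  have hmon : ∀ j, 1 ≤ j → j < k → alive j → ∀ ρ ∈ V,
      K j * ∏ i ∈ Finset.range j, F i ρ ^ α j i =
        A j * (ρ : ℂ) ^ N j * Complex.exp (∑ i ∈ Finset.range j, (α j i : ℂ) * ℓ i ρ) := by
    intro j h1 h2 h3 ρ hρ
    rw [prod_rep hrep h2.le (hα j h1 h2 h3) hρ]
    simp only [hAdef, hN]
    ring
  have hmon' : ∀ j, 1 ≤ j → j < k → alive j → K' j ≠ 0 → ∀ ρ ∈ V,
      K' j * ∏ i ∈ Finset.range j, F i ρ ^ α' j i =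
        A' j * (ρ : ℂ) ^ N' j * Complex.exp (∑ i ∈ Finset.range j, (α' j i : ℂ) * ℓ i ρ) := by
    intro j h1 h2 h3 h4 ρ hρ
    rw [prod_rep hrep h2.le (hα' j h1 h2 h3 h4) hρ]
    simp only [hA'def, hN']
    ring
  -- the functions
  set good : ℕ → Prop := fun j => alive j ∧ K' j ≠ 0 with hgood
  set z : Fin (k - 1) → ℝ → ℂ := fun i ρ => if good (i + 1) then
    F (i + 1) ρ / (K (i + 1) * ∏ i' ∈ Finset.range (i + 1), F i' ρ ^ α (i + 1) i') else 2 with hz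
  set e : Fin (k - 1) → ℂ := fun i => if good (i + 1) then A (i + 1) / C (i + 1) else 1 with he
  set e' : Fin (k - 1) → ℂ := fun i => if good (i + 1) then A (i + 1) / A' (i + 1) else 1 with he'
  have hz1 : ∀ i : Fin (k - 1), good (i + 1) → ∀ ρ ∈ V, e i * z i ρ =
      (ρ : ℂ) ^ ((ν (i + 1) : ℤ) - N (i + 1)) * Complex.exp (w (i + 1) ρ) := by
    intro i hg ρ hρ
    have h2 : (i : ℕ) + 1 < k := by omega
    have h1 : 1 ≤ (i : ℕ) + 1 := by omega
    have hρ0 : (ρ : ℂ) ≠ 0 := by exact_mod_cast (hV0 ρ hρ).ne'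
    simp only [hz, he, if_pos hg, hw]
    rw [hmon _ h1 h2 hg.1 ρ hρ, hrep _ h2 hg.1 ρ hρ, zpow_sub₀ hρ0, zpow_natCast, zpow_natCast,
      Complex.exp_sub]
    have a1 := hA0 _ h1 h2 hg.1
    have a2 := hC _ h2 hg.1
    have a3 := Complex.exp_ne_zero (∑ i' ∈ Finset.range ((i : ℕ) + 1), (α (i + 1) i' : ℂ) * ℓ i' ρ)
    have a4 : (ρ : ℂ) ^ N (i + 1) ≠ 0 := pow_ne_zero _ hρ0
    field_simp
  have hz2 : ∀ i : Fin (k - 1), good (i + 1) → ∀ ρ ∈ V, e' i * (z i ρ - 1) =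
      (ρ : ℂ) ^ ((N' (i + 1) : ℤ) - N (i + 1)) * Complex.exp (w' (i + 1) ρ) := by
    intro i hg ρ hρ
    have h2 : (i : ℕ) + 1 < k := by omega
    have h1 : 1 ≤ (i : ℕ) + 1 := by omega
    have hρ0 : (ρ : ℂ) ≠ 0 := by exact_mod_cast (hV0 ρ hρ).ne'
    simp only [hz, he', if_pos hg, hw']
    have a1 := hA0 _ h1 h2 hg.1
    have a2 := hA'0 _ h1 h2 hg.1 hg.2
    have a3 := Complex.exp_ne_zero (∑ i' ∈ Finset.range ((i : ℕ) + 1), (α (i + 1) i' : ℂ) * ℓ i' ρ)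
    have a4 : (ρ : ℂ) ^ N (i + 1) ≠ 0 := pow_ne_zero _ hρ0
    rw [hFj _ h1 h2 hg.1 ρ hρ, hmon _ h1 h2 hg.1 ρ hρ, hmon' _ h1 h2 hg.1 hg.2 ρ hρ,
      zpow_sub₀ hρ0, zpow_natCast, zpow_natCast, Complex.exp_sub]
    field_simp
    ring
  have hlog : ∀ j, (hj1 : 1 ≤ j) → (hj : j < k) → alive j → K' j ≠ 0 → ∀ ρ ∈ V,
      Complex.log (e ⟨j - 1, by omega⟩ * z ⟨j - 1, by omega⟩ ρ) =
        (((ν j : ℤ) - N j : ℤ) : ℝ) * Real.log ρ + w j ρ := by
    intro j h1 h2 h3 h4 ρ hρ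
    obtain ⟨i, rfl⟩ : ∃ i, j = i + 1 := ⟨j - 1, by omega⟩
    have := hz1 ⟨i, by omega⟩ ⟨h3, h4⟩ ρ hρ
    simp only [Nat.add_sub_cancel]
    rw [this]
    exact log_zpow_mul_exp (hV0 ρ hρ) _ (hwlt _ h1 h2 h3 ρ hρ)
  -- all logarithms are combinations
  have hR : ∀ j, j < k → alive j → Rep V z e j (ℓ j) := by
    intro j
    induction j using Nat.strong_induction_on with
    | _ j ih =>
    intro hj ha
    rcases Nat.eq_zero_or_pos j with rfl | hj1
    · exact (Rep.const 0).congr fun b hb => by rw [h0 b hb]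
    have hsum : Rep V z e j fun ρ => ∑ i ∈ Finset.range j, (α j i : ℂ) * ℓ i ρ := by
      refine Rep.sum _ fun i hi => ?_
      have hi' := Finset.mem_range.1 hi
      by_cases h : α j i = 0
      · exact (Rep.const 0).congr fun b _ => by simp [h]
      · have h1 := ((ih i hi' (hi'.trans hj) (hα j hj1 hj ha i hi' h)).mono hi'.le).smul
          (α j i : ℝ)
        exact h1.congr fun b _ => by push_cast; rfl
    by_cases hK' : K' j = 0
    · -- one monomial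
      have hkey : ∀ ρ ∈ V, w j ρ = Complex.log (A j / C j) +
          (((N j : ℤ) - ν j : ℤ) : ℝ) * Real.log ρ := by
        intro ρ hρ
        have hρ0 : (ρ : ℂ) ≠ 0 := by exact_mod_cast (hV0 ρ hρ).ne'
        have a1 := hA0 _ hj1 hj ha
        have a2 := hC _ hj ha
        have e1 := hFj j hj1 hj ha ρ hρ
        rw [hK', zero_mul, add_zero, hmon j hj1 hj ha ρ hρ, hrep j hj ha ρ hρ] at e1
        have e2 : Complex.exp (w j ρ) =
            (((ρ ^ ((N j : ℤ) - ν j) : ℝ)) : ℂ) * (A j / C j) := by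
          simp only [hw]
          push_cast
          rw [Complex.exp_sub, zpow_sub₀ hρ0, zpow_natCast, zpow_natCast]
          have a3 := Complex.exp_ne_zero (∑ i ∈ Finset.range j, (α j i : ℂ) * ℓ i ρ)
          have a4 : (ρ : ℂ) ^ ν j ≠ 0 := pow_ne_zero _ hρ0
          field_simp
          linear_combination e1
        have hlt := hwlt j hj1 hj ha ρ hρ
        have him := (Complex.abs_im_le_norm (w j ρ)).trans_lt hlt
        rw [abs_lt] at him
        have hpi := Real.pi_gt_three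
        have e3 := Complex.log_exp (x := w j ρ) (by linarith [him.1]) (by linarith [him.2])
        rw [e2, Complex.log_ofReal_mul (zpow_pos (hV0 ρ hρ) _) (div_ne_zero a1 a2),
          Real.log_zpow] at e3
        rw [← e3]
        push_cast
        ring
      have h1 : Rep V z e j (w j) :=
        ((Rep.const (Complex.log (A j / C j))).add
          (Rep.log.smul (((N j : ℤ) - ν j : ℤ) : ℝ))).congr fun b hb => hkey b hb
      exact (h1.add hsum).congr fun b _ => by simp only [hw]; ring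
    · have h1 : Rep V z e j (w j) := by
        have h2 := (Rep.logz (V := V) (z := z) (e := e) (m := j) ⟨j - 1, by omega⟩
          (by simp only; omega)).add (Rep.log.smul (-(((ν j : ℤ) - N j : ℤ) : ℝ)))
        refine h2.congr fun b hb => ?_
        rw [hlog j hj1 hj ha hK' b hb]
        push_cast
        ring
      exact (h1.add hsum).congr fun b _ => by simp only [hw]; ring
  refine ⟨z, e, e', ⟨?_, ?_, ?_, ?_⟩, ?_⟩
  · -- smoothness
    intro i
    by_cases hg : good (i + 1)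
    · have h2 : (i : ℕ) + 1 < k := by omega
      have h1 : 1 ≤ (i : ℕ) + 1 := by omega
      have e1 : z i = fun ρ => F (i + 1) ρ *
          (K (i + 1) * ∏ i' ∈ Finset.range (i + 1), F i' ρ ^ α (i + 1) i')⁻¹ := by
        funext ρ
        simp only [hz, if_pos hg, div_eq_mul_inv]
      rw [e1]
      refine (hF _ h2).mul (ContDiffOn.inv (contDiffOn_const.mul ?_) fun ρ hρ => ?_)
      · exact contDiffOn_prod fun i' hi' => (hF i' ((Finset.mem_range.1 hi').trans h2)).pow _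
      · rw [hmon _ h1 h2 hg.1 ρ hρ]
        have hρ0 : (ρ : ℂ) ≠ 0 := by exact_mod_cast (hV0 ρ hρ).ne'
        exact mul_ne_zero (mul_ne_zero (hA0 _ h1 h2 hg.1) (pow_ne_zero _ hρ0))
          (Complex.exp_ne_zero _)
    · have e1 : z i = fun _ => 2 := by
        funext ρ
        simp only [hz, if_neg hg]
      rw [e1]
      exact contDiffOn_const
  · intro i ρ hρ
    by_cases hg : good (i + 1)
    · rw [hz1 i hg ρ hρ]
      exact re_pos (hV0 ρ hρ) _ (hwlt _ (by omega) (by omega) hg.1 ρ hρ)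
    · simp only [hz, he, if_neg hg]
      norm_num
  · intro i ρ hρ
    by_cases hg : good (i + 1)
    · rw [hz2 i hg ρ hρ]
      exact re_pos (hV0 ρ hρ) _ (hw'lt _ (by omega) (by omega) hg.1 hg.2 ρ hρ)
    · simp only [hz, he', if_neg hg]
      norm_num
  · intro i
    have hrel : Rep V z e i fun ρ => Complex.log (e' i * (z i ρ - 1)) := by
      by_cases hg : good (i + 1)
      · have h2 : (i : ℕ) + 1 < k := by omega
        have h1 : 1 ≤ (i : ℕ) + 1 := by omega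
        have hs : ∀ β : ℕ → ℕ, (∀ i' < (i : ℕ) + 1, β i' ≠ 0 → alive i') →
            Rep V z e i fun ρ => ∑ i' ∈ Finset.range ((i : ℕ) + 1), (β i' : ℂ) * ℓ i' ρ := by
          intro β hβ
          refine Rep.sum _ fun i' hi => ?_
          have hi' := Finset.mem_range.1 hi
          by_cases h : β i' = 0
          · exact (Rep.const 0).congr fun b _ => by simp [h]
          · have h3 := ((hR i' (hi'.trans h2) (hβ i' hi' h)).mono
              (Nat.lt_succ_iff.1 hi')).smul (β i' : ℝ)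
            exact h3.congr fun b _ => by push_cast; rfl
        have h4 := (hs _ (hα' _ h1 h2 hg.1 hg.2)).add ((hs _ (hα _ h1 h2 hg.1)).smul (-1))
        have h5 := h4.add (Rep.log.smul (((N' (i + 1) : ℤ) - N (i + 1) : ℤ) : ℝ))
        refine h5.congr fun b hb => ?_
        rw [hz2 i hg b hb, log_zpow_mul_exp (hV0 b hb) _ (hw'lt _ h1 h2 hg.1 hg.2 b hb)]
        simp only [hw']
        push_cast
        ring
      · refine (Rep.const 0).congr fun b _ => ?_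
        simp only [hz, he', if_neg hg]
        norm_num
    obtain ⟨c, a₀, a, h1, h2⟩ := hrel
    exact ⟨c, a₀, a, fun j hj => h1 j hj, fun b hb => h2 b hb⟩
  · intro γ hγ
    have h1 : Rep V z e (k - 1) fun ρ => ∑ j ∈ Finset.range k, (γ j : ℂ) * ℓ j ρ := by
      refine Rep.sum _ fun j hj => ?_
      have hj' := Finset.mem_range.1 hj
      by_cases h : γ j = 0
      · exact (Rep.const 0).congr fun b _ => by simp [h]
      · exact ((hR j hj' (hγ j hj' h)).mono (by omega)).smul (γ j)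
    obtain ⟨c, a₀, a, -, h2⟩ := h1
    exact ⟨c, a₀, a, h2⟩

end Pool.Agent.Lib.MP_641cb6_lc.KC
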