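import Mathlib

/-!
# Definitions for the bound on Newton polygons of complex chains

Polynomials in `b` and `R`; the dominating monomial when `b` is of the size of `R ^ τ`; chains with
complex coefficients.
-/

set_option autoImplicit false

namespace Pool.Agent.Lib.MP_641cb6_lc.KC

/-- polynomials in `b` whose coefficients are polynomials in `R` -/
abbrev P2 : Type := Polynomial (Polynomial ℂ)

/-- the coefficient of `b ^ m.1 * R ^ m.2` -/
noncomputable def cf (f : P2) (m : ℕ × ℕ) : ℂ := (f.coeff m.1).coeff m.2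

/-- the exponent of `R` in the size of `b ^ m.1 * R ^ m.2` when `b` has the size of `R ^ τ` -/
noncomputable def wt (τ : ℝ) (m : ℕ × ℕ) : ℝ := m.2 + τ * m.1

/-- `m` is the dominating monomial of `f` when `b` has the size of `R ^ τ` -/
def Dom (f : P2) (τ : ℝ) (m : ℕ × ℕ) : Prop :=
  cf f m ≠ 0 ∧ ∀ m', cf f m' ≠ 0 → m' ≠ m → wt τ m' < wt τ m

/-- the value of `f` at `R`, `b` -/
noncomputable def val2 (f : P2) (R b : ℂ) : ℂ := f.eval₂ (Polynomial.evalRingHom R) b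

/-- a product of powers of `φ 0, ..., φ (l - 1)` with a factor from `ℂ[R]` -/
noncomputable def mon (φ : ℕ → P2) (l : ℕ) (K : Polynomial ℂ) (α : ℕ → ℕ) : P2 :=
  Polynomial.C K * ∏ j ∈ Finset.range l, φ j ^ α j

/-- `φ 0 = b` and each of `φ 1, ..., φ s` is a sum of two products of powers of the earlier ones,
with factors from `ℂ[R]` -/
def IsCChain (φ : ℕ → P2) (s : ℕ) : Prop :=
  φ 0 = Polynomial.X ∧ ∀ l, 1 ≤ l → l ≤ s → ∃ (K K' : Polynomial ℂ) (α α' : ℕ → ℕ),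
    φ l = mon φ l K α + mon φ l K' α'

/-- `z 0, ..., z (r - 1)` are complex functions on `V`; `log (z i - 1)` is a real affine combination
of `log b` and `log (z j)`, `j < i`. The factors `e i`, `e' i` turn the values into the right half
plane. -/
structure CChain (r : ℕ) (V : Set ℝ) (z : Fin r → ℝ → ℂ) (e e' : Fin r → ℂ) : Prop where
  smooth : ∀ i, ContDiffOn ℝ 1 (z i) V
  pos : ∀ i, ∀ b ∈ V, 0 < (e i * z i b).re
  pos' : ∀ i, ∀ b ∈ V, 0 < (e' i * (z i b - 1)).re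
  rel : ∀ i, ∃ (C : ℂ) (A₀ : ℝ) (A : Fin r → ℝ), (∀ j, i ≤ j → A j = 0) ∧ ∀ b ∈ V,
    Complex.log (e' i * (z i b - 1)) =
      C + A₀ * Real.log b + ∑ j, A j * Complex.log (e j * z j b)

/-- real affine combinations of `log b` and `log (z j)` -/
noncomputable def clam {r : ℕ} (z : Fin r → ℝ → ℂ) (e : Fin r → ℂ) (c : ℂ) (a₀ : ℝ)
    (a : Fin r → ℝ) (b : ℝ) : ℂ :=
  c + a₀ * Real.log b + ∑ j, a j * Complex.log (e j * z j b)

/-- the bound for the number of zeros -/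
def B0 (r : ℕ) : ℕ := (6 * r + 7) ^ (4 * (r + 1) ^ 2)

/-- `φ j` divided by its dominating monomial -/
noncomputable def rat (φ : ℕ → P2) (μ : ℕ → ℕ × ℕ) (j : ℕ) (R : ℝ) (u : ℂ) (ρ : ℝ) : ℂ :=
  val2 (φ j) R (ρ * u) / (cf (φ j) (μ j) * R ^ (μ j).2 * (ρ * u) ^ (μ j).1)

/-- `K` divided by its leading term -/
noncomputable def ratK (K : Polynomial ℂ) (R : ℝ) : ℂ :=
  K.eval (R : ℂ) / (K.leadingCoeff * R ^ K.natDegree)

/-- the logarithm of the quotient of two monomials whose dominating monomials cancel -/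
noncomputable def Lf (φ : ℕ → P2) (μ : ℕ → ℕ × ℕ) (k : ℕ) (K K' : Polynomial ℂ) (α α' : ℕ → ℕ)
    (R : ℝ) (u : ℂ) (ρ : ℝ) : ℂ :=
  (Complex.log (ratK K' R) - Complex.log (ratK K R)) +
    ∑ j ∈ Finset.range k, (((α' j : ℝ) - α j : ℝ) : ℂ) * Complex.log (rat φ μ j R u ρ)

/-- the exponents of the dominating monomial of `mon φ k K α` -/
def exps (μ : ℕ → ℕ × ℕ) (k : ℕ) (K : Polynomial ℂ) (α : ℕ → ℕ) : ℕ × ℕ :=
  (0, K.natDegree) + ∑ j ∈ Finset.range k, α j • μ j

/-- the coefficient of the dominating monomial of `mon φ k K α` -/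
noncomputable def coef (φ : ℕ → P2) (μ : ℕ → ℕ × ℕ) (k : ℕ) (K : Polynomial ℂ) (α : ℕ → ℕ) : ℂ :=
  K.leadingCoeff * ∏ j ∈ Finset.range k, cf (φ j) (μ j) ^ α j

/-- the substitution `a i = c i * R ^ q i` -/
noncomputable def sp {n : ℕ} (c : Fin n → ℂ) (q : Fin n → ℕ) :
    MvPolynomial (Fin n) ℂ →+* Polynomial ℂ :=
  MvPolynomial.eval₂Hom Polynomial.C fun i => Polynomial.C (c i) * Polynomial.X ^ q i

end Pool.Agent.Lib.MP_641cb6_lc.KC
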