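import Pool.Agent.Lib.MP_641cb6_lc.KC.Defs
import Pool.Agent.Lib.MP_641cb6_lc.KH.Defs
import Pool.Agent.Lib.MP_641cb6_lc.KH.Fam
import Pool.Agent.Lib.MP_641cb6_lc.KC.Tpol
import Pool.Agent.Lib.MP_641cb6_lc.KC.Asy
import Pool.Agent.Lib.MP_641cb6_lc.KC.Doma

/-!
# DLIM: the size of the logarithm
-/

set_option autoImplicit false

namespace Pool.Agent.Lib.MP_641cb6_lc.KC

open Set Topology Filter

namespace DlimAux


theorem val2_mon (φ : ℕ → P2) (l : ℕ) (K : Polynomial ℂ) (α : ℕ → ℕ) (R b : ℂ) :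
    val2 (mon φ l K α) R b = K.eval R * ∏ j ∈ Finset.range l, val2 (φ j) R b ^ α j := by
  unfold val2 mon
  rw [Polynomial.eval₂_mul, Polynomial.eval₂_C, Polynomial.eval₂_finsetProd]
  simp [Polynomial.eval₂_pow]

theorem ratK_tendsto {K : Polynomial ℂ} (hK : K ≠ 0) :
    Tendsto (fun R : ℝ => ratK K R) atTop (𝓝 1) := by
  rw [Metric.tendsto_nhds]
  intro ε hε
  filter_upwards [asyK hK (half_pos hε)] with R hR
  rw [dist_eq_norm]
  linarith

theorem asy_tendsto {f : P2} {τ : ℝ} {m : ℕ × ℕ} (h : Dom f τ m) {u : ℂ} (hu : ‖u‖ = 1) :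
    Tendsto (fun R : ℝ => val2 f R (((R ^ τ : ℝ) : ℂ) * u) /
      (cf f m * (R : ℂ) ^ m.2 * (((R ^ τ : ℝ) : ℂ) * u) ^ m.1)) atTop (𝓝 1) := by
  rw [Metric.tendsto_nhds]
  intro ε hε
  filter_upwards [asy le_rfl h h (half_pos hε)] with R hR
  have := hR (R ^ τ) ⟨le_rfl, le_rfl⟩ u hu
  rw [dist_eq_norm]
  linarith

theorem mon_ratio (φ : ℕ → P2) (μ : ℕ → ℕ × ℕ) (k : ℕ) (K : Polynomial ℂ) (α : ℕ → ℕ)
    (R : ℝ) (u : ℂ) (ρ : ℝ) :
    val2 (mon φ k K α) R (ρ * u) /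
      (coef φ μ k K α * (R : ℂ) ^ (exps μ k K α).2 * (ρ * u) ^ (exps μ k K α).1) =
      ratK K R * ∏ j ∈ Finset.range k, rat φ μ j R u ρ ^ α j := by
  have h2 : (exps μ k K α).2 = K.natDegree + ∑ j ∈ Finset.range k, (μ j).2 * α j := by
    simp [exps, Prod.snd_sum, mul_comm]
  have h1 : (exps μ k K α).1 = ∑ j ∈ Finset.range k, (μ j).1 * α j := by
    simp [exps, Prod.fst_sum, mul_comm]
  rw [val2_mon, h1, h2, pow_add, ← Finset.prod_pow_eq_pow_sum, ← Finset.prod_pow_eq_pow_sum]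
  unfold coef ratK rat
  simp only [div_pow, mul_pow, Finset.prod_div_distrib, Finset.prod_mul_distrib, pow_mul]
  rw [div_mul_div_comm]
  congr 1
  ring

/-- `exp` of the logarithm -/
theorem exp_Lf {φ : ℕ → P2} {μ : ℕ → ℕ × ℕ} {k : ℕ} {K K' : Polynomial ℂ} {α α' : ℕ → ℕ}
    {R : ℝ} {u : ℂ} {ρ : ℝ} (h1 : ratK K R ≠ 0) (h2 : ratK K' R ≠ 0)
    (h3 : ∀ j < k, α j ≠ 0 ∨ α' j ≠ 0 → rat φ μ j R u ρ ≠ 0) :
    Complex.exp (Lf φ μ k K K' α α' R u ρ) =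
      (ratK K' R * ∏ j ∈ Finset.range k, rat φ μ j R u ρ ^ α' j) /
        (ratK K R * ∏ j ∈ Finset.range k, rat φ μ j R u ρ ^ α j) := by
  unfold Lf
  rw [Complex.exp_add, Complex.exp_sub, Complex.exp_log h1, Complex.exp_log h2,
    Complex.exp_sum, mul_div_mul_comm, ← Finset.prod_div_distrib]
  congr 1
  refine Finset.prod_congr rfl fun j hj => ?_
  by_cases h : α j ≠ 0 ∨ α' j ≠ 0
  · have h4 := h3 j (Finset.mem_range.1 hj) h
    push_cast
    rw [sub_mul, Complex.exp_sub, Complex.exp_nat_mul, Complex.exp_nat_mul, Complex.exp_log h4]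
  · push Not at h
    simp [h.1, h.2]

theorem exp_dslope (z : ℂ) : 1 - Complex.exp z = -(z * dslope Complex.exp 0 z) := by
  have h := sub_smul_dslope Complex.exp (0 : ℂ) z
  rw [smul_eq_mul, sub_zero, Complex.exp_zero] at h
  rw [h]
  ring

theorem dslope_tendsto : Tendsto (dslope Complex.exp 0) (𝓝 0) (𝓝 1) := by
  have h : ContinuousAt (dslope Complex.exp (0 : ℂ)) 0 :=
    continuousAt_dslope_same.2 Complex.differentiableAt_exp
  have h2 : dslope Complex.exp (0 : ℂ) 0 = 1 := by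
    rw [dslope_same, Complex.deriv_exp, Complex.exp_zero]
  rw [ContinuousAt, h2] at h
  exact h

end DlimAux

open DlimAux

theorem deep_lim {φ : ℕ → P2} {k : ℕ} {K K' : Polynomial ℂ} (hK : K ≠ 0) (hK' : K' ≠ 0)
    {α α' : ℕ → ℕ} {μ : ℕ → ℕ × ℕ} {τ : ℝ}
    (hμ : ∀ j < k, φ j ≠ 0 → Dom (φ j) τ (μ j))
    (hα : ∀ j < k, α j ≠ 0 → φ j ≠ 0) (hα' : ∀ j < k, α' j ≠ 0 → φ j ≠ 0)
    (hφ : φ k = mon φ k K α + mon φ k K' α') (he : exps μ k K α = exps μ k K' α')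
    (hc : coef φ μ k K α + coef φ μ k K' α' = 0) {ν : ℕ × ℕ} (hν : Dom (φ k) τ ν) {u : ℂ}
    (hu : ‖u‖ = 1) :
    Tendsto (fun R : ℝ => Lf φ μ k K K' α α' R u (R ^ τ) /
      ((R ^ (wt τ ν - wt τ (exps μ k K α)) : ℝ) : ℂ)) atTop
      (𝓝 (-(cf (φ k) ν / coef φ μ k K α) * u ^ ν.1 / u ^ (exps μ k K α).1)) := by
  have hu0 : u ≠ 0 := by
    rintro rfl
    simp at hu
  -- limits of the ratios
  have hrat : ∀ j < k, (α j ≠ 0 ∨ α' j ≠ 0) →
      Tendsto (fun R : ℝ => rat φ μ j R u (R ^ τ)) atTop (𝓝 1) := by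
    intro j hj h
    have hφj : φ j ≠ 0 := h.elim (hα j hj) (hα' j hj)
    exact asy_tendsto (hμ j hj hφj) hu
  have hlog : ∀ j < k, Tendsto (fun R : ℝ => (((α' j : ℝ) - α j : ℝ) : ℂ) *
      Complex.log (rat φ μ j R u (R ^ τ))) atTop (𝓝 0) := by
    intro j hj
    by_cases h : α j ≠ 0 ∨ α' j ≠ 0
    · have h1 := (hrat j hj h).clog (by simp [Complex.slitPlane])
      rw [Complex.log_one] at h1
      simpa using h1.const_mul (((α' j : ℝ) - α j : ℝ) : ℂ)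
    · push Not at h
      simp [h.1, h.2]
  have hL : Tendsto (fun R : ℝ => Lf φ μ k K K' α α' R u (R ^ τ)) atTop (𝓝 0) := by
    unfold Lf
    have h1 := (ratK_tendsto hK).clog (by simp [Complex.slitPlane])
    have h2 := (ratK_tendsto hK').clog (by simp [Complex.slitPlane])
    have h3 : Tendsto (fun R : ℝ => ∑ j ∈ Finset.range k, (((α' j : ℝ) - α j : ℝ) : ℂ) *
        Complex.log (rat φ μ j R u (R ^ τ))) atTop (𝓝 (∑ j ∈ Finset.range k, (0 : ℂ))) :=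
      tendsto_finsetSum _ fun j hj => hlog j (Finset.mem_range.1 hj)
    have h4 := (h2.sub h1).add h3
    simpa using h4
  have hdA := dom_mon hK (k := k) (φ := φ) (α := α) (μ := μ) (τ := τ)
    fun j hj h => hμ j hj (hα j hj h)
  have hcoef : coef φ μ k K α ≠ 0 := by
    rw [← hdA.2]
    exact hdA.1.1
  have hrA : Tendsto (fun R : ℝ => ratK K R * ∏ j ∈ Finset.range k, rat φ μ j R u (R ^ τ) ^ α j)
      atTop (𝓝 1) := by
    have h := asy_tendsto hdA.1 hu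
    rw [hdA.2] at h
    refine h.congr fun R => ?_
    rw [← mon_ratio]
  have hrν := asy_tendsto hν hu
  -- the key identity
  have key : ∀ᶠ R : ℝ in atTop, (1 - Complex.exp (Lf φ μ k K K' α α' R u (R ^ τ))) /
      ((R ^ (wt τ ν - wt τ (exps μ k K α)) : ℝ) : ℂ) =
      val2 (φ k) R (((R ^ τ : ℝ) : ℂ) * u) /
        (cf (φ k) ν * (R : ℂ) ^ ν.2 * (((R ^ τ : ℝ) : ℂ) * u) ^ ν.1) /
        (ratK K R * ∏ j ∈ Finset.range k, rat φ μ j R u (R ^ τ) ^ α j) *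
        (cf (φ k) ν / coef φ μ k K α * u ^ ν.1 / u ^ (exps μ k K α).1) := by
    have e1 : ∀ᶠ R : ℝ in atTop, ratK K R ≠ 0 :=
      (ratK_tendsto hK).eventually_ne one_ne_zero
    have e2 : ∀ᶠ R : ℝ in atTop, ratK K' R ≠ 0 :=
      (ratK_tendsto hK').eventually_ne one_ne_zero
    have e3 : ∀ᶠ R : ℝ in atTop, ∀ j ∈ Finset.range k, (α j ≠ 0 ∨ α' j ≠ 0) →
        rat φ μ j R u (R ^ τ) ≠ 0 := by
      rw [Filter.eventually_all_finset]
      intro j hj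
      by_cases h : α j ≠ 0 ∨ α' j ≠ 0
      · filter_upwards [(hrat j (Finset.mem_range.1 hj) h).eventually_ne one_ne_zero] with R hR _
        exact hR
      · exact Eventually.of_forall fun R h' => absurd h' h
    have e4 : ∀ᶠ R : ℝ in atTop,
        ratK K R * ∏ j ∈ Finset.range k, rat φ μ j R u (R ^ τ) ^ α j ≠ 0 :=
      hrA.eventually_ne one_ne_zero
    filter_upwards [e1, e2, e3, e4, eventually_gt_atTop 0] with R h1 h2 h3 h4 hR
    rw [exp_Lf h1 h2 fun j hj h => h3 j (Finset.mem_range.2 hj) h]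
    rw [← mon_ratio, ← mon_ratio, ← he]
    rw [← mon_ratio] at h4
    have hcoef' : coef φ μ k K' α' = -coef φ μ k K α := by
      linear_combination hc
    have hval : val2 (φ k) R (((R ^ τ : ℝ) : ℂ) * u) =
        val2 (mon φ k K α) R (((R ^ τ : ℝ) : ℂ) * u) +
          val2 (mon φ k K' α') R (((R ^ τ : ℝ) : ℂ) * u) := by
      rw [hφ]
      unfold val2
      rw [Polynomial.eval₂_add]
    have hRC : (R : ℂ) ≠ 0 := by exact_mod_cast hR.ne'
    have hρ : (0 : ℝ) < R ^ τ := Real.rpow_pos_of_pos hR τ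
    have hρC : ((R ^ τ : ℝ) : ℂ) ≠ 0 := by exact_mod_cast hρ.ne'
    have hW : ((R ^ (wt τ ν - wt τ (exps μ k K α)) : ℝ) : ℂ) =
        ((R : ℂ) ^ ν.2 * ((R ^ τ : ℝ) : ℂ) ^ ν.1) /
          ((R : ℂ) ^ (exps μ k K α).2 * ((R ^ τ : ℝ) : ℂ) ^ (exps μ k K α).1) := by
      have : R ^ (wt τ ν - wt τ (exps μ k K α)) = (R ^ ν.2 * (R ^ τ) ^ ν.1) /
          (R ^ (exps μ k K α).2 * (R ^ τ) ^ (exps μ k K α).1) := by
        rw [Real.rpow_sub hR]
        unfold wt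
        rw [Real.rpow_add hR, Real.rpow_add hR, Real.rpow_natCast, Real.rpow_natCast,
          Real.rpow_mul hR.le, Real.rpow_mul hR.le, Real.rpow_natCast, Real.rpow_natCast]
      rw [this]
      push_cast
      rfl
    have hA : val2 (mon φ k K α) R (((R ^ τ : ℝ) : ℂ) * u) ≠ 0 := by
      intro h
      rw [h] at h4
      simp at h4
    rw [hcoef', hval, hW]
    have hν0 : cf (φ k) ν ≠ 0 := hν.1
    rw [mul_pow, mul_pow]
    have p1 : (R : ℂ) ^ ν.2 ≠ 0 := pow_ne_zero _ hRC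
    have p2 : (R : ℂ) ^ (exps μ k K α).2 ≠ 0 := pow_ne_zero _ hRC
    have p3 : ((R ^ τ : ℝ) : ℂ) ^ ν.1 ≠ 0 := pow_ne_zero _ hρC
    have p4 : ((R ^ τ : ℝ) : ℂ) ^ (exps μ k K α).1 ≠ 0 := pow_ne_zero _ hρC
    have p5 : u ^ ν.1 ≠ 0 := pow_ne_zero _ hu0
    have p6 : u ^ (exps μ k K α).1 ≠ 0 := pow_ne_zero _ hu0
    generalize val2 (mon φ k K α) R (((R ^ τ : ℝ) : ℂ) * u) = A at *
    generalize val2 (mon φ k K' α') R (((R ^ τ : ℝ) : ℂ) * u) = A' at *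
    generalize (R : ℂ) ^ ν.2 = q1 at *
    generalize (R : ℂ) ^ (exps μ k K α).2 = q2 at *
    generalize ((R ^ τ : ℝ) : ℂ) ^ ν.1 = q3 at *
    generalize ((R ^ τ : ℝ) : ℂ) ^ (exps μ k K α).1 = q4 at *
    generalize u ^ ν.1 = q5 at *
    generalize u ^ (exps μ k K α).1 = q6 at *
    generalize coef φ μ k K α = C at *
    generalize cf (φ k) ν = c at *
    field_simp
    ring
  have hT : Tendsto (fun R : ℝ => (1 - Complex.exp (Lf φ μ k K K' α α' R u (R ^ τ))) /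
      ((R ^ (wt τ ν - wt τ (exps μ k K α)) : ℝ) : ℂ)) atTop
      (𝓝 (cf (φ k) ν / coef φ μ k K α * u ^ ν.1 / u ^ (exps μ k K α).1)) := by
    have h := (hrν.div hrA one_ne_zero).mul_const
      (cf (φ k) ν / coef φ μ k K α * u ^ ν.1 / u ^ (exps μ k K α).1)
    rw [div_one, one_mul] at h
    refine h.congr' ?_
    filter_upwards [key] with R hR
    rw [hR]
    rfl
  have hd : Tendsto (fun R : ℝ => dslope Complex.exp 0 (Lf φ μ k K K' α α' R u (R ^ τ))) atTop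
      (𝓝 1) := dslope_tendsto.comp hL
  have hfin := (hT.div hd one_ne_zero).neg
  have e5 : -(cf (φ k) ν / coef φ μ k K α * u ^ ν.1 / u ^ (exps μ k K α).1 / 1) =
      -(cf (φ k) ν / coef φ μ k K α) * u ^ ν.1 / u ^ (exps μ k K α).1 := by
    ring
  rw [e5] at hfin
  refine hfin.congr' ?_
  filter_upwards [hd.eventually_ne one_ne_zero] with R hR
  simp only [Pi.div_apply]
  rw [exp_dslope]
  field_simp

end Pool.Agent.Lib.MP_641cb6_lc.KC
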