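import Mathlib

/-!
# Sign changes give simple zeros
-/

set_option autoImplicit false

namespace Pool.Agent.Lib.MP_641cb6_lc.KC

open Set MeasureTheory

namespace Regk

lemma mono {N : ℕ} {ρ : ℕ → ℝ} (hρ : ∀ l < N, ρ l < ρ (l + 1)) {l m : ℕ} (hlm : l ≤ m)
    (hm : m ≤ N) : ρ l ≤ ρ m := by
  induction m, hlm using Nat.le_induction with
  | base => exact le_rfl
  | succ m hlm ih => exact (ih (by omega)).trans (hρ m (by omega)).le

/-- the critical values form a null set -/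
lemma crit_null {g : ℝ → ℝ} {a b : ℝ} (hd : ContDiffOn ℝ 1 g (Ioo a b)) :
    volume (g '' {x | x ∈ Ioo a b ∧ deriv g x = 0}) = 0 := by
  refine addHaar_image_eq_zero_of_det_fderivWithin_eq_zero (volume : Measure ℝ)
    (f' := fun x => fderiv ℝ g x) ?_ ?_
  · intro x hx
    have h1 : DifferentiableAt ℝ g x :=
      (hd.differentiableOn one_ne_zero).differentiableAt (isOpen_Ioo.mem_nhds hx.1)
    exact h1.hasFDerivAt.hasFDerivWithinAt
  · intro x hx
    have h0 : fderiv ℝ g x = 0 := by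
      ext
      simpa using hx.2
    simp [h0]

/-- a small positive bound -/
lemma exists_eps {N : ℕ} (v : ℕ → ℝ) :
    ∃ ε : ℝ, 0 < ε ∧ ∀ l < N, v l ≠ 0 → ε ≤ |v l| := by
  induction N with
  | zero => exact ⟨1, one_pos, by simp⟩
  | succ N ih =>
    obtain ⟨ε, hε, h⟩ := ih
    by_cases hv : v N = 0
    · refine ⟨ε, hε, fun l hl hne => ?_⟩
      rcases Nat.lt_succ_iff_lt_or_eq.1 hl with h1 | h1
      · exact h l h1 hne
      · exact absurd (h1 ▸ hv) hne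
    · refine ⟨min ε |v N|, lt_min hε (abs_pos.2 hv), fun l hl hne => ?_⟩
      rcases Nat.lt_succ_iff_lt_or_eq.1 hl with h1 | h1
      · exact (min_le_left _ _).trans (h l h1 hne)
      · rw [h1]
        exact min_le_right _ _

lemma exists_value {g : ℝ → ℝ} {a b ε : ℝ} (hε : 0 < ε) (hd : ContDiffOn ℝ 1 g (Ioo a b)) :
    ∃ δ : ℝ, 0 < δ ∧ δ < ε ∧ ∀ x ∈ Ioo a b, g x = δ → deriv g x ≠ 0 := by
  by_contra hcon
  push Not at hcon
  have hsub : Ioo 0 ε ⊆ g '' {x | x ∈ Ioo a b ∧ deriv g x = 0} := by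
    intro δ hδ
    obtain ⟨x, hx, hgx, hdx⟩ := hcon δ hδ.1 hδ.2
    exact ⟨x, ⟨hx, hdx⟩, hgx⟩
  have h0 := measure_mono_null hsub (crit_null hd)
  simp only [Real.volume_Ioo, sub_zero, ENNReal.ofReal_eq_zero] at h0
  linarith

/-- intermediate value -/
lemma ivt {g : ℝ → ℝ} {a b δ ε : ℝ} (hab : a < b) (hc : ContinuousOn g (Icc a b))
    (hδ : 0 < δ) (hδε : δ < ε) (ha : g a ≠ 0 → ε ≤ |g a|) (hb : g b ≠ 0 → ε ≤ |g b|)
    (hs : g a * g b < 0) : ∃ x ∈ Ioo a b, g x = δ := by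
  rcases mul_neg_iff.1 hs with ⟨h1, h2⟩ | ⟨h1, h2⟩
  · have h3 := ha h1.ne'
    rw [abs_of_pos h1] at h3
    have := intermediate_value_Ioo' hab.le hc
    obtain ⟨x, hx, hgx⟩ := this (show δ ∈ Ioo (g b) (g a) from ⟨by linarith, by linarith⟩)
    exact ⟨x, hx, hgx⟩
  · have h3 := hb h2.ne'
    rw [abs_of_pos h2] at h3
    have := intermediate_value_Ioo hab.le hc
    obtain ⟨x, hx, hgx⟩ := this (show δ ∈ Ioo (g a) (g b) from ⟨by linarith, by linarith⟩)
    exact ⟨x, hx, hgx⟩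

end Regk

theorem sign_changes {N : ℕ} {ρ : ℕ → ℝ} (hρ : ∀ l < N, ρ l < ρ (l + 1)) {g : ℝ → ℝ}
    (hc : ContinuousOn g (Icc (ρ 0) (ρ N))) (hd : ContDiffOn ℝ 1 g (Ioo (ρ 0) (ρ N))) {B : ℕ}
    (hB : ∀ δ : ℝ, {b | b ∈ Ioo (ρ 0) (ρ N) ∧ g b - δ = 0 ∧ deriv g b ≠ 0}.encard ≤ B) :
    ((Finset.range N).filter fun l => g (ρ l) * g (ρ (l + 1)) < 0).card ≤ B := by
  classical
  obtain ⟨ε, hε, hεl⟩ := Regk.exists_eps (N := N + 1) (fun l => g (ρ l))
  obtain ⟨δ, hδ, hδε, hreg⟩ := Regk.exists_value hε hd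
  set S := (Finset.range N).filter fun l => g (ρ l) * g (ρ (l + 1)) < 0 with hS
  have hx : ∀ l ∈ S, ∃ x ∈ Ioo (ρ l) (ρ (l + 1)), g x = δ := by
    intro l hl
    rw [hS, Finset.mem_filter, Finset.mem_range] at hl
    have hl1 := hl.1
    refine Regk.ivt (hρ l hl1) (hc.mono (Icc_subset_Icc (Regk.mono hρ (Nat.zero_le _) hl1.le)
      (Regk.mono hρ hl1 le_rfl))) hδ hδε (hεl l (by omega)) (hεl (l + 1) (by omega)) hl.2
  choose! x hxm hxg using hx
  have hinj : Set.InjOn x (S : Set ℕ) := by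
    have key : ∀ l ∈ S, ∀ m ∈ S, l < m → x l < x m := by
      intro l hl m hm hlm
      have hm1 : m < N := by
        rw [hS, Finset.mem_filter, Finset.mem_range] at hm
        exact hm.1
      exact (hxm l hl).2.trans_le ((Regk.mono hρ hlm hm1.le).trans (hxm m hm).1.le)
    intro l hl m hm hlm
    rcases lt_trichotomy l m with h | h | h
    · exact absurd hlm (key l hl m hm h).ne
    · exact h
    · exact absurd hlm (key m hm l hl h).ne'
  have hsub : x '' (S : Set ℕ) ⊆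
      {b | b ∈ Ioo (ρ 0) (ρ N) ∧ g b - δ = 0 ∧ deriv g b ≠ 0} := by
    rintro _ ⟨l, hl, rfl⟩
    have hl' : l ∈ S := hl
    have hl1 : l < N := by
      rw [hS, Finset.mem_filter, Finset.mem_range] at hl'
      exact hl'.1
    have hmem : x l ∈ Ioo (ρ 0) (ρ N) :=
      ⟨(Regk.mono hρ (Nat.zero_le _) hl1.le).trans_lt (hxm l hl').1,
        (hxm l hl').2.trans_le (Regk.mono hρ hl1 le_rfl)⟩
    exact ⟨hmem, by rw [hxg l hl', sub_self], hreg _ hmem (hxg l hl')⟩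
  have h1 : ((S.card : ℕ) : ℕ∞) ≤ B := by
    calc ((S.card : ℕ) : ℕ∞) = (S : Set ℕ).encard := (Set.encard_coe_eq_coe_finsetCard S).symm
      _ = (x '' (S : Set ℕ)).encard := (hinj.encard_image).symm
      _ ≤ _ := Set.encard_le_encard hsub
      _ ≤ B := hB δ
  exact_mod_cast h1

end Pool.Agent.Lib.MP_641cb6_lc.KC
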