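import Pool.Agent.Lib.MP_641cb6_lc.KC.DeepAux
import Pool.Agent.Lib.MP_641cb6_lc.KC.Defs
import Pool.Agent.Lib.MP_641cb6_lc.KH.Defs
import Pool.Agent.Lib.MP_641cb6_lc.KH.Fam
import Pool.Agent.Lib.MP_641cb6_lc.KC.Tpol
import Pool.Agent.Lib.MP_641cb6_lc.KC.Asy
import Pool.Agent.Lib.MP_641cb6_lc.KC.Doma
import Pool.Agent.Lib.MP_641cb6_lc.KC.Crep
import Pool.Agent.Lib.MP_641cb6_lc.KC.Cred
import Pool.Agent.Lib.MP_641cb6_lc.KC.Dlim
import Pool.Agent.Lib.MP_641cb6_lc.KC.Sgn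
import Pool.Agent.Lib.MP_641cb6_lc.KC.Regk

/-!
# Cancellation of the dominating monomials (board kc_modules, module DEEP)
-/

set_option autoImplicit false

namespace Pool.Agent.Lib.MP_641cb6_lc.KC

open Finset Filter Topology

/-- the number of sign changes for one value of `R` -/
theorem deep_count {φ : ℕ → P2} {s : ℕ} (hφ : IsCChain φ s) {k : ℕ} (hk1 : 1 ≤ k) (hk : k ≤ s)
    {K K' : Polynomial ℂ} {α α' : ℕ → ℕ} (hα : ∀ j < k, α j ≠ 0 → φ j ≠ 0)
    (hα' : ∀ j < k, α' j ≠ 0 → φ j ≠ 0) {μ : ℕ → ℕ × ℕ}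
    {Kc Kc' : ℕ → Polynomial ℂ} {αc αc' : ℕ → ℕ → ℕ}
    (hc : ∀ l, 1 ≤ l → l ≤ s → φ l = mon φ l (Kc l) (αc l) + mon φ l (Kc' l) (αc' l))
    {η : ℝ} (hη0 : 0 < η) (hη : ∀ j < k, (1 + ∑ i ∈ range j, ((αc j i : ℝ) + αc' j i)) * η < 1)
    {N : ℕ} {ρ : ℕ → ℝ} (hρ : ∀ l < N, ρ l < ρ (l + 1)) (hρ0 : 0 < ρ 0)
    (hcf : ∀ j < k, φ j ≠ 0 → cf (φ j) (μ j) ≠ 0) (hμ0 : μ 0 = (1, 0))
    {R : ℝ} (hR : 0 < R) {u : ℂ} (hu : ‖u‖ = 1) (ω : ℂ)
    (h1 : ∀ j < k, 1 ≤ j → (Kc j ≠ 0 → (Kc j).eval (R : ℂ) ≠ 0) ∧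
      (Kc' j ≠ 0 → (Kc' j).eval (R : ℂ) ≠ 0))
    (hclose : ∀ j < k, φ j ≠ 0 → ∀ x ∈ Set.Icc (ρ 0) (ρ N),
      ‖rat φ μ j R u x - 1‖ ≤ min (1 / 2) (2 / 3 * η)) :
    ((range N).filter fun l => (ω * Lf φ μ k K K' α α' R u (ρ l)).re *
      (ω * Lf φ μ k K K' α α' R u (ρ (l + 1))).re < 0).card ≤ B0 (k - 1) := by
  classical
  set V : Set ℝ := Set.Ioo (ρ 0) (ρ N) with hVdef
  have hV0 : ∀ x ∈ V, 0 < x := fun x hx => hρ0.trans hx.1
  have hVI : ∀ x ∈ V, x ∈ Set.Icc (ρ 0) (ρ N) := fun x hx => ⟨hx.1.le, hx.2.le⟩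
  have hslit : ∀ j < k, φ j ≠ 0 → ∀ x ∈ Set.Icc (ρ 0) (ρ N),
      rat φ μ j R u x ∈ Complex.slitPlane := fun j hj hn x hx =>
    slit_of_near ((hclose j hj hn x hx).trans (min_le_left _ _))
  have hu0 : u ≠ 0 := by
    intro h0
    rw [h0, norm_zero] at hu
    exact zero_ne_one hu
  have hRc : (R : ℂ) ≠ 0 := by exact_mod_cast hR.ne'
  -- the representation
  obtain ⟨z, e, e', hCC, hrep⟩ := crep (k := k) (V := V) hV0 (alive := fun j => φ j ≠ 0)
    (F := fun j x => val2 (φ j) R (x * u)) (ℓ := fun j x => Complex.log (rat φ μ j R u x))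
    (C := fun j => cf (φ j) (μ j) * (R : ℂ) ^ (μ j).2 * u ^ (μ j).1) (ν := fun j => (μ j).1)
    (η := η)
    (fun j _ => (val2_contDiff (φ j) R u).contDiffOn)
    (fun j hj hn => mul_ne_zero (mul_ne_zero (hcf j hj hn) (pow_ne_zero _ hRc))
      (pow_ne_zero _ hu0))
    (by
      intro j hj hn x hx
      have hd := den_ne (hcf j hj hn) hR (hV0 x hx) hu
      have hne : rat φ μ j R u x ≠ 0 := Complex.slitPlane_ne_zero (hslit j hj hn x (hVI x hx))
      have hxc : (x : ℂ) ≠ 0 := by exact_mod_cast (hV0 x hx).ne'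
      have hc0 := hcf j hj hn
      rw [Complex.exp_log hne]
      unfold rat
      rw [mul_pow] at hd ⊢
      field_simp)
    (fun j hj hn x hx => norm_log_le ((hclose j hj hn x (hVI x hx)).trans (min_le_left _ _))
      ((hclose j hj hn x (hVI x hx)).trans (min_le_right _ _)))
    (by
      intro x hx
      have hxc : (x : ℂ) ≠ 0 := by exact_mod_cast (hV0 x hx).ne'
      have : rat φ μ 0 R u x = 1 := by
        unfold rat
        rw [hφ.1, hμ0, val2_X]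
        have : cf Polynomial.X (1, 0) = 1 := by simp [cf]
        rw [this]
        simp only [pow_zero, mul_one, pow_one, one_mul]
        exact div_self (mul_ne_zero hxc hu0)
      rw [this, Complex.log_one])
    (by
      intro j hj1 hjk hn
      obtain ⟨c, c', β, β', hc0, hb, hb', hval, hs⟩ := step_val (hc j hj1 (by omega)) hn
        (R := (R : ℂ)) (h1 j hjk hj1).1 (h1 j hjk hj1).2 hη0.le (hη j hjk)
      exact ⟨c, c', β, β', hc0, hb, hb', fun x _ => hval _, hs⟩)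
  obtain ⟨c, a₀, a, hcl⟩ := hrep (fun j => (α' j : ℝ) - α j) (by
    intro j hj h0
    by_cases ha : α j = 0
    · by_cases hb : α' j = 0
      · simp [ha, hb] at h0
      · exact hα' j hj hb
    · exact hα j hj ha)
  -- the function on `V`
  set c₀ : ℂ := Complex.log (ratK K' R) - Complex.log (ratK K R) with hc₀
  have hLf : ∀ x ∈ V, Lf φ μ k K K' α α' R u x = clam z e (c₀ + c) a₀ a x := by
    intro x hx
    unfold Lf
    rw [hcl x hx]
    unfold clam
    ring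
  set g : ℝ → ℝ := fun x => (ω * Lf φ μ k K K' α α' R u x).re with hg
  have hgC : ∀ x ∈ Set.Icc (ρ 0) (ρ N), ContDiffAt ℝ 1 g x := by
    intro x hx
    have h := Lf_contDiffAt (K := K) (K' := K') (α := α) (α' := α') (φ := φ) (μ := μ) (k := k)
      hR (lt_of_lt_of_le hρ0 hx.1) hu (by
        intro j hj h0
        have hn : φ j ≠ 0 := by
          rcases h0 with h0 | h0
          · exact hα j hj h0
          · exact hα' j hj h0
        exact ⟨hcf j hj hn, hslit j hj hn x hx⟩)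
    have h2 : ContDiffAt ℝ 1 (fun x => ω * Lf φ μ k K K' α α' R u x) x := contDiffAt_const.mul h
    exact Complex.reCLM.contDiff.contDiffAt.comp x h2
  refine sign_changes hρ (g := g) (fun x hx => (hgC x hx).continuousAt.continuousWithinAt)
    (fun x hx => (hgC x ⟨hx.1.le, hx.2.le⟩).contDiffWithinAt) (B := B0 (k - 1)) ?_
  intro δ
  refine le_trans (Set.encard_le_encard ?_) (cred (V := V) isOpen_Ioo hV0 hCC (c₀ + c) a₀ a ω δ)
  rintro x ⟨hx, hx1, hx2⟩
  have hev : g =ᶠ[𝓝 x] fun x => (ω * clam z e (c₀ + c) a₀ a x).re := by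
    filter_upwards [isOpen_Ioo.mem_nhds hx] with y hy
    rw [hg]
    simp only
    rw [hLf y hy]
  refine ⟨hx, ?_, ?_⟩
  · rw [← hev.eq_of_nhds]
    exact hx1
  · rw [← hev.deriv_eq]
    exact hx2

theorem deep {φ : ℕ → P2} {s : ℕ} (hφ : IsCChain φ s) {k : ℕ} (hk1 : 1 ≤ k) (hk : k ≤ s)
    {K K' : Polynomial ℂ} (hK : K ≠ 0) (hK' : K' ≠ 0) {α α' : ℕ → ℕ}
    (hα : ∀ j < k, α j ≠ 0 → φ j ≠ 0) (hα' : ∀ j < k, α' j ≠ 0 → φ j ≠ 0)
    (hφk : φ k = mon φ k K α + mon φ k K' α') {N : ℕ} {τ : ℕ → ℝ}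
    (hτ : ∀ l < N, τ l < τ (l + 1)) {μ : ℕ → ℕ × ℕ}
    (hμ : ∀ j < k, φ j ≠ 0 → Dom (φ j) (τ 0) (μ j) ∧ Dom (φ j) (τ N) (μ j))
    {ν : ℕ → ℕ × ℕ} (hν : ∀ l ≤ N, Dom (φ k) (τ l) (ν l)) (hne : ∀ l < N, ν l ≠ ν (l + 1))
    (he : exps μ k K α = exps μ k K' α') (hc : coef φ μ k K α + coef φ μ k K' α' = 0) :
    N ≤ 2 * B0 (k - 1) := by
  classical
  have hτN : τ 0 ≤ τ N := tau_le hτ (Nat.zero_le N) le_rfl
  have hdom : ∀ l ≤ N, ∀ j < k, φ j ≠ 0 → Dom (φ j) (τ l) (μ j) := fun l hl j hj hn =>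
    dom_convex (hμ j hj hn).1 (hμ j hj hn).2 (tau_le hτ (Nat.zero_le l) hl) (tau_le hτ hl le_rfl)
  have hφ0 : φ 0 ≠ 0 := by
    rw [hφ.1]
    exact Polynomial.X_ne_zero
  have hμ0 : μ 0 = (1, 0) := by
    have h := (hμ 0 (by omega) hφ0).1
    rw [hφ.1] at h
    exact dom_unique h (dom_X _)
  have hcf : ∀ j < k, φ j ≠ 0 → cf (φ j) (μ j) ≠ 0 := fun j hj hn => (hμ j hj hn).1.1
  have hcoef : coef φ μ k K α ≠ 0 := by
    unfold coef
    refine mul_ne_zero (Polynomial.leadingCoeff_ne_zero.2 hK) ?_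
    rw [Finset.prod_ne_zero_iff]
    intro j hj
    rw [mem_range] at hj
    by_cases h0 : α j = 0
    · rw [h0, pow_zero]
      exact one_ne_zero
    · exact pow_ne_zero _ (hcf j hj (hα j hj h0))
  -- directions
  obtain ⟨ω, u, hu, -, hre, hN⟩ := sgn (N := N) (D := fun l => cf (φ k) (ν l))
    (fun l hl => (hν l hl).1) (i := fun l => (ν l).1)
    (fun l hl => dom_mono (hν l (by omega)) (hν (l + 1) (by omega)) (hτ l hl) (hne l hl))
  have hu0 : u ≠ 0 := by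
    intro h0
    rw [h0, norm_zero] at hu
    exact zero_ne_one hu
  set ω' : ℂ := -ω * coef φ μ k K α * u ^ (exps μ k K α).1 with hω'
  set sg : ℕ → ℝ := fun l => (ω * cf (φ k) (ν l) * u ^ (ν l).1).re with hsg
  obtain ⟨Kc, Kc', αc, αc', hchain⟩ := chain_choice hφ
  obtain ⟨η, hη0, hη⟩ := eta_exists k αc αc'
  -- conditions on `R`
  have e1 : ∀ᶠ R : ℝ in atTop, ∀ l ∈ range (N + 1),
      0 < (ω' * Lf φ μ k K K' α α' R u (R ^ τ l)).re * sg l := by
    rw [eventually_all_finset]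
    intro l hl
    rw [mem_range] at hl
    have hl' : l ≤ N := by omega
    have hlim := deep_lim hK hK' (hdom l hl') hα hα' hφk he hc (hν l hl') hu
    have hlim2 := (Complex.continuous_re.tendsto _).comp (hlim.const_mul ω')
    have hval : (ω' * (-(cf (φ k) (ν l) / coef φ μ k K α) * u ^ (ν l).1 /
        u ^ (exps μ k K α).1)).re = sg l := by
      rw [hsg]
      simp only
      congr 1
      rw [hω']
      have := pow_ne_zero (exps μ k K α).1 hu0
      field_simp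
    rw [hval] at hlim2
    have hs0 : sg l ≠ 0 := hre l hl'
    have hpos : 0 < sg l * sg l := mul_self_pos.2 hs0
    have hlim3 := hlim2.mul_const (sg l)
    filter_upwards [hlim3.eventually (lt_mem_nhds hpos), eventually_gt_atTop (0 : ℝ)] with R hR hR0
    have hp : (0 : ℝ) < R ^ (wt (τ l) (ν l) - wt (τ l) (exps μ k K α)) :=
      Real.rpow_pos_of_pos hR0 _
    simp only [Function.comp] at hR
    rw [← mul_div_assoc, Complex.div_ofReal_re, div_mul_eq_mul_div] at hR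
    exact (div_pos_iff_of_pos_right hp).1 hR
  have e2 : ∀ᶠ R : ℝ in atTop, ∀ j ∈ range k,
      (Kc j ≠ 0 → (Kc j).eval (R : ℂ) ≠ 0) ∧ (Kc' j ≠ 0 → (Kc' j).eval (R : ℂ) ≠ 0) := by
    rw [eventually_all_finset]
    intro j _
    apply Eventually.and
    · by_cases h0 : Kc j = 0
      · exact Eventually.of_forall fun R h => absurd h0 h
      · exact (eval_ne_of_large h0).mono fun R h _ => h
    · by_cases h0 : Kc' j = 0
      · exact Eventually.of_forall fun R h => absurd h0 h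
      · exact (eval_ne_of_large h0).mono fun R h _ => h
  have e3 : ∀ᶠ R : ℝ in atTop, ∀ j ∈ range k, φ j ≠ 0 →
      ∀ x ∈ Set.Icc (R ^ τ 0) (R ^ τ N), ‖rat φ μ j R u x - 1‖ ≤ min (1 / 2) (2 / 3 * η) := by
    rw [eventually_all_finset]
    intro j hj
    rw [mem_range] at hj
    by_cases h0 : φ j = 0
    · exact Eventually.of_forall fun R h => absurd h0 h
    · have h := asy hτN (hμ j hj h0).1 (hμ j hj h0).2
        (ε := min (1 / 2) (2 / 3 * η)) (lt_min (by norm_num) (by positivity))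
      exact h.mono fun R hR _ x hx => hR x hx u hu
  obtain ⟨R, ⟨⟨h1, h2⟩, h3⟩, hR1⟩ := (((e1.and e2).and e3).and
    (eventually_gt_atTop (1 : ℝ))).exists
  have hR0 : 0 < R := by linarith
  have hcount := deep_count (K := K) (K' := K') (α := α) (α' := α') hφ hk1 hk hα hα' (μ := μ)
    hchain hη0 hη (N := N) (ρ := fun l => R ^ τ l)
    (fun l hl => Real.rpow_lt_rpow_of_exponent_lt hR1 (hτ l hl))
    (Real.rpow_pos_of_pos hR0 _) hcf hμ0 hR0 hu ω'
    (fun j hj _ => h2 j (mem_range.2 hj)) (fun j hj hn x hx => h3 j (mem_range.2 hj) hn x hx)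
  have hsub : ((range N).filter fun l => (ω * cf (φ k) (ν l) * u ^ (ν l).1).re *
      (ω * cf (φ k) (ν (l + 1)) * u ^ (ν (l + 1)).1).re < 0).card ≤
      ((range N).filter fun l => (ω' * Lf φ μ k K K' α α' R u (R ^ τ l)).re *
        (ω' * Lf φ μ k K K' α α' R u (R ^ τ (l + 1))).re < 0).card := by
    apply Finset.card_le_card
    intro l hl
    rw [mem_filter, mem_range] at hl ⊢
    refine ⟨hl.1, ?_⟩
    have p1 := h1 l (mem_range.2 (by omega))
    have p2 := h1 (l + 1) (mem_range.2 (by omega))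
    have p3 : sg l * sg (l + 1) < 0 := hl.2
    have p4 := mul_pos p1 p2
    by_contra hcon
    push Not at hcon
    nlinarith [mul_nonneg hcon (neg_nonneg.2 p3.le)]
  have hN' : N ≤ 2 * ((range N).filter fun l => (ω * cf (φ k) (ν l) * u ^ (ν l).1).re *
      (ω * cf (φ k) (ν (l + 1)) * u ^ (ν (l + 1)).1).re < 0).card := hN
  omega

end Pool.Agent.Lib.MP_641cb6_lc.KC
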