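import Pool.Agent.Lib.MP_641cb6_lc.KC.Domb
import Pool.Agent.Lib.MP_641cb6_lc.KC.Deep

/-!
# All cases of the step (board kc_modules, module FIB)
-/

set_option autoImplicit false

namespace Pool.Agent.Lib.MP_641cb6_lc.KC

open Finset

theorem not_dom_zero (τ : ℝ) (m : ℕ × ℕ) : ¬ Dom 0 τ m := fun h => h.1 (by simp [cf])

/-- the dominating monomial of a product is the same at all `τ l` -/
theorem dom_mon_all {φ : ℕ → P2} {k : ℕ} {K : Polynomial ℂ} (hK : K ≠ 0) {α : ℕ → ℕ}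
    (hα : ∀ j < k, α j ≠ 0 → φ j ≠ 0) {N : ℕ} {τ : ℕ → ℝ} (hτ : ∀ l < N, τ l < τ (l + 1))
    {μ : ℕ → ℕ × ℕ} (hμ : ∀ j < k, φ j ≠ 0 → Dom (φ j) (τ 0) (μ j) ∧ Dom (φ j) (τ N) (μ j))
    {l : ℕ} (hl : l ≤ N) :
    Dom (mon φ k K α) (τ l) (exps μ k K α) ∧
      cf (mon φ k K α) (exps μ k K α) = coef φ μ k K α :=
  dom_mon hK fun j hj h0 => dom_convex (hμ j hj (hα j hj h0)).1 (hμ j hj (hα j hj h0)).2
    (tau_le hτ (Nat.zero_le l) hl) (tau_le hτ hl le_rfl)

theorem fib_const {f : P2} {N : ℕ} {τ : ℕ → ℝ} {m : ℕ × ℕ} (hm : ∀ l ≤ N, Dom f (τ l) m)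
    {ν : ℕ → ℕ × ℕ} (hν : ∀ l ≤ N, Dom f (τ l) (ν l)) (hne : ∀ l < N, ν l ≠ ν (l + 1)) :
    N = 0 := by
  by_contra hN
  have hN1 : 1 ≤ N := Nat.one_le_iff_ne_zero.2 hN
  exact hne 0 (by omega) ((dom_unique (hν 0 (by omega)) (hm 0 (by omega))).trans
    (dom_unique (hm 1 hN1) (hν 1 hN1)))

theorem fib {φ : ℕ → P2} {s : ℕ} (hφ : IsCChain φ s) {k : ℕ} (hk1 : 1 ≤ k) (hk : k ≤ s) {N : ℕ}
    {τ : ℕ → ℝ} (hτ : ∀ l < N, τ l < τ (l + 1)) {μ : ℕ → ℕ × ℕ}
    (hμ : ∀ j < k, φ j ≠ 0 → Dom (φ j) (τ 0) (μ j) ∧ Dom (φ j) (τ N) (μ j))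
    {ν : ℕ → ℕ × ℕ} (hν : ∀ l ≤ N, Dom (φ k) (τ l) (ν l)) (hne : ∀ l < N, ν l ≠ ν (l + 1)) :
    N ≤ 2 * B0 (k - 1) := by
  have hB := B0_pos (k - 1)
  obtain ⟨K, K', α, α', hφk⟩ := hφ.2 k hk1 hk
  by_cases hA : K ≠ 0 ∧ ∀ j < k, α j ≠ 0 → φ j ≠ 0
  · by_cases hB' : K' ≠ 0 ∧ ∀ j < k, α' j ≠ 0 → φ j ≠ 0
    · have dA : ∀ l ≤ N, Dom (mon φ k K α) (τ l) (exps μ k K α) := fun l hl =>
        (dom_mon_all hA.1 hA.2 hτ hμ hl).1
      have dB : ∀ l ≤ N, Dom (mon φ k K' α') (τ l) (exps μ k K' α') := fun l hl =>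
        (dom_mon_all hB'.1 hB'.2 hτ hμ hl).1
      have cA := (dom_mon_all hA.1 hA.2 hτ hμ (le_refl N)).2
      have cB := (dom_mon_all hB'.1 hB'.2 hτ hμ (le_refl N)).2
      by_cases he : exps μ k K α = exps μ k K' α'
      · by_cases hc : coef φ μ k K α + coef φ μ k K' α' = 0
        · exact deep hφ hk1 hk hA.1 hB'.1 hA.2 hB'.2 hφk hτ hμ hν hne he hc
        · have h0 : N = 0 := by
            refine fib_const (f := φ k) (m := exps μ k K α) (τ := τ) (fun l hl => ?_) hν hne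
            rw [hφk]
            refine dom_add_same (dA l hl) ?_ ?_
            · rw [he]
              exact dB l hl
            · rw [cA]
              rw [he]
              rw [cB]
              exact hc
          omega
      · -- different monomials
        have hmem : ∀ l ≤ N, ν l = exps μ k K α ∨ ν l = exps μ k K' α' := by
          intro l hl
          rcases lt_trichotomy (wt (τ l) (exps μ k K' α')) (wt (τ l) (exps μ k K α)) with h | h | h
          · left
            have h1 := dom_add_lt (dA l hl) (dB l hl) h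
            rw [← hφk] at h1
            exact dom_unique (hν l hl) h1
          · exfalso
            have h1 := dom_add_tie (dA l hl) (dB l hl) h he (ν l)
            rw [← hφk] at h1
            exact h1 (hν l hl)
          · right
            have h1 := dom_add_lt (dB l hl) (dA l hl) h
            rw [add_comm, ← hφk] at h1
            exact dom_unique (hν l hl) h1
        have hN : N ≤ 1 := by
          by_contra hN
          have h01 := dom_mono (hν 0 (by omega)) (hν 1 (by omega)) (hτ 0 (by omega))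
            (hne 0 (by omega))
          have h12 := dom_mono (hν 1 (by omega)) (hν 2 (by omega)) (hτ 1 (by omega))
            (hne 1 (by omega))
          rcases hmem 0 (by omega) with h0 | h0 <;> rcases hmem 1 (by omega) with h1 | h1 <;>
            rcases hmem 2 (by omega) with h2 | h2 <;> rw [h0, h1] at h01 <;>
            rw [h1, h2] at h12 <;> omega
        omega
    · rw [mon_zero hB', add_zero] at hφk
      have h0 : N = 0 := fib_const (f := φ k) (m := exps μ k K α) (τ := τ)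
        (fun l hl => by rw [hφk]; exact (dom_mon_all hA.1 hA.2 hτ hμ hl).1) hν hne
      omega
  · rw [mon_zero hA, zero_add] at hφk
    by_cases hB' : K' ≠ 0 ∧ ∀ j < k, α' j ≠ 0 → φ j ≠ 0
    · have h0 : N = 0 := fib_const (f := φ k) (m := exps μ k K' α') (τ := τ)
        (fun l hl => by rw [hφk]; exact (dom_mon_all hB'.1 hB'.2 hτ hμ hl).1) hν hne
      omega
    · rw [mon_zero hB'] at hφk
      exact absurd (hν 0 (Nat.zero_le N)) (by rw [hφk]; exact not_dom_zero _ _)

end Pool.Agent.Lib.MP_641cb6_lc.KC
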