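import Pool.Agent.Lib.MP_641cb6_lc.KC.Defs
import Pool.Agent.Lib.MP_641cb6_lc.KH.Defs
import Pool.Agent.Lib.MP_641cb6_lc.KH.Fam
import Pool.Agent.Lib.MP_641cb6_lc.KC.Tpol
import Pool.Agent.Lib.MP_641cb6_lc.KC.Doma
import Pool.Agent.Lib.MP_641cb6_lc.KC.Fib

/-!
# The number of different tuples of dominating monomials (module CNT of the board kc_modules)
-/

set_option autoImplicit false

namespace Pool.Agent.Lib.MP_641cb6_lc.KC

open Pool.Agent.Lib.MP_641cb6_lc

theorem cnt_B0_mono {a b : ℕ} (h : a ≤ b) : B0 a ≤ B0 b := by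
  unfold B0
  calc (6 * a + 7) ^ (4 * (a + 1) ^ 2) ≤ (6 * b + 7) ^ (4 * (a + 1) ^ 2) :=
        Nat.pow_le_pow_left (by omega) _
    _ ≤ (6 * b + 7) ^ (4 * (b + 1) ^ 2) :=
        Nat.pow_le_pow_right (by omega)
          (Nat.mul_le_mul_left 4 (Nat.pow_le_pow_left (by omega) 2))

/-- a subset on which a function is injective, with the same image -/
theorem cnt_section {β : Type} [DecidableEq β] (T : Finset ℝ) (f : ℝ → β) :
    ∃ S ⊆ T, S.card = (T.image f).card ∧ Set.InjOn f S := by
  classical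
  have h : ∀ v ∈ T.image f, ∃ τ ∈ T, f τ = v := fun v hv => by simpa using hv
  choose! g hg1 hg2 using h
  refine ⟨(T.image f).image g, ?_, ?_, ?_⟩
  · intro x hx
    obtain ⟨v, hv, rfl⟩ := Finset.mem_image.1 hx
    exact hg1 v hv
  · refine Finset.card_image_of_injOn fun a ha b hb hab => ?_
    rw [← hg2 a ha, ← hg2 b hb, hab]
  · intro x hx y hy hxy
    obtain ⟨v, hv, rfl⟩ := Finset.mem_image.1 hx
    obtain ⟨w, hw, rfl⟩ := Finset.mem_image.1 hy
    rw [hg2 v hv, hg2 w hw] at hxy
    rw [hxy]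

/-- one step: the number of values of `μ τ k` for the `τ` with given earlier values -/
theorem cnt_step {φ : ℕ → P2} {s : ℕ} (hφ : IsCChain φ s) {k : ℕ} (hk1 : 1 ≤ k) (hk : k ≤ s)
    {T : Finset ℝ} {μ : ℝ → ℕ → ℕ × ℕ} {μ₀ : ℕ → ℕ × ℕ}
    (hμ : ∀ τ ∈ T, ∀ l ≤ s, φ l ≠ 0 → Dom (φ l) τ (μ τ l))
    (hμ0 : ∀ τ ∈ T, ∀ l ≤ s, φ l = 0 → μ τ l = 0)
    (hT : ∀ τ ∈ T, ∀ l < k, μ τ l = μ₀ l) :
    (T.image fun τ => μ τ k).card ≤ 2 * B0 (k - 1) + 1 := by
  classical
  by_cases h0 : φ k = 0
  · have h1 : (T.image fun τ => μ τ k) ⊆ {0} := by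
      intro x hx
      obtain ⟨τ, hτ, rfl⟩ := Finset.mem_image.1 hx
      simpa using hμ0 τ hτ k hk h0
    have h2 := Finset.card_le_card h1
    rw [Finset.card_singleton] at h2
    omega
  · obtain ⟨S, hST, hcard, hinj⟩ := cnt_section T fun τ => μ τ k
    rw [← hcard]
    rcases Nat.eq_zero_or_pos S.card with h1 | h1
    · omega
    · obtain ⟨N, hN⟩ : ∃ N, S.card = N + 1 := ⟨S.card - 1, by omega⟩
      set ο := S.orderEmbOfFin hN with hο
      set τ : ℕ → ℝ := fun l => if h : l < N + 1 then ο ⟨l, h⟩ else 0 with hτdef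
      have hτ : ∀ l (h : l < N + 1), τ l = ο ⟨l, h⟩ := fun l h => by
        simp only [hτdef, dif_pos h]
      have hmem : ∀ l, l < N + 1 → τ l ∈ S := fun l h => by
        rw [hτ l h]
        exact S.orderEmbOfFin_mem hN _
      have hlt : ∀ l < N, τ l < τ (l + 1) := fun l h => by
        rw [hτ l (by omega), hτ (l + 1) (by omega)]
        exact ο.strictMono (by simp [Fin.lt_def])
      have h3 : N ≤ 2 * B0 (k - 1) := by
        refine fib hφ hk1 hk hlt (μ := μ₀) (ν := fun l => μ (τ l) k) ?_ ?_ ?_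
        · intro j hj hj0
          have h4 := hmem 0 (by omega)
          have h5 := hmem N (by omega)
          rw [← hT _ (hST h4) j hj]
          refine ⟨hμ _ (hST h4) j (by omega) hj0, ?_⟩
          rw [hT _ (hST h4) j hj, ← hT _ (hST h5) j hj]
          exact hμ _ (hST h5) j (by omega) hj0
        · intro l hl
          exact hμ _ (hST (hmem l (by omega))) k hk h0
        · intro l hl heq
          have h4 := hinj (hmem l (by omega)) (hmem (l + 1) (by omega)) heq
          exact absurd h4 (ne_of_lt (hlt l hl))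
      omega

theorem cnt {φ : ℕ → P2} {s : ℕ} (hφ : IsCChain φ s) {T : Finset ℝ} {μ : ℝ → ℕ → ℕ × ℕ}
    (hμ : ∀ τ ∈ T, ∀ l ≤ s, φ l ≠ 0 → Dom (φ l) τ (μ τ l))
    (hμ0 : ∀ τ ∈ T, ∀ l ≤ s, φ l = 0 → μ τ l = 0) :
    (T.image fun τ => fun l : Fin (s + 1) => μ τ l).card ≤ (2 * B0 (s - 1) + 1) ^ s := by
  classical
  have key : ∀ k ≤ s, (T.image fun τ => fun l : Fin (k + 1) => μ τ l).card ≤
      (2 * B0 (s - 1) + 1) ^ k := by
    intro k
    induction k with
    | zero =>
      intro _
      have h1 : (T.image fun τ => fun l : Fin (0 + 1) => μ τ l) ⊆ {fun _ => (1, 0)} := by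
        intro x hx
        obtain ⟨τ, hτ, rfl⟩ := Finset.mem_image.1 hx
        rw [Finset.mem_singleton]
        funext l
        have hl : (l : ℕ) = 0 := by omega
        have h2 : φ 0 ≠ 0 := by
          rw [hφ.1]
          exact Polynomial.X_ne_zero
        have h3 := hμ τ hτ 0 (Nat.zero_le _) h2
        rw [hφ.1] at h3
        simp only [hl]
        exact dom_unique h3 (dom_X τ)
      simpa using Finset.card_le_card h1
    | succ k ih =>
      intro hk
      have ih' := ih (by omega)
      set I := T.image fun τ => fun l : Fin (k + 1 + 1) => μ τ l with hI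
      set f : (Fin (k + 1 + 1) → ℕ × ℕ) → (Fin (k + 1) → ℕ × ℕ) :=
        fun g l => g (Fin.castSucc l) with hf
      have h1 : I.image f = T.image fun τ => fun l : Fin (k + 1) => μ τ l := by
        rw [hI, Finset.image_image]
        rfl
      have h2 := Finset.card_le_mul_card_image (f := f) I (2 * B0 (s - 1) + 1) ?_
      · rw [h1] at h2
        refine h2.trans ?_
        rw [pow_succ, mul_comm]
        exact Nat.mul_le_mul_right _ ih'
      · intro a _
        set T' := T.filter fun τ => ∀ l : Fin (k + 1), μ τ l = a l with hT'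
        set μ₀ : ℕ → ℕ × ℕ := fun l => if h : l < k + 1 then a ⟨l, h⟩ else 0 with hμ₀
        have h3 := cnt_step hφ (k := k + 1) (by omega) hk (T := T') (μ := μ) (μ₀ := μ₀)
          (fun τ hτ => hμ τ (Finset.mem_filter.1 hτ).1)
          (fun τ hτ => hμ0 τ (Finset.mem_filter.1 hτ).1)
          (fun τ hτ l hl => by
            rw [(Finset.mem_filter.1 hτ).2 ⟨l, hl⟩]
            simp only [hμ₀, dif_pos hl])
        have h4 : (I.filter fun g => f g = a).card ≤ (T'.image fun τ => μ τ (k + 1)).card := by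
          refine Finset.card_le_card_of_injOn (fun g => g (Fin.last (k + 1))) ?_ ?_
          · intro g hg
            obtain ⟨hg1, hg2⟩ := Finset.mem_filter.1 hg
            obtain ⟨τ, hτ, rfl⟩ := Finset.mem_image.1 hg1
            refine Finset.mem_coe.2 (Finset.mem_image.2 ⟨τ, ?_, ?_⟩)
            · refine Finset.mem_filter.2 ⟨hτ, fun l => ?_⟩
              exact congrFun hg2 l
            · simp
          · intro g hg g' hg' hgg
            obtain ⟨_, hg2⟩ := Finset.mem_filter.1 hg
            obtain ⟨_, hg2'⟩ := Finset.mem_filter.1 hg'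
            funext l
            refine Fin.lastCases ?_ (fun l => ?_) l
            · exact hgg
            · exact congrFun (hg2.trans hg2'.symm) l
        have h5 : B0 (k + 1 - 1) ≤ B0 (s - 1) := cnt_B0_mono (by omega)
        omega
  exact key s le_rfl

end Pool.Agent.Lib.MP_641cb6_lc.KC
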