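import Pool.Agent.Lib.MP_641cb6_lc.KC.Doma

/-!
# Existence of dominating monomials, roots, sums (board kc_modules, module DOMB)
-/

set_option autoImplicit false

namespace Pool.Agent.Lib.MP_641cb6_lc.KC

open Finset

/-- the monomials of `f` -/
noncomputable def mons (f : P2) : Finset (ℕ × ℕ) :=
  f.support.biUnion fun i => (f.coeff i).support.image fun p => (i, p)

theorem mem_mons {f : P2} {m : ℕ × ℕ} : m ∈ mons f ↔ cf f m ≠ 0 := by
  obtain ⟨i, p⟩ := m
  unfold mons cf
  rw [mem_biUnion]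
  constructor
  · rintro ⟨a, ha, hb⟩
    rw [mem_image] at hb
    obtain ⟨b, hb, e⟩ := hb
    cases e
    exact Polynomial.mem_support_iff.1 hb
  · intro h
    refine ⟨i, ?_, ?_⟩
    · rw [Polynomial.mem_support_iff]
      intro h0
      simp only at h
      rw [h0, Polynomial.coeff_zero] at h
      exact h rfl
    · exact mem_image.2 ⟨p, Polynomial.mem_support_iff.2 h, rfl⟩

theorem mons_nonempty {f : P2} (hf : f ≠ 0) : (mons f).Nonempty := by
  obtain ⟨i, hi⟩ := Polynomial.support_nonempty.2 hf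
  rw [Polynomial.mem_support_iff] at hi
  obtain ⟨p, hp⟩ := Polynomial.support_nonempty.2 hi
  rw [Polynomial.mem_support_iff] at hp
  exact ⟨(i, p), mem_mons.2 hp⟩

theorem dom_exists {f : P2} (hf : f ≠ 0) : ∃ E : Finset ℝ, ∀ τ ∉ E, ∃ m, Dom f τ m := by
  classical
  refine ⟨((mons f) ×ˢ (mons f)).image fun q =>
    ((q.2.2 : ℝ) - q.1.2) / ((q.1.1 : ℝ) - q.2.1), ?_⟩
  intro τ hτ
  obtain ⟨m, hm, hmax⟩ := Finset.exists_max_image (mons f) (wt τ) (mons_nonempty hf)
  refine ⟨m, mem_mons.1 hm, ?_⟩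
  intro n hn hne
  have hn' := mem_mons.2 hn
  refine lt_of_le_of_ne (hmax n hn') ?_
  intro e
  unfold wt at e
  by_cases h1 : m.1 = n.1
  · rw [h1] at e
    have h2 : (n.2 : ℝ) = m.2 := by linarith
    have h3 : n.2 = m.2 := by exact_mod_cast h2
    exact hne (Prod.ext h1.symm h3)
  · have h2 : ((m.1 : ℝ) - n.1) ≠ 0 := by
      intro h3
      have h4 : (m.1 : ℝ) = n.1 := by linarith
      exact h1 (by exact_mod_cast h4)
    apply hτ
    rw [mem_image]
    refine ⟨(m, n), mem_product.2 ⟨hm, hn'⟩, ?_⟩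
    simp only
    rw [div_eq_iff h2]
    linarith

theorem dom_root {f : P2} {c : ℂ} (hc : c ≠ 0) {t : ℕ}
    (h : f.eval (Polynomial.C c * Polynomial.X ^ t) = 0) (m : ℕ × ℕ) : ¬ Dom f (t : ℝ) m := by
  intro hD
  have h1 : (f.eval (Polynomial.C c * Polynomial.X ^ t)).coeff (m.2 + t * m.1) = 0 := by
    rw [h, Polynomial.coeff_zero]
  rw [Polynomial.eval_eq_sum, Polynomial.sum_def, Polynomial.finsetSum_coeff] at h1
  have key : ∀ i : ℕ, (f.coeff i * (Polynomial.C c * Polynomial.X ^ t) ^ i).coeff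
      (m.2 + t * m.1) = if t * i ≤ m.2 + t * m.1 then
        cf f (i, m.2 + t * m.1 - t * i) * c ^ i else 0 := by
    intro i
    have e : f.coeff i * (Polynomial.C c * Polynomial.X ^ t) ^ i =
        Polynomial.C (c ^ i) * (f.coeff i * Polynomial.X ^ (t * i)) := by
      rw [mul_pow, ← pow_mul, ← Polynomial.C_pow]
      ring
    rw [e, Polynomial.coeff_C_mul, Polynomial.coeff_mul_X_pow']
    unfold cf
    split_ifs
    · ring
    · ring
  have hm0 : m.1 ∈ f.support := by
    rw [Polynomial.mem_support_iff]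
    intro h0
    apply hD.1
    unfold cf
    rw [h0, Polynomial.coeff_zero]
  rw [Finset.sum_eq_single_of_mem m.1 hm0] at h1
  · rw [key, if_pos (by omega), Nat.add_sub_cancel] at h1
    exact mul_ne_zero hD.1 (pow_ne_zero _ hc) h1
  · intro i _ hi
    rw [key]
    split_ifs with h2
    · by_contra h3
      have h4 := left_ne_zero_of_mul h3
      have h5 := hD.2 _ h4 (fun e => hi (by rw [← e]))
      unfold wt at h5
      simp only at h5
      rw [Nat.cast_sub h2] at h5
      push_cast at h5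
      linarith
    · rfl

theorem dom_add_lt {A B : P2} {τ : ℝ} {m m' : ℕ × ℕ} (hA : Dom A τ m) (hB : Dom B τ m')
    (h : wt τ m' < wt τ m) : Dom (A + B) τ m := by
  constructor
  · rw [cf_add]
    have h0 : cf B m = 0 := by
      by_contra hc
      exact absurd (hB.le hc) (not_le.2 h)
    rw [h0, add_zero]
    exact hA.1
  · intro n hn hne
    rw [cf_add] at hn
    by_cases hA0 : cf A n = 0
    · rw [hA0, zero_add] at hn
      exact lt_of_le_of_lt (hB.le hn) h
    · exact hA.2 n hA0 hne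

theorem dom_add_tie {A B : P2} {τ : ℝ} {m m' : ℕ × ℕ} (hA : Dom A τ m) (hB : Dom B τ m')
    (h : wt τ m' = wt τ m) (hne : m ≠ m') (m'' : ℕ × ℕ) : ¬ Dom (A + B) τ m'' := by
  intro hD
  have hBm : cf B m = 0 := by
    by_contra hc
    have := hB.2 m hc hne
    linarith
  have hAm : cf A m' = 0 := by
    by_contra hc
    have := hA.2 m' hc (Ne.symm hne)
    linarith
  have h1 : cf (A + B) m ≠ 0 := by
    rw [cf_add, hBm, add_zero]
    exact hA.1
  have h2 : cf (A + B) m' ≠ 0 := by
    rw [cf_add, hAm, zero_add]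
    exact hB.1
  by_cases e : m'' = m
  · have h3 := hD.2 m' h2 (fun h4 => hne (by rw [h4, e]))
    rw [e] at h3
    linarith
  · have h3 := hD.2 m h1 (Ne.symm e)
    have h4 := hD.1
    rw [cf_add] at h4
    by_cases h5 : cf A m'' = 0
    · rw [h5, zero_add] at h4
      have := hB.le h4
      linarith
    · have := hA.le h5
      linarith

theorem dom_add_same {A B : P2} {τ : ℝ} {m : ℕ × ℕ} (hA : Dom A τ m) (hB : Dom B τ m)
    (h : cf A m + cf B m ≠ 0) : Dom (A + B) τ m := by
  constructor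
  · rw [cf_add]
    exact h
  · intro n hn hne
    rw [cf_add] at hn
    by_cases hA0 : cf A n = 0
    · rw [hA0, zero_add] at hn
      exact hB.2 n hn hne
    · exact hA.2 n hA0 hne

end Pool.Agent.Lib.MP_641cb6_lc.KC
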