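import Pool.Agent.Lib.MP_641cb6_lc.KC.Defs
import Pool.Agent.Lib.MP_641cb6_lc.KH.Defs
import Pool.Agent.Lib.MP_641cb6_lc.KH.Fam
import Pool.Agent.Lib.MP_641cb6_lc.KC.Tpol
import Pool.Agent.Lib.MP_641cb6_lc.KC.Doma
import Pool.Agent.Lib.MP_641cb6_lc.KC.Domb
import Pool.Agent.Lib.MP_641cb6_lc.KC.Cnt

/-!
# The number of edges of the Newton polygons of a chain
-/

set_option autoImplicit false

namespace Pool.Agent.Lib.MP_641cb6_lc.KC

open Pool.Agent.Lib.MP_641cb6_lc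
open Set Topology Filter

namespace Brk

/-- a point to the right of `x` with no element of `F` in between -/
theorem next_point (F : Finset ℝ) (x : ℝ) : ∃ y, x < y ∧ ∀ z ∈ F, ¬ (x < z ∧ z ≤ y) := by
  have h1 : ∀ᶠ y in 𝓝[>] x, ∀ z ∈ F, ¬ (x < z ∧ z ≤ y) := by
    rw [Filter.eventually_all_finset]
    intro z _
    by_cases hz : x < z
    · have h2 : ∀ᶠ y in 𝓝[>] x, y < z :=
        (eventually_lt_nhds hz).filter_mono nhdsWithin_le_nhds
      filter_upwards [h2] with y hy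
      rintro ⟨_, h3⟩
      exact absurd hy (not_lt.2 h3)
    · exact Filter.Eventually.of_forall fun y h => hz h.1
  have h2 : ∀ᶠ y in 𝓝[>] x, x < y := eventually_mem_nhdsWithin
  obtain ⟨y, hy1, hy2⟩ := (h1.and h2).exists
  exact ⟨y, hy2, hy1⟩

theorem arith (s : ℕ) : (2 * B0 (s - 1) + 1) ^ s ≤ (6 * s + 1) ^ (5 * s ^ 3) := by
  rcases Nat.eq_zero_or_pos s with rfl | hs
  · simp
  · obtain ⟨r, rfl⟩ : ∃ r, s = r + 1 := ⟨s - 1, by omega⟩
    unfold B0
    simp only [Nat.add_sub_cancel]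
    have h1 : 6 * (r + 1) + 1 = 6 * r + 7 := by ring
    rw [h1]
    set X := (6 * r + 7) ^ (4 * (r + 1) ^ 2) with hX
    have hX1 : 1 ≤ X := Nat.one_le_pow _ _ (by omega)
    have h2 : 2 * X + 1 ≤ (6 * r + 7) ^ (4 * (r + 1) ^ 2 + 1) := by
      rw [pow_succ, ← hX]
      nlinarith
    have h3 : (6 * r + 7) ^ (4 * (r + 1) ^ 2 + 1) ≤ (6 * r + 7) ^ (5 * (r + 1) ^ 2) := by
      apply Nat.pow_le_pow_right (by omega)
      have : 1 ≤ (r + 1) ^ 2 := Nat.one_le_pow _ _ (by omega)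
      omega
    calc (2 * X + 1) ^ (r + 1) ≤ ((6 * r + 7) ^ (5 * (r + 1) ^ 2)) ^ (r + 1) :=
          Nat.pow_le_pow_left (h2.trans h3) _
      _ = (6 * r + 7) ^ (5 * (r + 1) ^ 3) := by
          rw [← pow_mul]
          congr 1
          ring

end Brk

open Brk

theorem breaks {φ : ℕ → P2} {s : ℕ} (hφ : IsCChain φ s) (Z : Finset ℝ)
    (hZ : ∀ t ∈ Z, ∃ l ≤ s, φ l ≠ 0 ∧ ∀ m, ¬ Dom (φ l) t m) :
    Z.card + 1 ≤ (6 * s + 1) ^ (5 * s ^ 3) := by
  classical
  -- the exceptional slopes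
  have hE : ∀ l, ∃ E : Finset ℝ, φ l ≠ 0 → ∀ τ ∉ E, ∃ m, Dom (φ l) τ m := by
    intro l
    by_cases h : φ l = 0
    · exact ⟨∅, fun h' => absurd h h'⟩
    · obtain ⟨E, hE⟩ := dom_exists h
      exact ⟨E, fun _ => hE⟩
  choose E hE using hE
  set F : Finset ℝ := Z ∪ (Finset.range (s + 1)).biUnion E with hF
  choose g hg1 hg2 using next_point F
  -- a point to the left of all elements of `Z`
  obtain ⟨x₀, hx₀⟩ : ∃ x₀ : ℝ, ∀ z ∈ Z, x₀ < z := by
    obtain ⟨b, hb⟩ := Z.finite_toSet.bddBelow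
    exact ⟨b - 1, fun z hz => by have := hb (Finset.mem_coe.2 hz); linarith⟩
  have hx₀Z : x₀ ∉ Z := fun h => lt_irrefl _ (hx₀ _ h)
  set T : Finset ℝ := (insert x₀ Z).image g with hT
  -- between two points of `T` there is an element of `Z`
  have hsep : ∀ x ∈ insert x₀ Z, ∀ y ∈ insert x₀ Z, x < y → y ∈ Z ∧ g x < y ∧ y < g y := by
    intro x hx y hy hxy
    have hyZ : y ∈ Z := by
      rcases Finset.mem_insert.1 hy with rfl | h
      · exfalso
        rcases Finset.mem_insert.1 hx with rfl | h'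
        · exact lt_irrefl _ hxy
        · exact lt_asymm hxy (hx₀ x h')
      · exact h
    refine ⟨hyZ, ?_, hg1 y⟩
    by_contra hcon
    exact hg2 x y (Finset.mem_union_left _ hyZ) ⟨hxy, not_lt.1 hcon⟩
  have hinj : Set.InjOn g (insert x₀ Z : Finset ℝ) := by
    intro x hx y hy hxy
    rcases lt_trichotomy x y with h | h | h
    · obtain ⟨_, h1, h2⟩ := hsep x hx y hy h
      exact absurd hxy (h1.trans h2).ne
    · exact h
    · obtain ⟨_, h1, h2⟩ := hsep y hy x hx h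
      exact absurd hxy (h1.trans h2).ne'
  have hcard : T.card = Z.card + 1 := by
    rw [hT, Finset.card_image_of_injOn hinj, Finset.card_insert_of_notMem hx₀Z]
  -- the dominating monomials
  set μ : ℝ → ℕ → ℕ × ℕ := fun τ l => if h : ∃ m, Dom (φ l) τ m then Classical.choose h else 0
    with hμ
  have hμD : ∀ τ l, (∃ m, Dom (φ l) τ m) → Dom (φ l) τ (μ τ l) := by
    intro τ l h
    simp only [hμ, dif_pos h]
    exact Classical.choose_spec h
  have hTE : ∀ τ ∈ T, ∀ l ≤ s, φ l ≠ 0 → Dom (φ l) τ (μ τ l) := by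
    intro τ hτ l hl hne
    obtain ⟨x, _, rfl⟩ := Finset.mem_image.1 hτ
    refine hμD _ _ (hE l hne _ fun hmem => ?_)
    refine hg2 x (g x) (Finset.mem_union_right _ ?_) ⟨hg1 x, le_rfl⟩
    exact Finset.mem_biUnion.2 ⟨l, Finset.mem_range.2 (by omega), hmem⟩
  have hT0 : ∀ τ ∈ T, ∀ l ≤ s, φ l = 0 → μ τ l = 0 := by
    intro τ _ l _ h0
    have hno : ¬ ∃ m, Dom (φ l) τ m := by
      rintro ⟨m, hm, _⟩
      apply hm
      rw [h0]
      simp [cf]
    simp only [hμ, dif_neg hno]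
  have hcnt := cnt hφ hTE hT0
  have hinj2 : Set.InjOn (fun τ => fun l : Fin (s + 1) => μ τ l) (T : Set ℝ) := by
    have key : ∀ x ∈ insert x₀ Z, ∀ y ∈ insert x₀ Z, x < y →
        (fun l : Fin (s + 1) => μ (g x) l) ≠ fun l : Fin (s + 1) => μ (g y) l := by
      intro x hx y hy hxy heq
      obtain ⟨hyZ, h1, h2⟩ := hsep x hx y hy hxy
      obtain ⟨l, hl, hne, hno⟩ := hZ y hyZ
      have ha := hTE (g x) (Finset.mem_image_of_mem _ hx) l hl hne
      have hb := hTE (g y) (Finset.mem_image_of_mem _ hy) l hl hne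
      have hab : μ (g x) l = μ (g y) l := congrFun heq ⟨l, by omega⟩
      rw [← hab] at hb
      exact hno _ (dom_convex ha hb h1.le h2.le)
    intro a ha b hb hab
    obtain ⟨x, hx, rfl⟩ := Finset.mem_image.1 (Finset.mem_coe.1 ha)
    obtain ⟨y, hy, rfl⟩ := Finset.mem_image.1 (Finset.mem_coe.1 hb)
    rcases lt_trichotomy x y with h | h | h
    · exact absurd hab (key x hx y hy h)
    · rw [h]
    · exact absurd hab.symm (key y hy x hx h)
  rw [Finset.card_image_of_injOn hinj2, hcard] at hcnt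
  exact hcnt.trans (arith s)

end Pool.Agent.Lib.MP_641cb6_lc.KC
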