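import Pool.Agent.Lib.MP_641cb6_lc.KC.Asy

/-!
# Auxiliary facts for module DEEP (board kc_modules)
-/

set_option autoImplicit false

namespace Pool.Agent.Lib.MP_641cb6_lc.KC

open Finset Filter Topology

/-! ## evaluation -/

theorem val2_add (f g : P2) (R b : ℂ) : val2 (f + g) R b = val2 f R b + val2 g R b := by
  unfold val2
  rw [Polynomial.eval₂_add]

theorem val2_mul (f g : P2) (R b : ℂ) : val2 (f * g) R b = val2 f R b * val2 g R b := by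
  unfold val2
  rw [Polynomial.eval₂_mul]

theorem val2_pow (f : P2) (n : ℕ) (R b : ℂ) : val2 (f ^ n) R b = val2 f R b ^ n := by
  unfold val2
  rw [Polynomial.eval₂_pow]

theorem val2_prod (f : ℕ → P2) (s : Finset ℕ) (R b : ℂ) :
    val2 (∏ j ∈ s, f j) R b = ∏ j ∈ s, val2 (f j) R b := by
  unfold val2
  rw [Polynomial.eval₂_finsetProd]

theorem val2_mon (φ : ℕ → P2) (l : ℕ) (K : Polynomial ℂ) (α : ℕ → ℕ) (R b : ℂ) :
    val2 (mon φ l K α) R b = K.eval R * ∏ j ∈ range l, val2 (φ j) R b ^ α j := by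
  unfold mon
  rw [val2_mul, val2_C, val2_prod]
  simp only [val2_pow]

theorem val2_X (R b : ℂ) : val2 Polynomial.X R b = b := by
  unfold val2
  rw [Polynomial.eval₂_X]

theorem val2_contDiff (f : P2) (R u : ℂ) : ContDiff ℝ 1 fun ρ : ℝ => val2 f R ((ρ : ℂ) * u) := by
  have h : (fun ρ : ℝ => val2 f R ((ρ : ℂ) * u)) = fun ρ : ℝ =>
      ∑ m ∈ mons f, cf f m * R ^ m.2 * ((ρ : ℂ) * u) ^ m.1 := by
    funext ρ
    rw [val2_eq]
  rw [h]
  apply ContDiff.sum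
  intro m _
  apply ContDiff.mul contDiff_const
  apply ContDiff.pow
  exact Complex.ofRealCLM.contDiff.mul contDiff_const

/-! ## the quotients by the dominating monomials -/

theorem den_ne {f : P2} {m : ℕ × ℕ} (hm : cf f m ≠ 0) {R ρ : ℝ} (hR : 0 < R) (hρ : 0 < ρ) {u : ℂ}
    (hu : ‖u‖ = 1) : cf f m * (R : ℂ) ^ m.2 * (ρ * u) ^ m.1 ≠ 0 := by
  have hu0 : u ≠ 0 := by
    intro h0
    rw [h0, norm_zero] at hu
    exact zero_ne_one hu
  have hRc : (R : ℂ) ≠ 0 := by exact_mod_cast hR.ne'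
  have hρc : (ρ : ℂ) ≠ 0 := by exact_mod_cast hρ.ne'
  exact mul_ne_zero (mul_ne_zero hm (pow_ne_zero _ hRc)) (pow_ne_zero _ (mul_ne_zero hρc hu0))

theorem slit_of_near {z : ℂ} (h : ‖z - 1‖ ≤ 1 / 2) : z ∈ Complex.slitPlane := by
  have h1 : ‖z - 1‖ < 1 := by linarith
  have := Complex.mem_slitPlane_of_norm_lt_one h1
  rwa [add_sub_cancel] at this

theorem norm_log_le {z : ℂ} {η : ℝ} (h : ‖z - 1‖ ≤ 1 / 2) (h2 : ‖z - 1‖ ≤ 2 / 3 * η) :
    ‖Complex.log z‖ ≤ η := by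
  have := Complex.norm_log_one_add_half_le_self h
  rw [add_sub_cancel] at this
  linarith

theorem rat_contDiffAt {φ : ℕ → P2} {μ : ℕ → ℕ × ℕ} {j : ℕ} (hm : cf (φ j) (μ j) ≠ 0) {R ρ : ℝ}
    (hR : 0 < R) (hρ : 0 < ρ) {u : ℂ} (hu : ‖u‖ = 1) :
    ContDiffAt ℝ 1 (fun ρ : ℝ => rat φ μ j R u ρ) ρ := by
  unfold rat
  simp only [div_eq_mul_inv]
  refine ContDiffAt.mul (val2_contDiff (φ j) R u).contDiffAt ?_
  refine ContDiffAt.inv (𝕜 := ℝ)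
    (f := fun ρ : ℝ => cf (φ j) (μ j) * (R : ℂ) ^ (μ j).2 * ((ρ : ℂ) * u) ^ (μ j).1)
    ?_ (den_ne hm hR hρ hu)
  apply ContDiffAt.mul contDiffAt_const
  apply ContDiffAt.pow
  exact (Complex.ofRealCLM.contDiff.mul contDiff_const).contDiffAt

theorem log_rat_contDiffAt {φ : ℕ → P2} {μ : ℕ → ℕ × ℕ} {j : ℕ} (hm : cf (φ j) (μ j) ≠ 0)
    {R ρ : ℝ} (hR : 0 < R) (hρ : 0 < ρ) {u : ℂ} (hu : ‖u‖ = 1)
    (hs : rat φ μ j R u ρ ∈ Complex.slitPlane) :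
    ContDiffAt ℝ 1 (fun ρ : ℝ => Complex.log (rat φ μ j R u ρ)) ρ := by
  have h := (Complex.contDiffAt_log hs (n := 1)).restrict_scalars ℝ
  exact ContDiffAt.comp ρ h (rat_contDiffAt hm hR hρ hu)

theorem Lf_contDiffAt {φ : ℕ → P2} {μ : ℕ → ℕ × ℕ} {k : ℕ} {K K' : Polynomial ℂ} {α α' : ℕ → ℕ}
    {R ρ : ℝ} (hR : 0 < R) (hρ : 0 < ρ) {u : ℂ} (hu : ‖u‖ = 1)
    (h : ∀ j < k, (α j ≠ 0 ∨ α' j ≠ 0) →
      cf (φ j) (μ j) ≠ 0 ∧ rat φ μ j R u ρ ∈ Complex.slitPlane) :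
    ContDiffAt ℝ 1 (fun ρ : ℝ => Lf φ μ k K K' α α' R u ρ) ρ := by
  unfold Lf
  apply ContDiffAt.add contDiffAt_const
  apply ContDiffAt.sum
  intro j hj
  rw [mem_range] at hj
  by_cases h0 : α j ≠ 0 ∨ α' j ≠ 0
  · exact contDiffAt_const.mul (log_rat_contDiffAt (h j hj h0).1 hR hρ hu (h j hj h0).2)
  · push Not at h0
    have : (fun ρ : ℝ => (((α' j : ℝ) - α j : ℝ) : ℂ) * Complex.log (rat φ μ j R u ρ)) =
        fun _ => 0 := by
      funext ρ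
      rw [h0.1, h0.2]
      simp
    rw [this]
    exact contDiffAt_const

/-! ## nonvanishing for large `R` -/

theorem eval_ne_of_large {K : Polynomial ℂ} (hK : K ≠ 0) :
    ∀ᶠ R : ℝ in atTop, K.eval (R : ℂ) ≠ 0 := by
  filter_upwards [asyK hK (ε := 1 / 2) (by norm_num)] with R hR h0
  unfold ratK at hR
  rw [h0, zero_div, zero_sub, norm_neg, norm_one] at hR
  norm_num at hR

/-! ## monomials -/

theorem B0_pos (r : ℕ) : 1 ≤ B0 r := Nat.one_le_pow _ _ (by omega)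

/-- the `τ l` are increasing -/
theorem tau_le {N : ℕ} {τ : ℕ → ℝ} (hτ : ∀ l < N, τ l < τ (l + 1)) {a b : ℕ} (hab : a ≤ b)
    (hb : b ≤ N) : τ a ≤ τ b := by
  induction b with
  | zero =>
    have : a = 0 := by omega
    rw [this]
  | succ b ih =>
    rcases Nat.lt_or_ge a (b + 1) with h | h
    · exact (ih (by omega) (by omega)).trans (hτ b (by omega)).le
    · have : a = b + 1 := by omega
      rw [this]

/-- a product with a vanishing factor -/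
theorem mon_zero {φ : ℕ → P2} {k : ℕ} {K : Polynomial ℂ} {α : ℕ → ℕ}
    (h : ¬ (K ≠ 0 ∧ ∀ j < k, α j ≠ 0 → φ j ≠ 0)) : mon φ k K α = 0 := by
  unfold mon
  by_cases hK : K = 0
  · rw [hK, Polynomial.C_0, zero_mul]
  · have h2 : ∃ j < k, α j ≠ 0 ∧ φ j = 0 := by
      by_contra hc
      push Not at hc
      exact h ⟨hK, hc⟩
    obtain ⟨j, hj, h1, h0⟩ := h2
    rw [Finset.prod_eq_zero (mem_range.2 hj) (by rw [h0, zero_pow h1]), mul_zero]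

/-- one element of the chain after evaluation, with a nonvanishing first product -/
theorem step_val {φ : ℕ → P2} {j : ℕ} {K K' : Polynomial ℂ} {α α' : ℕ → ℕ}
    (hj : φ j = mon φ j K α + mon φ j K' α') (hne : φ j ≠ 0) {R : ℂ}
    (h1 : K ≠ 0 → K.eval R ≠ 0) (h2 : K' ≠ 0 → K'.eval R ≠ 0) {η : ℝ} (hη0 : 0 ≤ η)
    (hη : (1 + ∑ i ∈ range j, ((α i : ℝ) + α' i)) * η < 1) :
    ∃ (c c' : ℂ) (β β' : ℕ → ℕ), c ≠ 0 ∧ (∀ i < j, β i ≠ 0 → φ i ≠ 0) ∧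
      (c' ≠ 0 → ∀ i < j, β' i ≠ 0 → φ i ≠ 0) ∧
      (∀ b : ℂ, val2 (φ j) R b = c * ∏ i ∈ range j, val2 (φ i) R b ^ β i +
        c' * ∏ i ∈ range j, val2 (φ i) R b ^ β' i) ∧
      (1 + ∑ i ∈ range j, ((β i : ℝ) + β' i)) * η < 1 := by
  have hle1 : (1 + ∑ i ∈ range j, ((α i : ℝ) + ((fun _ => 0 : ℕ → ℕ) i : ℕ))) * η < 1 := by
    refine lt_of_le_of_lt (mul_le_mul_of_nonneg_right ?_ hη0) hη
    have : ∑ i ∈ range j, ((α i : ℝ) + ((fun _ => 0 : ℕ → ℕ) i : ℕ)) ≤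
        ∑ i ∈ range j, ((α i : ℝ) + α' i) := by
      apply Finset.sum_le_sum
      intro i _
      have : (0 : ℝ) ≤ α' i := Nat.cast_nonneg _
      simp only [Nat.cast_zero]
      linarith
    linarith
  have hle2 : (1 + ∑ i ∈ range j, ((α' i : ℝ) + ((fun _ => 0 : ℕ → ℕ) i : ℕ))) * η < 1 := by
    refine lt_of_le_of_lt (mul_le_mul_of_nonneg_right ?_ hη0) hη
    have : ∑ i ∈ range j, ((α' i : ℝ) + ((fun _ => 0 : ℕ → ℕ) i : ℕ)) ≤
        ∑ i ∈ range j, ((α i : ℝ) + α' i) := by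
      apply Finset.sum_le_sum
      intro i _
      have : (0 : ℝ) ≤ α i := Nat.cast_nonneg _
      simp only [Nat.cast_zero]
      linarith
    linarith
  by_cases hA : K ≠ 0 ∧ ∀ i < j, α i ≠ 0 → φ i ≠ 0
  · by_cases hB : K' ≠ 0 ∧ ∀ i < j, α' i ≠ 0 → φ i ≠ 0
    · refine ⟨K.eval R, K'.eval R, α, α', h1 hA.1, hA.2, fun _ => hB.2, fun b => ?_, hη⟩
      rw [hj, val2_add, val2_mon, val2_mon]
    · refine ⟨K.eval R, 0, α, fun _ => 0, h1 hA.1, hA.2, fun h => absurd rfl h, fun b => ?_, hle1⟩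
      rw [hj, mon_zero hB, add_zero, val2_mon, zero_mul, add_zero]
  · by_cases hB : K' ≠ 0 ∧ ∀ i < j, α' i ≠ 0 → φ i ≠ 0
    · refine ⟨K'.eval R, 0, α', fun _ => 0, h2 hB.1, hB.2, fun h => absurd rfl h, fun b => ?_,
        hle2⟩
      rw [hj, mon_zero hA, zero_add, val2_mon, zero_mul, add_zero]
    · exact absurd (by rw [hj, mon_zero hA, mon_zero hB, add_zero]) hne

theorem chain_choice {φ : ℕ → P2} {s : ℕ} (hφ : IsCChain φ s) :
    ∃ (K K' : ℕ → Polynomial ℂ) (α α' : ℕ → ℕ → ℕ), ∀ l, 1 ≤ l → l ≤ s →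
      φ l = mon φ l (K l) (α l) + mon φ l (K' l) (α' l) := by
  have h : ∀ l, ∃ (K K' : Polynomial ℂ) (α α' : ℕ → ℕ), 1 ≤ l → l ≤ s →
      φ l = mon φ l K α + mon φ l K' α' := by
    intro l
    by_cases hl : 1 ≤ l ∧ l ≤ s
    · obtain ⟨K, K', α, α', hh⟩ := hφ.2 l hl.1 hl.2
      exact ⟨K, K', α, α', fun _ _ => hh⟩
    · exact ⟨0, 0, fun _ => 0, fun _ => 0, fun h1 h2 => absurd ⟨h1, h2⟩ hl⟩
  choose K K' α α' hh using h
  exact ⟨K, K', α, α', hh⟩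

/-- a positive `η` that works for all elements below `k` -/
theorem eta_exists (k : ℕ) (α α' : ℕ → ℕ → ℕ) :
    ∃ η : ℝ, 0 < η ∧ ∀ j < k, (1 + ∑ i ∈ range j, ((α j i : ℝ) + α' j i)) * η < 1 := by
  set S : ℝ := ∑ j ∈ range k, ∑ i ∈ range j, ((α j i : ℝ) + α' j i) with hS
  have hnn : ∀ j ∈ range k, (0 : ℝ) ≤ ∑ i ∈ range j, ((α j i : ℝ) + α' j i) := fun j _ =>
    Finset.sum_nonneg fun i _ => by positivity
  have hS0 : 0 ≤ S := Finset.sum_nonneg hnn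
  refine ⟨1 / (2 * (1 + S)), by positivity, fun j hj => ?_⟩
  have h1 := Finset.single_le_sum hnn (mem_range.2 hj)
  rw [mul_one_div, div_lt_one (by positivity)]
  linarith

end Pool.Agent.Lib.MP_641cb6_lc.KC
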