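import Pool.Agent.Lib.MP_641cb6_lc.Cplx2
import Pool.Agent.Lib.MP_641cb6_lc.KH.Comp
/-!
# Symbolic execution of a computation tree along a history

The atoms are the input coordinates `a 0, ..., a (n - 1)`, `b` and one polynomial for each
addition; every value is a real multiple of a product of integer powers of atoms.
-/

set_option autoImplicit false

namespace Pool.Agent.Lib.MP_641cb6_lc.KC

open Pool.Agent.Lib.MP_641cb6_lc.KH

open Set

/-- polynomials in `b` whose coefficients are polynomials in `a` -/
abbrev Pol (n : ℕ) : Type := Polynomial (MvPolynomial (Fin n) ℂ)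

/-- a symbolic state: the polynomials of the additions made so far, and for each value a factor
and the exponents of the atoms -/
structure SSt (n : ℕ) where
  atoms : List (Pol n)
  vals : List (ℂ × (ℕ →₀ ℤ))

/-- the atom number `l` -/
noncomputable def SSt.atom {n : ℕ} (s : SSt n) (l : ℕ) : Pol n :=
  if h : l < n then Polynomial.C (MvPolynomial.X ⟨l, h⟩)
  else if l = n then Polynomial.X else s.atoms.getD (l - n - 1) 1

/-- the value number `i` -/
noncomputable def SSt.val {n : ℕ} (s : SSt n) (i : ℕ) : ℂ × (ℕ →₀ ℤ) := s.vals.getD i (0, 0)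

/-- a product of powers of atoms -/
noncomputable def SSt.mono {n : ℕ} (s : SSt n) (e : ℕ → ℕ) : Pol n :=
  ∏ l ∈ Finset.range (n + 1 + s.atoms.length), s.atom l ^ e l

/-- one symbolic step with the instruction `ins` and the outcome `o` -/
noncomputable def sstep {n : ℕ} (ins : Instr ℂ) (o : Bool) (s : SSt n) : SSt n :=
  match ins with
  | .const c => ⟨s.atoms, s.vals ++ [(c, 0)]⟩
  | .mul i j => ⟨s.atoms, s.vals ++ [((s.val i).1 * (s.val j).1, (s.val i).2 + (s.val j).2)]⟩
  | .div i j => ⟨s.atoms, s.vals ++ [if o then (0, 0) else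
      ((s.val i).1 / (s.val j).1, (s.val i).2 - (s.val j).2)]⟩
  | .add c d i j =>
      ⟨s.atoms ++ [Polynomial.C (MvPolynomial.C (c * (s.val i).1)) *
          s.mono (fun l => ((s.val i).2 l - ((s.val i).2 ⊓ (s.val j).2) l).toNat) +
        Polynomial.C (MvPolynomial.C (d * (s.val j).1)) *
          s.mono (fun l => ((s.val j).2 l - ((s.val i).2 ⊓ (s.val j).2) l).toNat)],
        s.vals ++ [(1, (s.val i).2 ⊓ (s.val j).2 +
          Finsupp.single (n + 1 + s.atoms.length) 1)]⟩
  | .test _ => s
  | .answer _ => s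

/-- the symbolic state of the tree after the outcomes `h` -/
noncomputable def sym (n : ℕ) (T : CompTree ℂ) : List Bool → SSt n
  | [] => ⟨[], List.ofFn (fun i : Fin n => ((1 : ℂ), Finsupp.single (i : ℕ) (1 : ℤ))) ++
      [((1 : ℂ), Finsupp.single n (1 : ℤ))]⟩
  | o :: h => sstep (T h) o (sym n T h)

/-- the function of the atom number `l` -/
noncomputable def SSt.ev {n : ℕ} (s : SSt n) (x : (Fin n → ℂ) × ℂ) (l : ℕ) : ℂ :=
  polyFunC (s.atom l) x

/-- the test polynomial of the value number `i` -/
noncomputable def SSt.tpol {n : ℕ} (s : SSt n) (i : ℕ) : Pol n :=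
  Polynomial.C (MvPolynomial.C (s.val i).1) * s.mono (fun l => ((s.val i).2 l).natAbs)

end Pool.Agent.Lib.MP_641cb6_lc.KC
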