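import Pool.Agent.Lib.MP_641cb6_lc.KC.Asy
import Pool.Agent.Lib.MP_641cb6_lc.KC.SymDefs

/-!
# Curves of zeros have no dominating monomial (board kc_modules, module DROOT)
-/

set_option autoImplicit false

namespace Pool.Agent.Lib.MP_641cb6_lc.KC

open Pool.Agent.Lib.MP_641cb6_lc
open Finset Filter Topology

theorem dom_root_lim {f : P2} {b : ℝ → ℂ} {τ : ℝ} {C : ℂ} (hC : C ≠ 0)
    (hb : Tendsto (fun R : ℝ => b R / ((R ^ τ : ℝ) : ℂ)) atTop (𝓝 C))
    (h0 : ∀ᶠ R : ℝ in atTop, val2 f R (b R) = 0) (m : ℕ × ℕ) : ¬ Dom f τ m := by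
  classical
  intro hD
  have key : Tendsto (fun R : ℝ => ∑ n ∈ mons f, cf f n * (b R / ((R ^ τ : ℝ) : ℂ)) ^ n.1 *
      ((R ^ (wt τ n - wt τ m) : ℝ) : ℂ)) atTop (𝓝 (cf f m * C ^ m.1)) := by
    have e : cf f m * C ^ m.1 = ∑ n ∈ mons f, cf f n * C ^ n.1 * (if n = m then (1 : ℂ) else 0) := by
      rw [Finset.sum_eq_single m]
      · simp
      · intro n _ hn
        simp [hn]
      · intro hm
        exact absurd (mem_mons.2 hD.1) hm
    rw [e]
    apply tendsto_finsetSum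
    intro n hn
    apply Tendsto.mul
    · exact (hb.pow n.1).const_mul _
    · by_cases h : n = m
      · rw [if_pos h, h]
        simp only [sub_self, Real.rpow_zero, Complex.ofReal_one]
        exact tendsto_const_nhds
      · rw [if_neg h]
        have h1 := tendsto_rpow_neg_atTop (sub_pos.2 (hD.2 n (mem_mons.1 hn) h))
        have h2 := (Complex.continuous_ofReal.tendsto 0).comp h1
        simpa [Function.comp_def, neg_sub] using h2
  have hz : (fun R : ℝ => ∑ n ∈ mons f, cf f n * (b R / ((R ^ τ : ℝ) : ℂ)) ^ n.1 *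
      ((R ^ (wt τ n - wt τ m) : ℝ) : ℂ)) =ᶠ[atTop] fun _ => 0 := by
    filter_upwards [h0, eventually_gt_atTop (0 : ℝ)] with R hR hR0
    have hτ : ((R ^ τ : ℝ) : ℂ) ≠ 0 := by exact_mod_cast (Real.rpow_pos_of_pos hR0 τ).ne'
    have hm : ((R ^ wt τ m : ℝ) : ℂ) ≠ 0 := by exact_mod_cast (Real.rpow_pos_of_pos hR0 _).ne'
    rw [val2_eq] at hR
    have : ∑ n ∈ mons f, cf f n * (b R / ((R ^ τ : ℝ) : ℂ)) ^ n.1 *
        ((R ^ (wt τ n - wt τ m) : ℝ) : ℂ) =
        (∑ n ∈ mons f, cf f n * (R : ℂ) ^ n.2 * b R ^ n.1) / ((R ^ wt τ m : ℝ) : ℂ) := by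
      rw [sum_div]
      apply sum_congr rfl
      intro n _
      have h1 : R ^ (wt τ n - wt τ m) = R ^ n.2 * (R ^ τ) ^ n.1 / R ^ wt τ m := by
        rw [Real.rpow_sub hR0]
        congr 1
        unfold wt
        rw [Real.rpow_add hR0, Real.rpow_natCast, Real.rpow_mul hR0.le, Real.rpow_natCast]
      rw [h1, div_pow]
      push_cast
      field_simp
    rw [this, hR, zero_div]
  have h1 := tendsto_nhds_unique (key.congr' hz) tendsto_const_nhds
  exact mul_ne_zero hD.1 (pow_ne_zero _ hC) h1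

theorem spec_val {n : ℕ} (P : Pol n) (c : Fin n → ℂ) (q : Fin n → ℕ) (R b : ℂ) :
    val2 (P.map (sp c q)) R b = polyFunC P ((fun i => c i * R ^ q i), b) := by
  unfold val2 polyFunC
  rw [Polynomial.eval₂_map, Polynomial.eval_map]
  congr 1
  apply MvPolynomial.ringHom_ext
  · intro r
    simp [sp]
  · intro i
    simp [sp]

end Pool.Agent.Lib.MP_641cb6_lc.KC
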