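import Pool.Agent.Lib.MP_641cb6_lc.Cplx2

/-!
# Generic points (module GEN of the board kc_modules)
-/

set_option autoImplicit false

namespace Pool.Agent.Lib.MP_641cb6_lc.KC

open Pool.Agent.Lib.MP_641cb6_lc
open Set Topology Filter

/-- countably many analytic functions that are not identically zero are all nonzero at one point -/
theorem gen_ana {E : Type} [NormedAddCommGroup E] [NormedSpace ℂ E] [CompleteSpace E]
    {ι : Type} [Countable ι] (f : ι → E → ℂ) (hf : ∀ i, AnalyticOnNhd ℂ (f i) univ) :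
    ∃ x : E, ∀ i, (∃ x', f i x' ≠ 0) → f i x ≠ 0 := by
  have hd : Dense (⋂ i : ι, {x : E | (∃ x', f i x' ≠ 0) → f i x ≠ 0}) := by
    refine dense_iInter_of_isOpen (fun i => ?_) fun i => ?_
    · by_cases h : ∃ x', f i x' ≠ 0
      · have h2 : {x : E | (∃ x', f i x' ≠ 0) → f i x ≠ 0} = {x : E | f i x ≠ 0} := by
          ext x
          simp only [mem_ofPred_eq]
          exact ⟨fun h3 => h3 h, fun h3 _ => h3⟩
        rw [h2]
        exact isOpen_ne_fun (hf i).continuous continuous_const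
      · have h2 : {x : E | (∃ x', f i x' ≠ 0) → f i x ≠ 0} = univ := by
          ext x
          simp only [mem_ofPred_eq, mem_univ, iff_true]
          exact fun h3 => absurd h3 h
        rw [h2]
        exact isOpen_univ
    · by_cases h : ∃ x', f i x' ≠ 0
      · obtain ⟨x', hx'⟩ := h
        exact (dense_ne_zeroC (hf i) ⟨x', hx'⟩).mono fun x hx _ => hx
      · have h2 : {x : E | (∃ x', f i x' ≠ 0) → f i x ≠ 0} = univ := by
          ext x
          simp only [mem_ofPred_eq, mem_univ, iff_true]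
          exact fun h3 => absurd h3 h
        rw [h2]
        exact dense_univ
  obtain ⟨x, hx⟩ := hd.nonempty
  exact ⟨x, fun i => mem_iInter.1 hx i⟩

/-- a nonzero polynomial has a nonzero value -/
theorem exists_polyFunC_ne {n : ℕ} {P : Polynomial (MvPolynomial (Fin n) ℂ)} (hP : P ≠ 0) :
    ∃ x : (Fin n → ℂ) × ℂ, polyFunC P x ≠ 0 := by
  have h1 : P.leadingCoeff ≠ 0 := Polynomial.leadingCoeff_ne_zero.2 hP
  obtain ⟨a, ha⟩ : ∃ a : Fin n → ℂ, MvPolynomial.eval a P.leadingCoeff ≠ 0 := by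
    by_contra hcon
    push Not at hcon
    exact h1 (MvPolynomial.funext fun a => by rw [hcon a, map_zero])
  have h2 : P.map (MvPolynomial.eval a) ≠ 0 := by
    intro h0
    apply ha
    have h3 : (P.map (MvPolynomial.eval a)).coeff P.natDegree = 0 := by rw [h0]; simp
    rwa [Polynomial.coeff_map] at h3
  obtain ⟨b, hb⟩ : ∃ b : ℂ, (P.map (MvPolynomial.eval a)).eval b ≠ 0 := by
    by_contra hcon
    push Not at hcon
    exact h2 (Polynomial.funext fun b => by rw [hcon b, Polynomial.eval_zero])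
  exact ⟨(a, b), hb⟩

theorem gen_point {n : ℕ} {ι : Type} [Countable ι]
    (P : ι → Polynomial (MvPolynomial (Fin n) ℂ)) :
    ∃ x : (Fin n → ℂ) × ℂ, ∀ i, P i ≠ 0 → polyFunC (P i) x ≠ 0 := by
  obtain ⟨x, hx⟩ := gen_ana (fun i => polyFunC (P i)) fun i => polyFunC_analytic (P i)
  exact ⟨x, fun i hi => hx i (exists_polyFunC_ne hi)⟩

theorem gen_curve {n : ℕ} {ι : Type} [Countable ι]
    (P : ι → Polynomial (MvPolynomial (Fin n) ℂ)) (e : Fin n → ℕ) :
    ∃ a : Fin n → ℂ, ∀ i, (∃ a' : Fin n → ℂ, polyFunC (P i) (a', ∏ j, a' j ^ e j) ≠ 0) →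
      polyFunC (P i) (a, ∏ j, a j ^ e j) ≠ 0 := by
  have h1 : AnalyticOnNhd ℂ (fun a : Fin n → ℂ => (a, ∏ j, a j ^ e j)) univ := by
    intro a _
    refine analyticAt_id.prod ?_
    exact Finset.analyticAt_fun_prod _ fun j _ =>
      ((ContinuousLinearMap.proj (R := ℂ) (φ := fun _ : Fin n => ℂ) j).analyticAt a).pow _
  exact gen_ana (fun i (a : Fin n → ℂ) => polyFunC (P i) (a, ∏ j, a j ^ e j)) fun i a _ =>
    (polyFunC_analytic (P i) _ (mem_univ _)).comp (h1 a (mem_univ _))

end Pool.Agent.Lib.MP_641cb6_lc.KC
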