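import Pool.Agent.Lib.MP_641cb6_lc.KH.Comp

/-!
# Straight-line programs as computation trees
-/

set_option autoImplicit false

namespace Pool.Agent.Lib.MP_641cb6_lc.KC

open Pool.Agent.Lib.MP_641cb6_lc.KH

variable {K : Type} [Field K]

/-- The tree that executes the instructions of the list `L` in turn and then answers `true` iff all
outcomes were `true`. -/
noncomputable def prog (L : List (Instr K)) : CompTree K := fun h =>
  if h.length < L.length then L.getD h.length (.const 0) else .answer (h.all id)

theorem prog_lt {L : List (Instr K)} {h : List Bool} (hh : h.length < L.length) :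
    prog L h = L.getD h.length (.const 0) := if_pos hh

theorem prog_ge {L : List (Instr K)} {h : List Bool} (hh : L.length ≤ h.length) :
    prog L h = .answer (h.all id) := if_neg (not_lt.2 hh)

/-- the effect of an instruction on the values -/
noncomputable def xv (vals : List K) : Instr K → List K
  | .const c => vals ++ [c]
  | .mul i j => vals ++ [vals.getD i 0 * vals.getD j 0]
  | .div i j => vals ++ [vals.getD i 0 / vals.getD j 0]
  | .add c d i j => vals ++ [c * vals.getD i 0 + d * vals.getD j 0]
  | .test _ => vals
  | .answer _ => vals

/-- the outcome of an instruction -/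
def xo (P : K → Prop) (vals : List K) : Instr K → Prop
  | .div _ j => vals.getD j 0 = 0
  | .test i => P (vals.getD i 0)
  | _ => True

/-- the values after a list of instructions -/
noncomputable def xvs (vals : List K) (L : List (Instr K)) : List K := L.foldl xv vals

/-- all outcomes of a list of instructions are `true` -/
def xos (P : K → Prop) (vals : List K) : List (Instr K) → Prop
  | [] => True
  | i :: L => xo P vals i ∧ xos P (xv vals i) L

/-- the number of additions -/
def nadd : List (Instr K) → ℕ
  | [] => 0
  | .add _ _ _ _ :: L => nadd L + 1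
  | _ :: L => nadd L

theorem xvs_append (vals : List K) (L M : List (Instr K)) :
    xvs vals (L ++ M) = xvs (xvs vals L) M := List.foldl_append

theorem xos_append (P : K → Prop) (vals : List K) (L M : List (Instr K)) :
    xos P vals (L ++ M) ↔ xos P vals L ∧ xos P (xvs vals L) M := by
  induction L generalizing vals with
  | nil => simp [xos, xvs]
  | cons i L ih =>
    simp only [List.cons_append, xos, ih, xvs, List.foldl_cons]
    exact and_assoc.symm

theorem nadd_append (L M : List (Instr K)) : nadd (L ++ M) = nadd L + nadd M := by
  induction L with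
  | nil => simp [nadd]
  | cons i L ih =>
    cases i <;> simp [nadd, ih] <;> omega

/-- the instruction is not an answer -/
def NoAns : Instr K → Prop
  | .answer _ => False
  | _ => True

theorem step_eq {P : K → Prop} {T : CompTree K} {s : State K} {i : Instr K} (h : T s.hist = i)
    (hi : NoAns i) : ∃ o : Bool, (o = true ↔ xo P s.vals i) ∧
      T.step P s = ⟨o :: s.hist, xv s.vals i, s.cost + nadd [i]⟩ := by
  classical
  unfold CompTree.step
  rw [h]
  cases i with
  | const c => exact ⟨true, by simp [xo], rfl⟩
  | mul i j => exact ⟨true, by simp [xo], rfl⟩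
  | div i j =>
    refine ⟨decide (s.val j = 0), ?_, ?_⟩
    · rw [decide_eq_true_iff]; rfl
    · simp only [State.mk.injEq, List.cons.injEq, and_true]
      exact ⟨by congr, rfl, rfl⟩
  | add c d i j => exact ⟨true, by simp [xo], rfl⟩
  | test i =>
    refine ⟨decide (P (s.val i)), ?_, ?_⟩
    · rw [decide_eq_true_iff]; rfl
    · simp only [State.mk.injEq, List.cons.injEq, and_true]
      exact ⟨by congr, rfl, rfl⟩
  | answer b => exact hi.elim

theorem run_succ (P : K → Prop) (T : CompTree K) {n : ℕ} (x : (Fin n → K) × K) (k : ℕ) :
    T.run P x (k + 1) = T.step P (T.run P x k) := rfl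

/-- the state after the first `t` instructions -/
theorem prog_run (P : K → Prop) {L : List (Instr K)} (hL : ∀ i ∈ L, NoAns i) {n : ℕ}
    (x : (Fin n → K) × K) (t : ℕ) (ht : t ≤ L.length) :
    ((prog L).run P x t).hist.length = t ∧
    ((prog L).run P x t).vals = xvs (List.ofFn x.1 ++ [x.2]) (L.take t) ∧
    (((prog L).run P x t).hist.all id = true ↔ xos P (List.ofFn x.1 ++ [x.2]) (L.take t)) ∧
    ((prog L).run P x t).cost = nadd (L.take t) := by
  induction t with
  | zero =>
    refine ⟨rfl, rfl, ?_, rfl⟩
    simp [CompTree.run, xos]
  | succ t ih =>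
    obtain ⟨h1, h2, h3, h4⟩ := ih (by omega)
    have ht' : t < L.length := by omega
    have h5 : prog L ((prog L).run P x t).hist = L[t] := by
      rw [prog_lt (by omega), List.getD_eq_getElem _ _ (by omega)]
      congr 1
    obtain ⟨o, ho, hs⟩ := step_eq (P := P) h5 (hL _ (List.getElem_mem ht'))
    rw [run_succ, hs]
    have h6 : L.take (t + 1) = L.take t ++ [L[t]] := by
      rw [List.take_add_one, List.getElem?_eq_getElem ht']
      rfl
    refine ⟨by simp [h1], ?_, ?_, ?_⟩
    · rw [h6, xvs_append, ← h2]
      rfl
    · rw [h6, xos_append, ← h3, ← h2]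
      show ((o :: _).all id = true) ↔ _
      rw [List.all_cons, Bool.and_eq_true, id, ho]
      simp only [xos, and_true]
      exact and_comm
    · rw [h6, nadd_append, ← h4]

/-- the answer of the program and the number of its additions -/
theorem prog_answer (P : K → Prop) {L : List (Instr K)} (hL : ∀ i ∈ L, NoAns i) {n : ℕ}
    (x : (Fin n → K) × K) : ∃ b : Bool, (b = true ↔ xos P (List.ofFn x.1 ++ [x.2]) L) ∧
      prog L ((prog L).run P x L.length).hist = .answer b ∧
      ((prog L).run P x L.length).cost = nadd L := by
  obtain ⟨h1, h2, h3, h4⟩ := prog_run P hL x L.length le_rfl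
  rw [List.take_length] at h2 h3 h4
  exact ⟨((prog L).run P x L.length).hist.all id, h3, prog_ge (by omega), h4⟩

end Pool.Agent.Lib.MP_641cb6_lc.KC
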