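import Mathlib

/-!
# Directions with many sign changes
-/

set_option autoImplicit false

namespace Pool.Agent.Lib.MP_641cb6_lc.KC

open Finset

namespace Sgn

/-- a direction which avoids finitely many bad ones -/
lemma exists_dir (W : Finset ℂ) (hW : ∀ w ∈ W, w ≠ 0) :
    ∃ ω : ℂ, ‖ω‖ = 1 ∧ ∀ w ∈ W, (ω * w).re ≠ 0 := by
  classical
  obtain ⟨t, ht⟩ := Infinite.exists_notMem_finset (W.image fun w => w.re / w.im)
  have h0 : (⟨1, t⟩ : ℂ) ≠ 0 := by
    intro h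
    have := congrArg Complex.re h
    simp at this
  have hn : ‖(⟨1, t⟩ : ℂ)‖ ≠ 0 := norm_ne_zero_iff.2 h0
  refine ⟨((‖(⟨1, t⟩ : ℂ)‖⁻¹ : ℝ) : ℂ) * ⟨1, t⟩, ?_, fun w hw hre => ?_⟩
  · rw [norm_mul, Complex.norm_real, norm_inv, norm_norm, inv_mul_cancel₀ hn]
  · rw [mul_assoc, Complex.re_ofReal_mul] at hre
    have h1 : ((⟨1, t⟩ : ℂ) * w).re = 0 := (mul_eq_zero.1 hre).resolve_left (inv_ne_zero hn)
    simp only [Complex.mul_re] at h1
    by_cases him : w.im = 0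
    · rw [him] at h1
      exact hW w hw (Complex.ext (by simpa using h1) (by simpa using him))
    · refine ht (Finset.mem_image.2 ⟨w, hw, ?_⟩)
      rw [div_eq_iff him]
      linarith

/-- the character -/
noncomputable abbrev χ (Q : ℕ) : AddChar (ZMod (2 ^ (Q + 1))) ℂ := ZMod.stdAddChar

lemma chi_half (Q : ℕ) : χ Q ((2 ^ Q : ℕ) : ZMod (2 ^ (Q + 1))) = -1 := by
  have h1 : χ Q ((2 ^ Q : ℕ) : ZMod (2 ^ (Q + 1))) ^ 2 = 1 := by
    rw [← AddChar.map_nsmul_eq_pow]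
    have : (2 : ℕ) • ((2 ^ Q : ℕ) : ZMod (2 ^ (Q + 1))) = 0 := by
      rw [nsmul_eq_mul, ← Nat.cast_mul, show 2 * 2 ^ Q = 2 ^ (Q + 1) by rw [pow_succ]; ring]
      exact ZMod.natCast_self _
    rw [this, AddChar.map_zero_eq_one]
  have h2 : χ Q ((2 ^ Q : ℕ) : ZMod (2 ^ (Q + 1))) ≠ 1 := by
    intro h
    rw [← (χ Q).map_zero_eq_one] at h
    have h3 := ZMod.injective_stdAddChar h
    rw [ZMod.natCast_eq_zero_iff] at h3
    have h4 := Nat.le_of_dvd (by positivity) h3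
    rw [pow_succ] at h4
    have : 0 < 2 ^ Q := by positivity
    omega
  exact (sq_eq_one_iff.1 h1).resolve_left h2

lemma exists_shift {Q δ : ℕ} (h0 : 0 < δ) (h1 : δ < 2 ^ (Q + 1)) :
    ∃ d : ZMod (2 ^ (Q + 1)), χ Q ((δ : ZMod (2 ^ (Q + 1))) * d) = -1 := by
  obtain ⟨v, m, hm, rfl⟩ := Nat.exists_eq_two_pow_mul_odd h0.ne'
  have hv : v ≤ Q := by
    have h2 : 2 ^ v < 2 ^ (Q + 1) :=
      (Nat.le_mul_of_pos_right _ hm.pos).trans_lt h1
    exact Nat.lt_succ_iff.1 ((Nat.pow_lt_pow_iff_right (by norm_num)).1 h2)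
  refine ⟨((2 ^ (Q - v) : ℕ) : ZMod (2 ^ (Q + 1))), ?_⟩
  have h3 : ((2 ^ v * m : ℕ) : ZMod (2 ^ (Q + 1))) * ((2 ^ (Q - v) : ℕ) : ZMod (2 ^ (Q + 1))) =
      m • ((2 ^ Q : ℕ) : ZMod (2 ^ (Q + 1))) := by
    rw [nsmul_eq_mul, ← Nat.cast_mul, ← Nat.cast_mul]
    congr 1
    calc 2 ^ v * m * 2 ^ (Q - v) = m * (2 ^ v * 2 ^ (Q - v)) := by ring
      _ = m * 2 ^ Q := by rw [← pow_add, Nat.add_sub_cancel' hv]
  rw [h3, AddChar.map_nsmul_eq_pow, chi_half, hm.neg_one_pow]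

/-- half of the signs are negative -/
lemma half {G : Type} [Fintype G] (e : G ≃ G) {s : G → ℝ} (hs : ∀ p, s (e p) = -s p)
    (h0 : ∀ p, s p ≠ 0) : 2 * (univ.filter fun p => s p < 0).card = Fintype.card G := by
  classical
  have h1 : (univ.filter fun p => s p < 0).card = (univ.filter fun p => ¬ s p < 0).card := by
    refine Finset.card_bij (fun p _ => e p) ?_ ?_ ?_
    · intro p hp
      rw [mem_filter] at hp ⊢
      refine ⟨mem_univ _, ?_⟩
      rw [hs]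
      linarith [hp.2]
    · intro p _ q _ h
      exact e.injective h
    · intro q hq
      rw [mem_filter] at hq
      refine ⟨e.symm q, ?_, e.apply_symm_apply q⟩
      rw [mem_filter]
      refine ⟨mem_univ _, ?_⟩
      have h2 := hs (e.symm q)
      rw [e.apply_symm_apply] at h2
      have h3 : 0 < s q := lt_of_le_of_ne (not_lt.1 hq.2) (h0 q).symm
      linarith
  have h2 := Finset.card_filter_add_card_filter_not (s := (univ : Finset G)) (fun p => s p < 0)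
  rw [← h1, Finset.card_univ] at h2
  omega

end Sgn

open Sgn in
theorem sgn {N : ℕ} {D : ℕ → ℂ} (hD : ∀ l ≤ N, D l ≠ 0) {i : ℕ → ℕ}
    (hi : ∀ l < N, i l < i (l + 1)) :
    ∃ ω u : ℂ, ‖u‖ = 1 ∧ ‖ω‖ = 1 ∧ (∀ l ≤ N, (ω * D l * u ^ i l).re ≠ 0) ∧
      N ≤ 2 * ((Finset.range N).filter fun l =>
        (ω * D l * u ^ i l).re * (ω * D (l + 1) * u ^ i (l + 1)).re < 0).card := by
  classical
  -- the modulus
  obtain ⟨Q, hQ⟩ : ∃ Q : ℕ, ∀ l ≤ N, i l < 2 ^ (Q + 1) := by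
    refine ⟨∑ l ∈ range (N + 1), i l, fun l hl => ?_⟩
    have h1 : i l ≤ ∑ l ∈ range (N + 1), i l :=
      Finset.single_le_sum (f := i) (fun _ _ => Nat.zero_le _) (mem_range.2 (by omega))
    exact (h1.trans (Nat.le_succ _)).trans_lt Nat.lt_two_pow_self
  -- the values
  let val : ZMod (2 ^ (Q + 1)) × ZMod (2 ^ (Q + 1)) → ℕ → ℂ := fun p l =>
    χ Q p.2 * D l * χ Q p.1 ^ i l
  have hχ : ∀ z, ‖χ Q z‖ = 1 := fun z => AddChar.norm_apply _ _
  have hχ0 : ∀ z, χ Q z ≠ 0 := fun z h => by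
    have := hχ z
    rw [h, norm_zero] at this
    exact zero_ne_one this
  obtain ⟨ω₀, hω₀, hdir⟩ := exists_dir ((univ ×ˢ range (N + 1)).image
      fun q : (ZMod (2 ^ (Q + 1)) × ZMod (2 ^ (Q + 1))) × ℕ => val q.1 q.2) (by
    intro w hw
    rw [mem_image] at hw
    obtain ⟨q, hq, rfl⟩ := hw
    rw [mem_product, mem_range] at hq
    exact mul_ne_zero (mul_ne_zero (hχ0 _) (hD _ (by omega))) (pow_ne_zero _ (hχ0 _)))
  have hne : ∀ p, ∀ l ≤ N, (ω₀ * val p l).re ≠ 0 := fun p l hl =>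
    hdir _ (mem_image.2 ⟨(p, l), mem_product.2 ⟨mem_univ _, mem_range.2 (by omega)⟩, rfl⟩)
  -- the average
  have havg : ∀ l < N, 2 * (univ.filter fun p =>
      (ω₀ * val p l).re * (ω₀ * val p (l + 1)).re < 0).card =
        Fintype.card (ZMod (2 ^ (Q + 1)) × ZMod (2 ^ (Q + 1))) := by
    intro l hl
    have hlt := hi l hl
    obtain ⟨d, hd⟩ := exists_shift (Q := Q) (δ := i (l + 1) - i l) (by omega)
      (lt_of_le_of_lt (Nat.sub_le _ _) (hQ (l + 1) hl))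
    let e : ZMod (2 ^ (Q + 1)) × ZMod (2 ^ (Q + 1)) ≃ ZMod (2 ^ (Q + 1)) × ZMod (2 ^ (Q + 1)) :=
      Equiv.addRight (d, -((i l : ZMod (2 ^ (Q + 1))) * d))
    have hval : ∀ p j, val p j = D j * χ Q (p.2 + (i j : ZMod (2 ^ (Q + 1))) * p.1) := by
      intro p j
      show χ Q p.2 * D j * χ Q p.1 ^ i j = _
      rw [AddChar.map_add_eq_mul, ← nsmul_eq_mul, AddChar.map_nsmul_eq_pow]
      ring
    have he1 : ∀ p, val (e p) l = val p l := by
      intro p
      rw [hval, hval]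
      congr 2
      show p.2 + -((i l : ZMod (2 ^ (Q + 1))) * d) + (i l : ZMod (2 ^ (Q + 1))) * (p.1 + d) = _
      ring
    have he2 : ∀ p, val (e p) (l + 1) = -val p (l + 1) := by
      intro p
      rw [hval, hval]
      have h1 : (e p).2 + (i (l + 1) : ZMod (2 ^ (Q + 1))) * (e p).1 =
          (p.2 + (i (l + 1) : ZMod (2 ^ (Q + 1))) * p.1) +
            ((i (l + 1) - i l : ℕ) : ZMod (2 ^ (Q + 1))) * d := by
        rw [Nat.cast_sub hlt.le]
        show p.2 + -((i l : ZMod (2 ^ (Q + 1))) * d) +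
          (i (l + 1) : ZMod (2 ^ (Q + 1))) * (p.1 + d) = _
        ring
      rw [h1, AddChar.map_add_eq_mul, hd]
      ring
    refine half e (fun p => ?_) fun p => mul_ne_zero (hne p l hl.le) (hne p (l + 1) hl)
    rw [he1, he2, mul_neg, Complex.neg_re, mul_neg]
  -- choose a good point
  obtain ⟨p, hp⟩ : ∃ p : ZMod (2 ^ (Q + 1)) × ZMod (2 ^ (Q + 1)),
      N ≤ 2 * ((range N).filter fun l =>
        (ω₀ * val p l).re * (ω₀ * val p (l + 1)).re < 0).card := by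
    by_contra hcon
    push Not at hcon
    have h1 : ∑ p : ZMod (2 ^ (Q + 1)) × ZMod (2 ^ (Q + 1)), 2 * ((range N).filter fun l =>
        (ω₀ * val p l).re * (ω₀ * val p (l + 1)).re < 0).card <
        ∑ _p : ZMod (2 ^ (Q + 1)) × ZMod (2 ^ (Q + 1)), N :=
      Finset.sum_lt_sum_of_nonempty univ_nonempty fun p _ => hcon p
    have h2 : ∑ p : ZMod (2 ^ (Q + 1)) × ZMod (2 ^ (Q + 1)), 2 * ((range N).filter fun l =>
        (ω₀ * val p l).re * (ω₀ * val p (l + 1)).re < 0).card =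
        ∑ l ∈ range N, 2 * (univ.filter fun p =>
          (ω₀ * val p l).re * (ω₀ * val p (l + 1)).re < 0).card := by
      rw [← Finset.mul_sum, ← Finset.mul_sum]
      congr 1
      simp only [Finset.card_filter]
      exact Finset.sum_comm
    rw [h2, Finset.sum_congr rfl fun l hl => havg l (mem_range.1 hl)] at h1
    simp only [Finset.sum_const, Finset.card_range, Finset.card_univ, smul_eq_mul] at h1
    rw [mul_comm] at h1
    exact lt_irrefl _ h1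
  have hrw : ∀ l, ω₀ * χ Q p.2 * D l * χ Q p.1 ^ i l = ω₀ * val p l := by
    intro l
    show _ = ω₀ * (χ Q p.2 * D l * χ Q p.1 ^ i l)
    ring
  refine ⟨ω₀ * χ Q p.2, χ Q p.1, hχ _, by rw [norm_mul, hω₀, hχ, one_mul], ?_, ?_⟩
  · intro l hl
    rw [hrw]
    exact hne p l hl
  · simp only [hrw]
    exact hp

end Pool.Agent.Lib.MP_641cb6_lc.KC
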