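import Pool.Agent.Lib.MP_641cb6_lc.KC.SymC
import Pool.Agent.Lib.MP_641cb6_lc.KC.Defs

/-!
# SPEC (helper46): the substitution `a i = c i * R ^ q i`
-/

set_option autoImplicit false

namespace Pool.Agent.Lib.MP_641cb6_lc.KC

open Pool.Agent.Lib.MP_641cb6_lc
open Pool.Agent.Lib.MP_641cb6_lc.KH (CompTree)

namespace Spec

theorem sp_X {n : ℕ} (c : Fin n → ℂ) (q : Fin n → ℕ) (i : Fin n) :
    sp c q (MvPolynomial.X i) = Polynomial.C (c i) * Polynomial.X ^ q i := by
  rw [sp, MvPolynomial.coe_eval₂Hom, MvPolynomial.eval₂_X]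

theorem sp_C {n : ℕ} (c : Fin n → ℂ) (q : Fin n → ℕ) (κ : ℂ) :
    sp c q (MvPolynomial.C κ) = Polynomial.C κ := by
  rw [sp, MvPolynomial.coe_eval₂Hom, MvPolynomial.eval₂_C]

theorem map_atom_lt {n : ℕ} (s : SSt n) (c : Fin n → ℂ) (q : Fin n → ℕ) {j : ℕ} (hj : j < n) :
    (s.atom j).map (sp c q) =
      Polynomial.C (Polynomial.C (c ⟨j, hj⟩) * Polynomial.X ^ q ⟨j, hj⟩) := by
  rw [SSt.atom, dif_pos hj, Polynomial.map_C, sp_X]

theorem map_term {n : ℕ} (s : SSt n) (c : Fin n → ℂ) (q : Fin n → ℕ) (κ : ℂ) (α : ℕ → ℕ)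
    (l : ℕ) : ∃ K : Polynomial ℂ, (Polynomial.C (MvPolynomial.C κ) *
        ∏ j ∈ Finset.range (n + l), s.atom j ^ α j).map (sp c q) =
      mon (fun j => (s.atom (n + j)).map (sp c q)) l K (fun j => α (n + j)) := by
  refine ⟨Polynomial.C κ * ∏ j ∈ Finset.range n,
    (if h : j < n then Polynomial.C (c ⟨j, h⟩) * Polynomial.X ^ q ⟨j, h⟩ else 1) ^ α j, ?_⟩
  have hA : ∏ j ∈ Finset.range n, (s.atom j ^ α j).map (sp c q) = ∏ j ∈ Finset.range n,
      Polynomial.C ((if h : j < n then Polynomial.C (c ⟨j, h⟩) * Polynomial.X ^ q ⟨j, h⟩ else 1) ^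
        α j) := by
    refine Finset.prod_congr rfl fun j hj => ?_
    have hj' := Finset.mem_range.1 hj
    rw [Polynomial.map_pow, map_atom_lt s c q hj', dif_pos hj', map_pow]
  have hB : ∏ j ∈ Finset.range l, (s.atom (n + j) ^ α (n + j)).map (sp c q) =
      ∏ j ∈ Finset.range l, ((s.atom (n + j)).map (sp c q)) ^ α (n + j) := by
    refine Finset.prod_congr rfl fun j _ => ?_
    rw [Polynomial.map_pow]
  rw [mon, Polynomial.map_mul, Polynomial.map_C, sp_C, Polynomial.map_prod,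
    Finset.prod_range_add, Polynomial.C_mul, map_prod, mul_assoc, hA, hB]

theorem comp_eval {n : ℕ} (c : Fin n → ℂ) (q : Fin n → ℕ) (r : ℂ) :
    (Polynomial.evalRingHom r).comp (sp c q) = MvPolynomial.eval fun i => c i * r ^ q i := by
  refine MvPolynomial.ringHom_ext (fun κ => ?_) (fun i => ?_)
  · rw [RingHom.comp_apply, sp_C, MvPolynomial.eval_C, Polynomial.coe_evalRingHom,
      Polynomial.eval_C]
  · rw [RingHom.comp_apply, sp_X, MvPolynomial.eval_X, Polynomial.coe_evalRingHom,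
      Polynomial.eval_mul, Polynomial.eval_C, Polynomial.eval_pow, Polynomial.eval_X]

end Spec

open Spec

theorem spec_chain {n : ℕ} (T : CompTree ℂ) (h : List Bool) (c : Fin n → ℂ) (q : Fin n → ℕ) :
    IsCChain (fun j => ((sym n T h).atom (n + j)).map (sp c q)) (sym n T h).atoms.length := by
  constructor
  · show ((sym n T h).atom (n + 0)).map (sp c q) = Polynomial.X
    rw [SSt.atom, dif_neg (by omega), if_pos (by omega), Polynomial.map_X]
  · intro l hl hls
    obtain ⟨κ, κ', α, α', he⟩ := sym_chain (n := n) T h (l - 1) (by omega)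
    rw [show n + 1 + (l - 1) = n + l by omega] at he
    obtain ⟨K, h1⟩ := map_term (sym n T h) c q κ α l
    obtain ⟨K', h2⟩ := map_term (sym n T h) c q κ' α' l
    refine ⟨K, K', fun j => α (n + j), fun j => α' (n + j), ?_⟩
    show ((sym n T h).atom (n + l)).map (sp c q) = _
    rw [he, Polynomial.map_add, h1, h2]

theorem spec_ne {n : ℕ} {P : Pol n} {c : Fin n → ℂ} {b : ℂ} (h : polyFunC P (c, b) ≠ 0)
    (q : Fin n → ℕ) : P.map (sp c q) ≠ 0 := by
  intro h0
  apply h
  have h1 : (P.map (sp c q)).map (Polynomial.evalRingHom 1) = P.map (MvPolynomial.eval c) := by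
    have h2 : (fun i => c i * 1 ^ q i) = c := by
      funext i
      rw [one_pow, mul_one]
    rw [Polynomial.map_map, comp_eval, h2]
  rw [h0, Polynomial.map_zero] at h1
  show Polynomial.eval b (P.map (MvPolynomial.eval c)) = 0
  rw [← h1, Polynomial.eval_zero]

theorem spec_root {n : ℕ} {P : Pol n} {e : Fin n → ℕ}
    (h : ∀ a : Fin n → ℂ, polyFunC P (a, ∏ i, a i ^ e i) = 0) (c : Fin n → ℂ) (q : Fin n → ℕ) :
    (P.map (sp c q)).eval
      (Polynomial.C (∏ i, c i ^ e i) * Polynomial.X ^ ∑ i, e i * q i) = 0 := by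
  refine Polynomial.funext fun r => ?_
  rw [Polynomial.eval_zero]
  have h1 := h fun i => c i * r ^ q i
  have h2 : polyFunC P ((fun i => c i * r ^ q i), ∏ i, (c i * r ^ q i) ^ e i) =
      Polynomial.eval (∏ i, (c i * r ^ q i) ^ e i)
        ((P.map (sp c q)).map (Polynomial.evalRingHom r)) := by
    rw [Polynomial.map_map, comp_eval]
    rfl
  rw [h2] at h1
  have h3 : ∏ i, (c i * r ^ q i) ^ e i = Polynomial.evalRingHom r
      (Polynomial.C (∏ i, c i ^ e i) * Polynomial.X ^ ∑ i, e i * q i) := by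
    rw [Polynomial.coe_evalRingHom, Polynomial.eval_mul, Polynomial.eval_C, Polynomial.eval_pow,
      Polynomial.eval_X, ← Finset.prod_pow_eq_pow_sum, ← Finset.prod_mul_distrib]
    refine Finset.prod_congr rfl fun i _ => ?_
    rw [mul_pow, ← pow_mul, mul_comm (q i)]
  rw [h3, Polynomial.eval_map, Polynomial.eval₂_hom] at h1
  exact h1

end Pool.Agent.Lib.MP_641cb6_lc.KC
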