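import Pool.Agent.Lib.MP_641cb6_lc.KC.SymDefs
/-!
# Structure of symbolic states (SYMC, helper50)
-/

set_option autoImplicit false

namespace Pool.Agent.Lib.MP_641cb6_lc.KC

open Pool.Agent.Lib.MP_641cb6_lc.KH

open Set

/-- exponents only involve existing atoms -/
def SSt.SymcOk {n : ℕ} (s : SSt n) : Prop :=
  ∀ v ∈ s.vals, ∀ l, v.2 l ≠ 0 → l < n + 1 + s.atoms.length

theorem SSt.SymcOk.val {n : ℕ} {s : SSt n} (hs : s.SymcOk) (i l : ℕ) (hl : (s.val i).2 l ≠ 0) :
    l < n + 1 + s.atoms.length := by
  unfold SSt.val at hl
  rcases lt_or_ge i s.vals.length with h | h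
  · rw [List.getD_eq_getElem _ _ h] at hl
    exact hs _ (List.getElem_mem h) l hl
  · rw [List.getD_eq_default _ _ h] at hl
    simp at hl

theorem symc_sstep_ok {n : ℕ} (ins : Instr ℂ) (o : Bool) (s : SSt n) (hs : s.SymcOk) :
    (sstep ins o s).SymcOk := by
  cases ins with
  | const c =>
    intro v hv l hl
    simp only [sstep, List.mem_append, List.mem_singleton] at hv ⊢
    rcases hv with hv | hv
    · exact hs v hv l hl
    · subst hv
      simp at hl
  | mul i j =>
    intro v hv l hl
    simp only [sstep, List.mem_append, List.mem_singleton] at hv ⊢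
    rcases hv with hv | hv
    · exact hs v hv l hl
    · subst hv
      simp only [Finsupp.add_apply] at hl
      by_cases h : (s.val i).2 l = 0
      · rw [h, zero_add] at hl
        exact hs.val j l hl
      · exact hs.val i l h
  | div i j =>
    intro v hv l hl
    simp only [sstep, List.mem_append, List.mem_singleton] at hv ⊢
    rcases hv with hv | hv
    · exact hs v hv l hl
    · subst hv
      split_ifs at hl
      · simp at hl
      · simp only [Finsupp.sub_apply] at hl
        by_cases h : (s.val i).2 l = 0
        · rw [h, zero_sub, neg_ne_zero] at hl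
          exact hs.val j l hl
        · exact hs.val i l h
  | add c d i j =>
    intro v hv l hl
    simp only [sstep, List.mem_append, List.mem_singleton, List.length_append,
      List.length_singleton] at hv ⊢
    rcases hv with hv | hv
    · have := hs v hv l hl
      omega
    · subst hv
      simp only [Finsupp.add_apply, Finsupp.inf_apply] at hl
      by_cases h1 : (s.val i).2 l = 0
      · by_cases h2 : (s.val j).2 l = 0
        · rw [h1, h2, inf_idem, zero_add, Finsupp.single_apply] at hl
          split_ifs at hl with h3
          · omega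
          · exact absurd rfl hl
        · have := hs.val j l h2
          omega
      · have := hs.val i l h1
        omega
  | test i => exact hs
  | answer b => exact hs

theorem symc_ok {n : ℕ} (T : CompTree ℂ) (h : List Bool) : (sym n T h).SymcOk := by
  induction h with
  | nil =>
    intro v hv l hl
    simp only [sym, List.mem_append, List.mem_singleton, List.length_nil, add_zero] at hv ⊢
    rcases hv with hv | hv
    · rw [List.mem_ofFn] at hv
      obtain ⟨i, hi⟩ := hv
      subst hi
      simp only [Finsupp.single_apply] at hl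
      split_ifs at hl with h3
      · have := i.2
        omega
      · exact absurd rfl hl
    · subst hv
      simp only [Finsupp.single_apply] at hl
      split_ifs at hl with h3
      · omega
      · exact absurd rfl hl
  | cons o h ih => exact symc_sstep_ok _ _ _ ih

/-- exponents of values only involve existing atoms -/
theorem sym_supp {n : ℕ} (T : CompTree ℂ) (h : List Bool) (i l : ℕ)
    (hl : ((sym n T h).val i).2 l ≠ 0) : l < n + 1 + (sym n T h).atoms.length :=
  (symc_ok T h).val i l hl

theorem symc_sstep_prefix {n : ℕ} (ins : Instr ℂ) (o : Bool) (s : SSt n) :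
    s.atoms <+: (sstep ins o s).atoms := by
  cases ins with
  | add c d i j => exact List.prefix_append _ _
  | _ => exact List.prefix_rfl

/-- the atoms of a longer history extend the atoms of a shorter one -/
theorem sym_prefix {n : ℕ} (T : CompTree ℂ) (h h' : List Bool) :
    (sym n T h).atoms <+: (sym n T (h' ++ h)).atoms := by
  induction h' with
  | nil => exact List.prefix_rfl
  | cons o h' ih => exact ih.trans (symc_sstep_prefix _ _ _)

theorem symc_atom_of_prefix {n : ℕ} {s s' : SSt n} (hp : s.atoms <+: s'.atoms) (l : ℕ)
    (hl : l < n + 1 + s.atoms.length) : s'.atom l = s.atom l := by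
  unfold SSt.atom
  split_ifs with h1 h2
  · rfl
  · rfl
  · have h3 : l - n - 1 < s.atoms.length := by omega
    obtain ⟨t, ht⟩ := hp
    rw [← ht, List.getD_append _ _ _ _ h3]

theorem sym_atom {n : ℕ} (T : CompTree ℂ) (h h' : List Bool) (l : ℕ)
    (hl : l < n + 1 + (sym n T h).atoms.length) :
    (sym n T (h' ++ h)).atom l = (sym n T h).atom l :=
  symc_atom_of_prefix (sym_prefix T h h') l hl

/-- the chain property for one state -/
def SSt.SymcChn {n : ℕ} (s : SSt n) (l : ℕ) : Prop :=
  ∃ (κ κ' : ℂ) (α α' : ℕ → ℕ),
    s.atom (n + 1 + l) =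
      Polynomial.C (MvPolynomial.C κ) *
        ∏ j ∈ Finset.range (n + 1 + l), s.atom j ^ α j +
      Polynomial.C (MvPolynomial.C κ') *
        ∏ j ∈ Finset.range (n + 1 + l), s.atom j ^ α' j

theorem symc_chn_of_prefix {n : ℕ} {s s' : SSt n} (hp : s.atoms <+: s'.atoms) (l : ℕ)
    (hl : l < s.atoms.length) (h : s.SymcChn l) : s'.SymcChn l := by
  obtain ⟨κ, κ', α, α', he⟩ := h
  refine ⟨κ, κ', α, α', ?_⟩
  have h1 : ∀ β : ℕ → ℕ, ∏ j ∈ Finset.range (n + 1 + l), s'.atom j ^ β j =
      ∏ j ∈ Finset.range (n + 1 + l), s.atom j ^ β j := fun β =>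
    Finset.prod_congr rfl fun j hj => by
      rw [symc_atom_of_prefix hp j (by have := Finset.mem_range.1 hj; omega)]
  rw [h1, h1, symc_atom_of_prefix hp _ (by omega), he]

theorem symc_sstep_chn {n : ℕ} (ins : Instr ℂ) (o : Bool) (s : SSt n)
    (hs : ∀ l < s.atoms.length, s.SymcChn l) (l : ℕ) (hl : l < (sstep ins o s).atoms.length) :
    (sstep ins o s).SymcChn l := by
  rcases lt_or_ge l s.atoms.length with h | h
  · exact symc_chn_of_prefix (symc_sstep_prefix ins o s) l h (hs l h)
  · cases ins with
    | add c d i j =>
      have hl' : l = s.atoms.length := by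
        simp only [sstep, List.length_append, List.length_singleton] at hl
        omega
      subst hl'
      refine ⟨c * (s.val i).1, d * (s.val j).1,
        fun l => ((s.val i).2 l - ((s.val i).2 ⊓ (s.val j).2) l).toNat,
        fun l => ((s.val j).2 l - ((s.val i).2 ⊓ (s.val j).2) l).toNat, ?_⟩
      have hp := symc_sstep_prefix (Instr.add c d i j) o s
      have h1 : ∀ β : ℕ → ℕ, ∏ k ∈ Finset.range (n + 1 + s.atoms.length),
          (sstep (Instr.add c d i j) o s).atom k ^ β k = s.mono β := fun β =>
        Finset.prod_congr rfl fun k hk => by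
          rw [symc_atom_of_prefix hp k (Finset.mem_range.1 hk)]
      rw [h1, h1]
      unfold SSt.atom
      rw [dif_neg (by omega), if_neg (by omega)]
      have h2 : n + 1 + s.atoms.length - n - 1 = s.atoms.length := by omega
      rw [h2]
      simp only [sstep]
      rw [List.getD_append_right _ _ _ _ le_rfl, Nat.sub_self]
      rfl
    | const c => exact absurd hl (not_lt.2 h)
    | mul i j => exact absurd hl (not_lt.2 h)
    | div i j => exact absurd hl (not_lt.2 h)
    | test i => exact absurd hl (not_lt.2 h)
    | answer b => exact absurd hl (not_lt.2 h)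

/-- the chain property -/
theorem sym_chain {n : ℕ} (T : CompTree ℂ) (h : List Bool) (l : ℕ)
    (hl : l < (sym n T h).atoms.length) : ∃ (κ κ' : ℂ) (α α' : ℕ → ℕ),
    (sym n T h).atom (n + 1 + l) =
      Polynomial.C (MvPolynomial.C κ) *
        ∏ j ∈ Finset.range (n + 1 + l), (sym n T h).atom j ^ α j +
      Polynomial.C (MvPolynomial.C κ') *
        ∏ j ∈ Finset.range (n + 1 + l), (sym n T h).atom j ^ α' j := by
  have key : ∀ l < (sym n T h).atoms.length, (sym n T h).SymcChn l := by
    clear hl l
    induction h with
    | nil =>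
      intro l hl
      simp [sym] at hl
    | cons o h ih => exact fun l hl => symc_sstep_chn _ _ _ ih l hl
  exact key l hl

end Pool.Agent.Lib.MP_641cb6_lc.KC
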