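import Pool.Agent.Lib.MP_641cb6_lc.KC.Tower

/-!
# The branches of the tower (board kc_modules, module TBR)
-/

set_option autoImplicit false

namespace Pool.Agent.Lib.MP_641cb6_lc.KC

open Filter Topology

theorem ofReal_rpow_ne {R : ℝ} (hR : 0 < R) (v : ℝ) : ((R ^ v : ℝ) : ℂ) ≠ 0 := by
  exact_mod_cast (Real.rpow_pos_of_pos hR v).ne'

/-- one step of the tower: the two roots of `Y (Y + G) = w` -/
theorem tower_step {c : ℂ} (hc : c ≠ 0) {N : ℕ} {w : ℝ → ℂ} {D : ℂ} (hD : D ≠ 0) {v : ℝ}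
    (hv : v < 2 * N) (hw : Tendsto (fun R : ℝ => w R / ((R ^ v : ℝ) : ℂ)) atTop (𝓝 D))
    (σ : Bool) : ∃ (Y : ℝ → ℂ) (D' : ℂ), D' ≠ 0 ∧
      Tendsto (fun R : ℝ => Y R / ((R ^ (if σ then (N : ℝ) else v - N) : ℝ) : ℂ)) atTop (𝓝 D') ∧
      ∀ᶠ R : ℝ in atTop, w R = Y R * (Y R + (c * R) ^ N) := by
  set s : ℝ → ℂ := fun R => (1 + 4 * w R / ((c * R) ^ N) ^ 2) ^ (1 / 2 : ℂ) with hs
  have hcN : c ^ N ≠ 0 := pow_ne_zero _ hc
  have hsmall : Tendsto (fun R : ℝ => 4 * w R / ((c * R) ^ N) ^ 2) atTop (𝓝 0) := by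
    have h1 : Tendsto (fun R : ℝ => (R ^ (-(2 * (N : ℝ) - v)) : ℝ)) atTop (𝓝 0) :=
      tendsto_rpow_neg_atTop (by linarith)
    have h2 := (Complex.continuous_ofReal.tendsto 0).comp h1
    have h3 := (hw.mul h2).const_mul (4 / (c ^ N) ^ 2)
    rw [Complex.ofReal_zero, mul_zero, mul_zero] at h3
    refine h3.congr' ?_
    filter_upwards [eventually_gt_atTop (0 : ℝ)] with R hR
    have hv0 := ofReal_rpow_ne hR v
    have hRc : (R : ℂ) ≠ 0 := by exact_mod_cast hR.ne'
    have e : ((R ^ (-(2 * (N : ℝ) - v)) : ℝ) : ℂ) = ((R ^ v : ℝ) : ℂ) / ((R : ℂ) ^ N) ^ 2 := by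
      rw [show -(2 * (N : ℝ) - v) = v - (2 * N : ℕ) by push_cast; ring, Real.rpow_sub hR,
        Real.rpow_natCast]
      push_cast
      ring
    simp only [Function.comp_apply]
    rw [e, mul_pow]
    field_simp
  have hs1 : Tendsto s atTop (𝓝 1) := by
    have h1 : Tendsto (fun R : ℝ => 1 + 4 * w R / ((c * R) ^ N) ^ 2) atTop (𝓝 1) := by
      simpa using hsmall.const_add 1
    have h2 : ContinuousAt (fun z : ℂ => z ^ (1 / 2 : ℂ)) 1 :=
      continuousAt_cpow_const (by simp [Complex.slitPlane])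
    have h3 := h2.tendsto.comp h1
    simpa [Function.comp_def, hs] using h3
  have hsq : ∀ R, s R ^ 2 = 1 + 4 * w R / ((c * R) ^ N) ^ 2 := by
    intro R
    rw [hs]
    simp only
    rw [← Complex.cpow_nat_mul]
    norm_num
  have hne : ∀ᶠ R : ℝ in atTop, 1 + s R ≠ 0 := by
    have h1 : Tendsto (fun R => 1 + s R) atTop (𝓝 (1 + 1)) := hs1.const_add 1
    exact h1.eventually_ne (by norm_num)
  cases σ with
  | true =>
    refine ⟨fun R => -((c * R) ^ N * (1 + s R) / 2), -(c ^ N * (1 + 1) / 2), ?_, ?_, ?_⟩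
    · rw [neg_ne_zero]
      simpa using hcN
    · have h1 := (((hs1.const_add 1).const_mul (c ^ N)).div_const 2).neg
      refine h1.congr' ?_
      filter_upwards [eventually_gt_atTop (0 : ℝ)] with R hR
      have hRc : (R : ℂ) ≠ 0 := by exact_mod_cast hR.ne'
      simp only [if_true]
      rw [Real.rpow_natCast, mul_pow]
      push_cast
      field_simp
    · filter_upwards [eventually_gt_atTop (0 : ℝ)] with R hR
      have hRc : (R : ℂ) ≠ 0 := by exact_mod_cast hR.ne'
      have hG : (c * R) ^ N ≠ 0 := pow_ne_zero _ (mul_ne_zero hc hRc)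
      have h1 := hsq R
      have h2 : w R = ((c * R) ^ N) ^ 2 * (s R ^ 2 - 1) / 4 := by
        rw [h1]
        field_simp
        ring
      rw [h2]
      ring
  | false =>
    refine ⟨fun R => 2 * w R / ((c * R) ^ N * (1 + s R)), 2 * D / (c ^ N * (1 + 1)), ?_, ?_, ?_⟩
    · apply div_ne_zero (mul_ne_zero two_ne_zero hD)
      exact mul_ne_zero hcN (by norm_num)
    · have h1 := (hw.const_mul 2).div ((hs1.const_add 1).const_mul (c ^ N))
        (mul_ne_zero hcN (by norm_num))
      refine h1.congr' ?_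
      filter_upwards [eventually_gt_atTop (0 : ℝ), hne] with R hR hn
      have hRc : (R : ℂ) ≠ 0 := by exact_mod_cast hR.ne'
      have hv0 := ofReal_rpow_ne hR v
      have e : ((R ^ (v - (N : ℝ)) : ℝ) : ℂ) = ((R ^ v : ℝ) : ℂ) / (R : ℂ) ^ N := by
        rw [Real.rpow_sub hR, Real.rpow_natCast]
        push_cast
        ring
      simp only [Bool.false_eq_true, if_false, Pi.div_apply]
      rw [e, mul_pow]
      field_simp
    · filter_upwards [eventually_gt_atTop (0 : ℝ), hne] with R hR hn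
      have hRc : (R : ℂ) ≠ 0 := by exact_mod_cast hR.ne'
      have hG : (c * R) ^ N ≠ 0 := pow_ne_zero _ (mul_ne_zero hc hRc)
      have h1 := hsq R
      have h2 : w R = ((c * R) ^ N) ^ 2 * (s R ^ 2 - 1) / 4 := by
        rw [h1]
        field_simp
        ring
      have h3 : 2 * w R / ((c * R) ^ N * (1 + s R)) = (c * R) ^ N * (s R - 1) / 2 := by
        rw [h2]
        field_simp
        ring
      rw [h3, h2]
      ring

theorem vx_le (σ : ℕ → Bool) (j : ℕ) : vx σ j ≤ 8 ^ j := by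
  induction j with
  | zero => simp [vx]
  | succ j ih =>
    rw [vx]
    split_ifs with h
    · exact le_rfl
    · have : (0 : ℝ) < 8 ^ j := by positivity
      rw [pow_succ]
      linarith

theorem tower_branch {c₀ c₁ : ℂ} (h₀ : c₀ ≠ 0) (h₁ : c₁ ≠ 0) (σ : ℕ → Bool) (m : ℕ) :
    ∃ (y : ℕ → ℝ → ℂ) (D : ℕ → ℂ), (∀ j ≤ m, D j ≠ 0 ∧
      Tendsto (fun R : ℝ => y j R / ((R ^ vx σ j : ℝ) : ℂ)) atTop (𝓝 (D j))) ∧
      (∀ R, y 0 R = c₀) ∧ ∀ᶠ R : ℝ in atTop, ∀ j < m,
        y j R = y (j + 1) R * (y (j + 1) R + (c₁ * R) ^ 8 ^ (j + 1)) := by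
  induction m with
  | zero =>
    refine ⟨fun _ _ => c₀, fun _ => c₀, ?_, fun _ => rfl, ?_⟩
    · intro j hj
      obtain rfl : j = 0 := by omega
      refine ⟨h₀, ?_⟩
      simp only [vx, Real.rpow_zero, Complex.ofReal_one, div_one]
      exact tendsto_const_nhds
    · exact Eventually.of_forall fun R j hj => absurd hj (Nat.not_lt_zero j)
  | succ m ih =>
    obtain ⟨y, D, h1, h2, h3⟩ := ih
    obtain ⟨hDm, hym⟩ := h1 m le_rfl
    have hv : vx σ m < 2 * ((8 ^ (m + 1) : ℕ) : ℝ) := by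
      have := vx_le σ m
      have h8 : (0 : ℝ) < 8 ^ m := by positivity
      push_cast
      rw [pow_succ]
      linarith
    obtain ⟨Y, D', hD', hY, hrel⟩ := tower_step h₁ (N := 8 ^ (m + 1)) hDm hv hym (σ m)
    refine ⟨Function.update y (m + 1) Y, Function.update D (m + 1) D', ?_, ?_, ?_⟩
    · intro j hj
      rcases Nat.lt_or_ge m j with h | h
      · obtain rfl : j = m + 1 := by omega
        rw [Function.update_self, Function.update_self]
        refine ⟨hD', ?_⟩
        have e : vx σ (m + 1) = if σ m then (((8 ^ (m + 1) : ℕ) : ℝ)) else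
            vx σ m - ((8 ^ (m + 1) : ℕ) : ℝ) := by
          rw [vx]
          push_cast
          rfl
        rw [e]
        exact hY
      · have hne : j ≠ m + 1 := by omega
        rw [Function.update_of_ne hne, Function.update_of_ne hne]
        exact h1 j h
    · intro R
      rw [Function.update_of_ne (by omega)]
      exact h2 R
    · filter_upwards [h3, hrel] with R hR hR' j hj
      rcases Nat.lt_or_ge j m with h | h
      · rw [Function.update_of_ne (by omega), Function.update_of_ne (by omega)]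
        exact hR j h
      · obtain rfl : j = m := by omega
        rw [Function.update_self, Function.update_of_ne (by omega)]
        exact hR'

end Pool.Agent.Lib.MP_641cb6_lc.KC
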