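import Pool.Agent.Lib.MP_641cb6_lc.KC.Defs

/-!
# A tower of quadratic equations: definitions
-/

set_option autoImplicit false

namespace Pool.Agent.Lib.MP_641cb6_lc.KC

/-- The points `((a, g), b)` such that for some `y 1, ..., y m`: `a = y 1 (y 1 + g ^ 8)`,
`y j = y (j + 1) (y (j + 1) + g ^ 8 ^ (j + 1))` for `0 < j < m`, and `b` is the product of
`y 1, ..., y m`. -/
def TowerSet (m : ℕ) : Set ((Fin 2 → ℂ) × ℂ) :=
  {p | ∃ y : ℕ → ℂ, y 0 = p.1 0 ∧
    (∀ j < m, y j = y (j + 1) * (y (j + 1) + p.1 1 ^ 8 ^ (j + 1))) ∧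
    p.2 = ∏ j ∈ Finset.range m, y (j + 1)}

/-- the exponents of the sizes of `y 0, y 1, ...` along a branch -/
noncomputable def vx (σ : ℕ → Bool) : ℕ → ℝ
  | 0 => 0
  | j + 1 => if σ j then 8 ^ (j + 1) else vx σ j - 8 ^ (j + 1)

/-- `y (m - j)` as a function of `y = y m` and `g` -/
noncomputable def yd (m : ℕ) (y g : ℂ) : ℕ → ℂ
  | 0 => y
  | j + 1 => yd m y g j * (yd m y g j + g ^ 8 ^ (m - j))

/-- the point of `TowerSet m` with parameters `y = y m` and `g` -/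
noncomputable def tpar (m : ℕ) (y g : ℂ) : (Fin 2 → ℂ) × ℂ :=
  (![yd m y g m, g], ∏ j ∈ Finset.range m, yd m y g j)

end Pool.Agent.Lib.MP_641cb6_lc.KC
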