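import Pool.Agent.Lib.MP_641cb6_lc.KC.Defs
import Pool.Agent.Lib.MP_641cb6_lc.KH.Defs
import Pool.Agent.Lib.MP_641cb6_lc.KH.Fam
import Pool.Agent.Lib.MP_641cb6_lc.KC.Tpol
import Pool.Agent.Lib.MP_641cb6_lc.KC.Tower
import Pool.Agent.Lib.MP_641cb6_lc.KC.Gen

/-!
# Generic points on and off the tower (board kc_modules, module TGEN)
-/

set_option autoImplicit false

namespace Pool.Agent.Lib.MP_641cb6_lc.KC

open Finset
open Pool.Agent.Lib.MP_641cb6_lc

theorem yd_succ (m : ℕ) (y g : ℂ) (j : ℕ) :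
    yd m y g (j + 1) = yd m y g j * (yd m y g j + g ^ 8 ^ (m - j)) := rfl

theorem tpar_mem (m : ℕ) (y g : ℂ) : tpar m y g ∈ TowerSet m := by
  refine ⟨fun j => yd m y g (m - j), rfl, ?_, ?_⟩
  · intro j hj
    have e : m - j = (m - (j + 1)) + 1 := by omega
    have e2 : m - (m - (j + 1)) = j + 1 := by omega
    show yd m y g (m - j) = yd m y g (m - (j + 1)) * (yd m y g (m - (j + 1)) + g ^ 8 ^ (j + 1))
    rw [e, yd_succ, e2]
  · show ∏ j ∈ range m, yd m y g j = ∏ j ∈ range m, yd m y g (m - (j + 1))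
    rw [← Finset.prod_range_reflect (fun j => yd m y g j)]
    apply prod_congr rfl
    intro j hj
    congr 1
    omega

theorem mem_tpar {m : ℕ} {p : (Fin 2 → ℂ) × ℂ} (hp : p ∈ TowerSet m) :
    ∃ y g, p = tpar m y g := by
  obtain ⟨Y, h0, h1, h2⟩ := hp
  have key : ∀ j ≤ m, yd m (Y m) (p.1 1) j = Y (m - j) := by
    intro j
    induction j with
    | zero => intro _; rfl
    | succ j ih =>
      intro hj
      rw [yd_succ, ih (by omega)]
      have e : m - j = (m - (j + 1)) + 1 := by omega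
      have h3 := h1 (m - (j + 1)) (by omega)
      rw [h3, ← e]
  refine ⟨Y m, p.1 1, ?_⟩
  unfold tpar
  refine Prod.ext ?_ ?_
  · funext i
    fin_cases i
    · show p.1 0 = yd m (Y m) (p.1 1) m
      rw [key m le_rfl, Nat.sub_self, h0]
    · rfl
  · show p.2 = ∏ j ∈ range m, yd m (Y m) (p.1 1) j
    rw [h2, ← Finset.prod_range_reflect (fun j => yd m (Y m) (p.1 1) j)]
    apply prod_congr rfl
    intro j hj
    rw [mem_range] at hj
    rw [key _ (by omega)]
    congr 1
    omega

/-- the symbolic version of `yd` -/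
noncomputable def ydS (m : ℕ) : ℕ → Pol 1
  | 0 => Polynomial.C (MvPolynomial.X 0)
  | j + 1 => ydS m j * (ydS m j + Polynomial.X ^ 8 ^ (m - j))

/-- the evaluation as a ring homomorphism -/
noncomputable def evC {n : ℕ} (x : (Fin n → ℂ) × ℂ) : Pol n →+* ℂ :=
  Polynomial.eval₂RingHom (MvPolynomial.eval x.1) x.2

theorem evC_apply {n : ℕ} (x : (Fin n → ℂ) × ℂ) (P : Pol n) : evC x P = polyFunC P x := by
  unfold evC polyFunC
  rw [Polynomial.eval_map]
  rfl

theorem evC_ydS (m : ℕ) (y g : ℂ) (j : ℕ) :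
    evC (n := 1) ((fun _ => y), g) (ydS m j) = yd m y g j := by
  induction j with
  | zero => simp [ydS, yd, evC]
  | succ j ih =>
    rw [ydS, yd, map_mul, map_add, map_pow, ih]
    congr 3
    simp [evC]

/-- the substitution of the parametrisation -/
noncomputable def subT (m : ℕ) : Pol 2 →+* Pol 1 :=
  Polynomial.eval₂RingHom
    (MvPolynomial.eval₂Hom ((Polynomial.C).comp MvPolynomial.C)
      (![ydS m m, Polynomial.X] : Fin 2 → Pol 1)) (∏ j ∈ range m, ydS m j)

theorem subT_eval (m : ℕ) (y g : ℂ) (P : Pol 2) :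
    polyFunC (subT m P) ((fun _ => y), g) = polyFunC P (tpar m y g) := by
  rw [← evC_apply, ← evC_apply]
  have h : (evC (n := 1) ((fun _ => y), g)).comp (subT m) = evC (tpar m y g) := by
    apply Polynomial.ringHom_ext'
    · apply MvPolynomial.ringHom_ext
      · intro c
        simp [subT, evC]
      · intro i
        fin_cases i
        · have h1 := evC_ydS m y g m
          simp only [Fin.zero_eta, RingHom.comp_apply]
          have e1 : subT m (Polynomial.C (MvPolynomial.X 0)) = ydS m m := by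
            simp [subT]
          rw [e1, h1]
          simp [evC, tpar]
        · simp only [Fin.mk_one, RingHom.comp_apply]
          have e1 : subT m (Polynomial.C (MvPolynomial.X 1)) = Polynomial.X := by
            simp [subT]
          rw [e1]
          simp [evC, tpar]
    · simp only [RingHom.comp_apply]
      have e1 : subT m Polynomial.X = ∏ j ∈ range m, ydS m j := by
        simp [subT]
      rw [e1, map_prod]
      have e2 : evC (tpar m y g) Polynomial.X = ∏ j ∈ range m, yd m y g j := by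
        simp [evC, tpar]
      rw [e2]
      exact prod_congr rfl fun j _ => evC_ydS m y g j
  exact congrArg (fun f : Pol 2 →+* ℂ => f P) h

theorem gen_tower {ι : Type} [Countable ι] (P : ι → Pol 2) (m : ℕ) :
    ∃ y g : ℂ, ∀ i, (∃ y' g', polyFunC (P i) (tpar m y' g') ≠ 0) →
      polyFunC (P i) (tpar m y g) ≠ 0 := by
  obtain ⟨x, hx⟩ := gen_point (fun i => subT m (P i))
  refine ⟨x.1 0, x.2, ?_⟩
  rintro i ⟨y', g', h⟩
  have hne : subT m (P i) ≠ 0 := by
    intro h0
    rw [← subT_eval, h0] at h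
    apply h
    simp [polyFunC]
  have h1 := hx i hne
  have e : x = ((fun _ => x.1 0), x.2) := by
    refine Prod.ext ?_ rfl
    funext j
    rw [Subsingleton.elim j 0]
  rw [e, subT_eval] at h1
  exact h1

theorem quad_finite (G u : ℂ) : {v : ℂ | u = v * (v + G)}.Finite := by
  by_cases h : ∃ v₀, u = v₀ * (v₀ + G)
  · obtain ⟨v₀, h₀⟩ := h
    refine Set.Finite.subset (Set.toFinite ({v₀, -v₀ - G} : Set ℂ)) ?_
    intro v hv
    have hv' : u = v * (v + G) := hv
    have h1 : (v - v₀) * (v + v₀ + G) = 0 := by linear_combination h₀ - hv'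
    rcases mul_eq_zero.1 h1 with h2 | h2
    · left
      linear_combination h2
    · right
      show v = -v₀ - G
      linear_combination h2
  · refine Set.Finite.subset Set.finite_empty ?_
    intro v hv
    exact h ⟨v, hv⟩

theorem tower_finite (m : ℕ) (a g : ℂ) : {q : ℂ × ℂ | ∃ Y : ℕ → ℂ, Y 0 = a ∧
    (∀ j < m, Y j = Y (j + 1) * (Y (j + 1) + g ^ 8 ^ (j + 1))) ∧
    q = (Y m, ∏ j ∈ range m, Y (j + 1))}.Finite := by
  induction m with
  | zero =>
    refine Set.Finite.subset (Set.finite_singleton (a, (1 : ℂ))) ?_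
    rintro q ⟨Y, h0, -, h2⟩
    rw [h2, h0]
    rfl
  | succ m ih =>
    refine Set.Finite.subset (ih.biUnion fun q _ =>
      (quad_finite (g ^ 8 ^ (m + 1)) q.1).image fun v => (v, q.2 * v)) ?_
    rintro q ⟨Y, h0, h1, h2⟩
    rw [Set.mem_iUnion₂]
    refine ⟨(Y m, ∏ j ∈ range m, Y (j + 1)), ⟨Y, h0, fun j hj => h1 j (by omega), rfl⟩,
      Y (m + 1), h1 m (by omega), ?_⟩
    rw [h2, prod_range_succ]

theorem gen_off {ι : Type} [Countable ι] (P : ι → Pol 2) (m : ℕ) :
    ∃ x : (Fin 2 → ℂ) × ℂ, (∀ i, P i ≠ 0 → polyFunC (P i) x ≠ 0) ∧ x ∉ TowerSet m := by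
  obtain ⟨x, hx⟩ := gen_point P
  have hfin : {b : ℂ | (x.1, b) ∈ TowerSet m}.Finite := by
    refine Set.Finite.subset ((tower_finite m (x.1 0) (x.1 1)).image Prod.snd) ?_
    rintro b ⟨Y, h0, h1, h2⟩
    exact ⟨(Y m, ∏ j ∈ range m, Y (j + 1)), ⟨Y, h0, h1, rfl⟩, h2.symm⟩
  have hcount : ({b : ℂ | (x.1, b) ∈ TowerSet m} ∪
      ⋃ i : {i // P i ≠ 0}, {b : ℂ | polyFunC (P i.1) (x.1, b) = 0}).Countable := by
    refine hfin.countable.union (Set.countable_iUnion fun i => Set.Finite.countable ?_)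
    have hne : (P i.1).map (MvPolynomial.eval x.1) ≠ 0 := by
      intro h0
      apply hx i.1 i.2
      unfold polyFunC
      rw [h0, Polynomial.eval_zero]
    exact Polynomial.finite_setOf_isRoot hne
  obtain ⟨b, hb⟩ := (hcount.dense_compl ℂ).nonempty
  refine ⟨(x.1, b), ?_, ?_⟩
  · intro i hi h0
    apply hb
    right
    rw [Set.mem_iUnion]
    exact ⟨⟨i, hi⟩, h0⟩
  · intro h
    apply hb
    left
    exact h

end Pool.Agent.Lib.MP_641cb6_lc.KC
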