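import Pool.Agent.Lib.MP_641cb6_lc.KC.Tower

/-!
# Different branches of the tower have different sizes (board kc_modules, module TINJ)
-/

set_option autoImplicit false

namespace Pool.Agent.Lib.MP_641cb6_lc.KC

open Finset

theorem vx_abs (σ : ℕ → Bool) (j : ℕ) : |vx σ j| ≤ 8 / 7 * 8 ^ j := by
  induction j with
  | zero => simp [vx]; norm_num
  | succ j ih =>
    have h8 : (0 : ℝ) < 8 ^ j := by positivity
    rw [abs_le] at ih
    rw [vx, pow_succ]
    split_ifs
    · rw [abs_le]
      constructor <;> nlinarith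
    · rw [abs_le]
      constructor <;> nlinarith [ih.1, ih.2]

/-- the sum of the exponents -/
noncomputable def vS (σ : ℕ → Bool) (m : ℕ) : ℝ := ∑ j ∈ range m, vx σ (j + 1)

theorem vS_succ (σ : ℕ → Bool) (m : ℕ) : vS σ (m + 1) = vS σ m + vx σ (m + 1) := by
  unfold vS
  rw [sum_range_succ]

theorem vS_abs (σ : ℕ → Bool) (j : ℕ) : |vS σ j| ≤ 64 / 49 * 8 ^ j := by
  induction j with
  | zero => simp [vS]; norm_num
  | succ j ih =>
    have h8 : (0 : ℝ) < 8 ^ j := by positivity
    have h1 := vx_abs σ (j + 1)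
    rw [vS_succ]
    rw [abs_le] at ih h1 ⊢
    rw [pow_succ] at *
    constructor <;> nlinarith [ih.1, ih.2, h1.1, h1.2]

theorem vS_pos {σ : ℕ → Bool} {m : ℕ} (h : σ m = true) {r : ℝ} (hr : 0 ≤ r) :
    0 < vS σ (m + 1) + r * vx σ (m + 1) := by
  have h8 : (0 : ℝ) < 8 ^ m := by positivity
  have h1 := (abs_le.1 (vS_abs σ m)).1
  rw [vS_succ]
  have h2 : vx σ (m + 1) = 8 ^ (m + 1) := by
    rw [vx, if_pos h]
  rw [h2, pow_succ]
  nlinarith [mul_nonneg hr h8.le]

theorem vS_neg {σ : ℕ → Bool} {m : ℕ} (h : σ m = false) {r : ℝ} (hr : 0 ≤ r) :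
    vS σ (m + 1) + r * vx σ (m + 1) < 0 := by
  have h8 : (0 : ℝ) < 8 ^ m := by positivity
  have h1 := (abs_le.1 (vS_abs σ m)).2
  have h3 := (abs_le.1 (vx_abs σ m)).2
  rw [vS_succ]
  have h2 : vx σ (m + 1) = vx σ m - 8 ^ (m + 1) := by
    rw [vx, if_neg (by rw [h]; exact Bool.false_ne_true)]
  rw [h2, pow_succ]
  have h4 := mul_le_mul_of_nonneg_left h3 hr
  nlinarith [mul_nonneg hr h8.le]

theorem tower_inj_aux (σ σ' : ℕ → Bool) : ∀ (m : ℕ) (r : ℝ), 0 ≤ r →
    vS σ m + r * vx σ m = vS σ' m + r * vx σ' m → ∀ j < m, σ j = σ' j := by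
  intro m
  induction m with
  | zero => intro r _ _ j hj; omega
  | succ m ih =>
    intro r hr h
    have hb : σ m = σ' m := by
      cases hs : σ m with
      | true =>
        cases hs' : σ' m with
        | true => rfl
        | false =>
          have h1 := vS_pos hs hr
          have h2 := vS_neg hs' hr
          rw [h] at h1
          exact absurd h1 (not_lt.2 h2.le)
      | false =>
        cases hs' : σ' m with
        | false => rfl
        | true =>
          have h1 := vS_neg hs hr
          have h2 := vS_pos hs' hr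
          rw [h] at h1
          exact absurd h2 (not_lt.2 h1.le)
    have hprev : ∀ j < m, σ j = σ' j := by
      rw [vS_succ, vS_succ] at h
      cases hs : σ m with
      | true =>
        have hs' : σ' m = true := by rw [← hb]; exact hs
        have e1 : vx σ (m + 1) = 8 ^ (m + 1) := by rw [vx, if_pos hs]
        have e2 : vx σ' (m + 1) = 8 ^ (m + 1) := by rw [vx, if_pos hs']
        rw [e1, e2] at h
        apply ih 0 le_rfl
        linarith
      | false =>
        have hs' : σ' m = false := by rw [← hb]; exact hs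
        have e1 : vx σ (m + 1) = vx σ m - 8 ^ (m + 1) := by
          rw [vx, if_neg (by rw [hs]; exact Bool.false_ne_true)]
        have e2 : vx σ' (m + 1) = vx σ' m - 8 ^ (m + 1) := by
          rw [vx, if_neg (by rw [hs']; exact Bool.false_ne_true)]
        rw [e1, e2] at h
        apply ih (1 + r) (by linarith)
        linarith
    intro j hj
    rcases Nat.lt_succ_iff_lt_or_eq.1 hj with h1 | h1
    · exact hprev j h1
    · rw [h1]; exact hb

theorem tower_inj {m : ℕ} {σ σ' : ℕ → Bool}
    (h : ∑ j ∈ Finset.range m, vx σ (j + 1) = ∑ j ∈ Finset.range m, vx σ' (j + 1)) :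
    ∀ j < m, σ j = σ' j := by
  apply tower_inj_aux σ σ' m 0 le_rfl
  unfold vS
  rw [h]
  ring

end Pool.Agent.Lib.MP_641cb6_lc.KC
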