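import Pool.Agent.Lib.MP_641cb6_lc.KC.Verify
import Pool.Agent.Lib.MP_641cb6_lc.KC.Tower

/-!
# Verification of `TowerSet m` with `m` guesses
-/

set_option autoImplicit false

namespace Pool.Agent.Lib.MP_641cb6_lc.KC

open Pool.Agent.Lib.MP_641cb6_lc.KH

namespace TU

/-- the position of `y j` -/
def ix : ℕ → ℕ
  | 0 => 0
  | j + 1 => j + 2

/-- the instructions for one level -/
noncomputable def blk (m j a : ℕ) : List (Instr ℂ) :=
  [.mul (a + 1) (a + 1), .mul (a + 2) (a + 2), .mul (a + 3) (a + 3), .add 1 1 (j + 2) (a + 4),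
    .mul (j + 2) (a + 5), .add 1 (-1) (ix j) (a + 6), .test (a + 7), .mul a (j + 2),
    .mul (a + 4) (m + 3)]

theorem blk_spec {A : List ℂ} {a m j : ℕ} (ha : A.length = a) {p g y y' : ℂ}
    (h1 : A.getD (ix j) 0 = y) (h1' : ix j < A.length) (h2 : A.getD (j + 2) 0 = y')
    (h2' : j + 2 < A.length) (h3 : A.getD (m + 3) 0 = 1) (h3' : m + 3 < A.length) :
    xvs (A ++ [p, g]) (blk m j a) =
      (A ++ [p, g, g ^ 2, g ^ 4, g ^ 8, y' + g ^ 8, y' * (y' + g ^ 8),
        y - y' * (y' + g ^ 8)]) ++ [p * y', g ^ 8] ∧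
    (xos (fun v : ℂ => v = 0) (A ++ [p, g]) (blk m j a) ↔ y = y' * (y' + g ^ 8)) := by
  have e1 : ∀ B : List ℂ, (A ++ B).getD (ix j) 0 = y := fun B => by rw [getD_pre h1', h1]
  have e2 : ∀ B : List ℂ, (A ++ B).getD (j + 2) 0 = y' := fun B => by rw [getD_pre h2', h2]
  have e3 : ∀ B : List ℂ, (A ++ B).getD (m + 3) 0 = 1 := fun B => by rw [getD_pre h3', h3]
  have s1 : xv (A ++ [p, g]) (.mul (a + 1) (a + 1)) = A ++ [p, g, g ^ 2] := by
    simp only [xv, getD_off ha]
    simp [pow_two]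
  have s2 : xv (A ++ [p, g, g ^ 2]) (.mul (a + 2) (a + 2)) = A ++ [p, g, g ^ 2, g ^ 4] := by
    simp only [xv, getD_off ha]
    simp only [List.append_assoc, List.cons_append, List.nil_append, List.append_cancel_left_eq]
    simp
    ring
  have s3 : xv (A ++ [p, g, g ^ 2, g ^ 4]) (.mul (a + 3) (a + 3)) =
      A ++ [p, g, g ^ 2, g ^ 4, g ^ 8] := by
    simp only [xv, getD_off ha]
    simp only [List.append_assoc, List.cons_append, List.nil_append, List.append_cancel_left_eq]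
    simp
    ring
  have s4 : xv (A ++ [p, g, g ^ 2, g ^ 4, g ^ 8]) (.add 1 1 (j + 2) (a + 4)) =
      A ++ [p, g, g ^ 2, g ^ 4, g ^ 8, y' + g ^ 8] := by
    simp only [xv, getD_off ha, e2]
    simp
  have s5 : xv (A ++ [p, g, g ^ 2, g ^ 4, g ^ 8, y' + g ^ 8]) (.mul (j + 2) (a + 5)) =
      A ++ [p, g, g ^ 2, g ^ 4, g ^ 8, y' + g ^ 8, y' * (y' + g ^ 8)] := by
    simp only [xv, getD_off ha, e2]
    simp
  have s6 : xv (A ++ [p, g, g ^ 2, g ^ 4, g ^ 8, y' + g ^ 8, y' * (y' + g ^ 8)])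
      (.add 1 (-1) (ix j) (a + 6)) =
      A ++ [p, g, g ^ 2, g ^ 4, g ^ 8, y' + g ^ 8, y' * (y' + g ^ 8),
        y - y' * (y' + g ^ 8)] := by
    simp only [xv, getD_off ha, e1]
    simp [sub_eq_add_neg]
  have s7 : xv (A ++ [p, g, g ^ 2, g ^ 4, g ^ 8, y' + g ^ 8, y' * (y' + g ^ 8),
        y - y' * (y' + g ^ 8)]) (.mul a (j + 2)) =
      A ++ [p, g, g ^ 2, g ^ 4, g ^ 8, y' + g ^ 8, y' * (y' + g ^ 8),
        y - y' * (y' + g ^ 8), p * y'] := by
    simp only [xv, getD_off0 ha, e2]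
    simp
  have s8 : xv (A ++ [p, g, g ^ 2, g ^ 4, g ^ 8, y' + g ^ 8, y' * (y' + g ^ 8),
        y - y' * (y' + g ^ 8), p * y']) (.mul (a + 4) (m + 3)) =
      A ++ [p, g, g ^ 2, g ^ 4, g ^ 8, y' + g ^ 8, y' * (y' + g ^ 8),
        y - y' * (y' + g ^ 8), p * y', g ^ 8] := by
    simp only [xv, getD_off ha, e3]
    simp
  have t7 : ∀ l : List ℂ, xv l (.test (a + 7)) = l := fun _ => rfl
  constructor
  · unfold xvs blk
    simp only [List.foldl_cons, List.foldl_nil]
    rw [s1, s2, s3, s4, s5, s6, t7, s7, s8]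
    simp
  · unfold blk
    simp only [xos]
    rw [s1, s2, s3, s4, s5, s6]
    simp only [xo, getD_off ha, true_and, and_true]
    simp [sub_eq_zero]

/-- the instructions for the first `j` levels -/
noncomputable def blks (m : ℕ) : ℕ → List (Instr ℂ)
  | 0 => []
  | j + 1 => blks m j ++ blk m j (m + 4 + 8 * j)

/-- the whole program -/
noncomputable def prg (m : ℕ) : List (Instr ℂ) :=
  [.const 1, .const 1, .mul 1 (m + 3)] ++ blks m m ++
    [.add 1 (-1) (m + 2) (m + 4 + 8 * m), .test (m + 4 + 8 * m + 2)]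

theorem blks_length (m j : ℕ) : (blks m j).length = 9 * j := by
  induction j with
  | zero => rfl
  | succ j ih =>
    simp only [blks, List.length_append, ih, blk, List.length_cons, List.length_nil]
    omega

theorem prg_length (m : ℕ) : (prg m).length = 9 * m + 5 := by
  simp only [prg, List.length_append, blks_length, List.length_cons, List.length_nil]
  omega

theorem blks_noAns (m j : ℕ) : ∀ i ∈ blks m j, NoAns i := by
  induction j with
  | zero => intro i hi; simp [blks] at hi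
  | succ j ih =>
    intro i hi
    simp only [blks, List.mem_append] at hi
    rcases hi with hi | hi
    · exact ih i hi
    · simp only [blk, List.mem_cons, List.not_mem_nil, or_false] at hi
      rcases hi with rfl | rfl | rfl | rfl | rfl | rfl | rfl | rfl | rfl <;> trivial

theorem prg_noAns (m : ℕ) : ∀ i ∈ prg m, NoAns i := by
  intro i hi
  simp only [prg, List.mem_append, List.mem_cons, List.not_mem_nil, or_false] at hi
  rcases hi with ((rfl | rfl | rfl) | hi) | (rfl | rfl)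
  · trivial
  · trivial
  · trivial
  · exact blks_noAns m m i hi
  · trivial
  · trivial

theorem blks_nadd (m j : ℕ) : nadd (blks m j) = 2 * j := by
  induction j with
  | zero => rfl
  | succ j ih =>
    simp only [blks, nadd_append, ih, blk, nadd]
    omega

theorem prg_nadd (m : ℕ) : nadd (prg m) = 2 * m + 1 := by
  simp only [prg, nadd_append, blks_nadd, nadd]
  omega

/-- the sequence `y 0, ..., y m` -/
noncomputable def sq {m : ℕ} (a : ℂ) (y : Fin m → ℂ) : ℕ → ℂ
  | 0 => a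
  | j + 1 => if h : j < m then y ⟨j, h⟩ else 0

/-- the initial values and the constant `1` -/
noncomputable def bs {m : ℕ} (x : (Fin 2 → ℂ) × ℂ) (y : Fin m → ℂ) : List ℂ :=
  List.ofFn (Fin.append x.1 y) ++ [x.2] ++ [1]

theorem bs_length {m : ℕ} (x : (Fin 2 → ℂ) × ℂ) (y : Fin m → ℂ) : (bs x y).length = m + 4 := by
  simp only [bs, List.length_append, List.length_ofFn, List.length_cons, List.length_nil]
  omega

theorem bs_lt {m : ℕ} (x : (Fin 2 → ℂ) × ℂ) (y : Fin m → ℂ) {i : ℕ} (hi : i < 2 + m) :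
    (bs x y).getD i 0 = Fin.append x.1 y ⟨i, hi⟩ := by
  unfold bs
  have h : i < (List.ofFn (Fin.append x.1 y)).length := by rw [List.length_ofFn]; exact hi
  rw [List.append_assoc, List.getD_append _ _ _ _ h, List.getD_eq_getElem _ _ h,
    List.getElem_ofFn]

theorem bs_y {m : ℕ} (x : (Fin 2 → ℂ) × ℂ) (y : Fin m → ℂ) {j : ℕ} (hj : j < m) :
    (bs x y).getD (j + 2) 0 = sq (x.1 0) y (j + 1) := by
  rw [bs_lt x y (i := j + 2) (by omega)]
  have : (⟨j + 2, by omega⟩ : Fin (2 + m)) = Fin.natAdd 2 ⟨j, hj⟩ := by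
    ext
    simp only [Fin.val_natAdd]
    omega
  rw [this, Fin.append_right]
  simp [sq, hj]

theorem bs_ix {m : ℕ} (x : (Fin 2 → ℂ) × ℂ) (y : Fin m → ℂ) {j : ℕ} (hj : j < m) :
    (bs x y).getD (ix j) 0 = sq (x.1 0) y j := by
  cases j with
  | zero =>
    show (bs x y).getD 0 0 = _
    rw [bs_lt x y (i := 0) (by omega)]
    have : (⟨0, by omega⟩ : Fin (2 + m)) = Fin.castAdd m 0 := rfl
    rw [this, Fin.append_left]
    rfl
  | succ j => exact bs_y x y (by omega)

theorem bs_g {m : ℕ} (x : (Fin 2 → ℂ) × ℂ) (y : Fin m → ℂ) :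
    (bs x y).getD 1 0 = x.1 1 := by
  rw [bs_lt x y (i := 1) (by omega)]
  have : (⟨1, by omega⟩ : Fin (2 + m)) = Fin.castAdd m 1 := rfl
  rw [this, Fin.append_left]

theorem bs_b {m : ℕ} (x : (Fin 2 → ℂ) × ℂ) (y : Fin m → ℂ) :
    (bs x y).getD (m + 2) 0 = x.2 := by
  unfold bs
  have h : (List.ofFn (Fin.append x.1 y)).length ≤ m + 2 := by rw [List.length_ofFn]; omega
  rw [List.append_assoc, List.getD_append_right _ _ _ _ h]
  have : m + 2 - (List.ofFn (Fin.append x.1 y)).length = 0 := by rw [List.length_ofFn]; omega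
  rw [this]
  rfl

theorem bs_one {m : ℕ} (x : (Fin 2 → ℂ) × ℂ) (y : Fin m → ℂ) :
    (bs x y).getD (m + 3) 0 = 1 := by
  unfold bs
  have h : (List.ofFn (Fin.append x.1 y) ++ [x.2]).length ≤ m + 3 := by
    simp only [List.length_append, List.length_ofFn, List.length_cons, List.length_nil]
    omega
  rw [List.getD_append_right _ _ _ _ h]
  have : m + 3 - (List.ofFn (Fin.append x.1 y) ++ [x.2]).length = 0 := by
    simp only [List.length_append, List.length_ofFn, List.length_cons, List.length_nil]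
    omega
  rw [this]
  rfl

/-- the values and outcomes after `j` levels -/
theorem blks_spec {m : ℕ} (x : (Fin 2 → ℂ) × ℂ) (y : Fin m → ℂ) (j : ℕ) (hj : j ≤ m) :
    ∃ M : List ℂ, M.length = 8 * j ∧
      xvs (bs x y ++ [1, x.1 1]) (blks m j) =
        (bs x y ++ M) ++ [∏ i ∈ Finset.range j, sq (x.1 0) y (i + 1), x.1 1 ^ 8 ^ j] ∧
      (xos (fun v : ℂ => v = 0) (bs x y ++ [1, x.1 1]) (blks m j) ↔
        ∀ i < j, sq (x.1 0) y i = sq (x.1 0) y (i + 1) *
          (sq (x.1 0) y (i + 1) + x.1 1 ^ 8 ^ (i + 1))) := by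
  induction j with
  | zero =>
    refine ⟨[], rfl, ?_, ?_⟩
    · simp [blks, xvs]
    · simp [blks, xos]
  | succ j ih =>
    obtain ⟨M, hM, h1, h2⟩ := ih (by omega)
    have hlen : (bs x y ++ M).length = m + 4 + 8 * j := by
      rw [List.length_append, bs_length, hM]
    have hb := bs_length x y
    have hix : ix j < (bs x y).length := by
      cases j with
      | zero => rw [hb]; exact Nat.succ_pos _
      | succ j => rw [hb]; show j + 2 < _; omega
    have key := blk_spec (m := m) (j := j) hlen (p := ∏ i ∈ Finset.range j, sq (x.1 0) y (i + 1))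
      (g := x.1 1 ^ 8 ^ j) (y := sq (x.1 0) y j) (y' := sq (x.1 0) y (j + 1))
      (by rw [getD_pre hix, bs_ix x y (by omega)])
      (by rw [List.length_append]; omega)
      (by rw [getD_pre (by omega), bs_y x y (by omega)]) (by omega)
      (by rw [getD_pre (by omega), bs_one]) (by omega)
    have e8 : (x.1 1 ^ 8 ^ j) ^ 8 = x.1 1 ^ 8 ^ (j + 1) := by rw [← pow_mul, pow_succ]
    rw [e8] at key
    obtain ⟨k1, k2⟩ := key
    refine ⟨M ++ [∏ i ∈ Finset.range j, sq (x.1 0) y (i + 1), x.1 1 ^ 8 ^ j, (x.1 1 ^ 8 ^ j) ^ 2,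
      (x.1 1 ^ 8 ^ j) ^ 4, x.1 1 ^ 8 ^ (j + 1), sq (x.1 0) y (j + 1) + x.1 1 ^ 8 ^ (j + 1),
      sq (x.1 0) y (j + 1) * (sq (x.1 0) y (j + 1) + x.1 1 ^ 8 ^ (j + 1)),
      sq (x.1 0) y j - sq (x.1 0) y (j + 1) *
        (sq (x.1 0) y (j + 1) + x.1 1 ^ 8 ^ (j + 1))], ?_, ?_, ?_⟩
    · simp only [List.length_append, hM, List.length_cons, List.length_nil]
      omega
    · rw [blks, xvs_append, h1, k1, Finset.prod_range_succ]
      simp only [List.append_assoc]
    · rw [blks, xos_append, h1, h2, k2]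
      constructor
      · rintro ⟨h3, h4⟩ i hi
        rcases Nat.lt_succ_iff_lt_or_eq.1 hi with h | rfl
        · exact h3 i h
        · exact h4
      · intro h
        exact ⟨fun i hi => h i (by omega), h j (by omega)⟩

theorem prg_spec {m : ℕ} (x : (Fin 2 → ℂ) × ℂ) (y : Fin m → ℂ) :
    xos (fun v : ℂ => v = 0) (List.ofFn (Fin.append x.1 y) ++ [x.2]) (prg m) ↔
      (∀ i < m, sq (x.1 0) y i = sq (x.1 0) y (i + 1) *
          (sq (x.1 0) y (i + 1) + x.1 1 ^ 8 ^ (i + 1))) ∧
        x.2 = ∏ i ∈ Finset.range m, sq (x.1 0) y (i + 1) := by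
  obtain ⟨M, hM, h1, h2⟩ := blks_spec x y m le_rfl
  have hb := bs_length x y
  have p1 : xvs (List.ofFn (Fin.append x.1 y) ++ [x.2]) [.const 1, .const 1, .mul 1 (m + 3)] =
      bs x y ++ [1, x.1 1] := by
    unfold xvs
    simp only [List.foldl_cons, List.foldl_nil]
    show xv (bs x y ++ [1]) (.mul 1 (m + 3)) = _
    unfold xv
    simp only
    rw [getD_pre (by omega), getD_pre (by omega), bs_g, bs_one, mul_one]
    simp
  have p2 : xos (fun v : ℂ => v = 0) (List.ofFn (Fin.append x.1 y) ++ [x.2])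
      [.const 1, .const 1, .mul 1 (m + 3)] := by
    simp [xos, xo]
  have hlen : (bs x y ++ M).length = m + 4 + 8 * m := by
    rw [List.length_append, hb, hM]
  rw [prg, xos_append, xos_append, p1, h2, xvs_append, p1, h1]
  have p3 : xos (fun v : ℂ => v = 0) ((bs x y ++ M) ++
      [∏ i ∈ Finset.range m, sq (x.1 0) y (i + 1), x.1 1 ^ 8 ^ m])
      [.add 1 (-1) (m + 2) (m + 4 + 8 * m), .test (m + 4 + 8 * m + 2)] ↔
      x.2 = ∏ i ∈ Finset.range m, sq (x.1 0) y (i + 1) := by
    have s1 : xv ((bs x y ++ M) ++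
        [∏ i ∈ Finset.range m, sq (x.1 0) y (i + 1), x.1 1 ^ 8 ^ m])
        (.add 1 (-1) (m + 2) (m + 4 + 8 * m)) = (bs x y ++ M) ++
        [∏ i ∈ Finset.range m, sq (x.1 0) y (i + 1), x.1 1 ^ 8 ^ m,
          x.2 - ∏ i ∈ Finset.range m, sq (x.1 0) y (i + 1)] := by
      simp only [xv]
      rw [getD_off0 hlen, getD_pre (by rw [List.length_append]; omega), getD_pre (by omega), bs_b]
      simp [sub_eq_add_neg]
    simp only [xos, s1]
    simp only [xo, getD_off hlen, true_and, and_true]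
    simp [sub_eq_zero]
  rw [p3]
  simp only [p2, true_and]

end TU

open TU in
/-- `TowerSet m` is verified with `m` guesses in `9 m + 5` steps with `2 m + 1` additions -/
theorem tower_upper (m : ℕ) : ∃ V : CompTree ℂ,
    (∀ x : (Fin 2 → ℂ) × ℂ, x ∈ TowerSet m ↔ ∃ y : Fin m → ℂ,
      V (V.run (fun v : ℂ => v = 0) (Fin.append x.1 y, x.2) (9 * m + 5)).hist = .answer true) ∧
    ∀ x : (Fin (2 + m) → ℂ) × ℂ, ∃ b : Bool,
      V (V.run (fun v : ℂ => v = 0) x (9 * m + 5)).hist = .answer b ∧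
      (V.run (fun v : ℂ => v = 0) x (9 * m + 5)).cost = 2 * m + 1 := by
  refine ⟨prog (prg m), fun x => ?_, fun x => ?_⟩
  · have hy : ∀ y : Fin m → ℂ,
        (prog (prg m) ((prog (prg m)).run (fun v : ℂ => v = 0) (Fin.append x.1 y, x.2)
          (9 * m + 5)).hist = .answer true) ↔
        ((∀ i < m, sq (x.1 0) y i = sq (x.1 0) y (i + 1) *
          (sq (x.1 0) y (i + 1) + x.1 1 ^ 8 ^ (i + 1))) ∧
        x.2 = ∏ i ∈ Finset.range m, sq (x.1 0) y (i + 1)) := by
      intro y
      obtain ⟨b, hb, hb', _⟩ := prog_answer (fun v : ℂ => v = 0) (prg_noAns m)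
        (Fin.append x.1 y, x.2)
      rw [prg_length] at hb'
      rw [hb', ← prg_spec, ← hb]
      constructor
      · intro h
        injection h
      · rintro rfl
        rfl
    constructor
    · rintro ⟨y, h0, h1, h2⟩
      refine ⟨fun i => y (i + 1), (hy _).2 ?_⟩
      have hs : ∀ i ≤ m, sq (x.1 0) (fun i : Fin m => y (i + 1)) i = y i := by
        intro i hi
        cases i with
        | zero => exact h0.symm
        | succ i =>
          show (if h : i < m then y (i + 1) else 0) = _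
          rw [dif_pos (by omega)]
      refine ⟨fun i hi => ?_, ?_⟩
      · rw [hs i (by omega), hs (i + 1) (by omega)]
        exact h1 i hi
      · rw [h2]
        refine Finset.prod_congr rfl fun i hi => ?_
        rw [hs (i + 1) (by have := Finset.mem_range.1 hi; omega)]
    · rintro ⟨y, h⟩
      obtain ⟨h1, h2⟩ := (hy y).1 h
      exact ⟨sq (x.1 0) y, rfl, h1, h2⟩
  · obtain ⟨b, _, hb', hc⟩ := prog_answer (fun v : ℂ => v = 0) (prg_noAns m) x
    rw [prg_length] at hb' hc
    rw [prg_nadd] at hc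
    exact ⟨b, hb', hc⟩

theorem tower_verifies (m : ℕ) : ∃ V : CompTree ℂ,
    Verifies (fun v : ℂ => v = 0) V m (9 * m + 5) (TowerSet m) := by
  obtain ⟨V, h1, h2⟩ := tower_upper m
  exact ⟨V, fun x => by obtain ⟨b, hb, _⟩ := h2 x; exact ⟨b, hb⟩, h1⟩

end Pool.Agent.Lib.MP_641cb6_lc.KC
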