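import Pool.Agent.Lib.MP_641cb6_lc.KC.Tinj
import Pool.Agent.Lib.MP_641cb6_lc.KC.Tgen
import Pool.Agent.Lib.MP_641cb6_lc.KC.Diff
import Pool.Agent.Lib.MP_641cb6_lc.KC.Spec
import Pool.Agent.Lib.MP_641cb6_lc.KC.Brk
import Pool.Agent.Lib.MP_641cb6_lc.KC.Droot
import Pool.Agent.Lib.MP_641cb6_lc.KC.Tbr

/-!
# The lower bound for the tower (board kc_modules, module TTREE)
-/

set_option autoImplicit false

namespace Pool.Agent.Lib.MP_641cb6_lc.KC

open Finset Filter Topology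
open Pool.Agent.Lib.MP_641cb6_lc
open Pool.Agent.Lib.MP_641cb6_lc.KH (CompTree DecidesJointly)

/-- the branches give points of the tower -/
theorem branch_point {c₀ c₁ : ℂ} (h₀ : c₀ ≠ 0) (h₁ : c₁ ≠ 0) (σ : ℕ → Bool) (m : ℕ) :
    ∃ (b : ℝ → ℂ) (C : ℂ), C ≠ 0 ∧
      Tendsto (fun R : ℝ => b R / ((R ^ (∑ j ∈ range m, vx σ (j + 1)) : ℝ) : ℂ)) atTop (𝓝 C) ∧
      ∀ᶠ R : ℝ in atTop, ((![c₀, c₁ * (R : ℂ)] : Fin 2 → ℂ), b R) ∈ TowerSet m := by
  obtain ⟨y, D, h1, h2, h3⟩ := tower_branch h₀ h₁ σ m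
  have hj1 : ∀ j ∈ range m, j + 1 ≤ m := fun j hj => by
    have := mem_range.1 hj
    omega
  refine ⟨fun R => ∏ j ∈ range m, y (j + 1) R, ∏ j ∈ range m, D (j + 1), ?_, ?_, ?_⟩
  · exact prod_ne_zero_iff.2 fun j hj => (h1 _ (hj1 j hj)).1
  · have h4 : Tendsto (fun R : ℝ => ∏ j ∈ range m, (y (j + 1) R / ((R ^ vx σ (j + 1) : ℝ) : ℂ)))
        atTop (𝓝 (∏ j ∈ range m, D (j + 1))) :=
      tendsto_finsetProd _ fun j hj => (h1 _ (hj1 j hj)).2
    refine h4.congr' ?_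
    filter_upwards [eventually_gt_atTop (0 : ℝ)] with R hR
    rw [prod_div_distrib, Real.rpow_sum_of_pos hR]
    push_cast
    rfl
  · filter_upwards [h3] with R hR
    exact ⟨fun j => y j R, h2 R, fun j hj => hR j hj, rfl⟩

/-- the sequence of a tuple -/
def extB {m : ℕ} (s : Fin m → Bool) (j : ℕ) : Bool := if h : j < m then s ⟨j, h⟩ else false

theorem extB_inj {m : ℕ} {s s' : Fin m → Bool}
    (h : ∑ j ∈ range m, vx (extB s) (j + 1) = ∑ j ∈ range m, vx (extB s') (j + 1)) : s = s' := by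
  funext j
  have h1 := tower_inj h j j.2
  unfold extB at h1
  rw [dif_pos j.2, dif_pos j.2] at h1
  exact h1

theorem tower_main {m N : ℕ} (T : Fin N → CompTree ℂ) (Φ : (Fin N → Bool) → Prop)
    (hdec : DecidesJointly (fun v : ℂ => v = 0) T Φ (TowerSet m)) :
    ∃ w x k, 2 ^ m ≤
      (6 * ((T w).run (fun v : ℂ => v = 0) (n := 2) x k).cost + 1) ^
        (5 * ((T w).run (fun v : ℂ => v = 0) (n := 2) x k).cost ^ 3) := by
  classical
  let P : (Fin N × List Bool × ℕ) → Pol 2 := fun q => (sym 2 (T q.1) q.2.1).atom q.2.2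
  obtain ⟨x, hx, hxS⟩ := gen_off P m
  obtain ⟨y, g, hyg⟩ := gen_tower P m
  obtain ⟨k, b, hk, -⟩ := hdec x
  obtain ⟨w, j, i, hj, hh, hv⟩ := first_diff hdec hxS (tpar_mem m y g) hk
  -- an atom vanishes on the tower, not at `x`
  have z1 := val_zero (fun v : ℂ => v = 0) (T w) x j i
  have z2 := val_zero (fun v : ℂ => v = 0) (T w) (tpar m y g) j i
  rw [← hh] at z2
  obtain ⟨h, hhdef⟩ : ∃ h : List Bool, h = ((T w).run (fun v : ℂ => v = 0) x j).hist := ⟨_, rfl⟩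
  obtain ⟨S, hS⟩ : ∃ S : SSt 2, S = sym 2 (T w) h := ⟨_, rfl⟩
  rw [← hhdef, ← hS] at z1 z2
  have hgx : ∀ l, S.ev x l = 0 → S.atom l = 0 := by
    intro l hl
    rw [hS] at hl ⊢
    by_contra hne
    exact hx (w, h, l) hne hl
  have key : ∃ l < 2 + 1 + S.atoms.length, S.ev x l ≠ 0 ∧ ∀ p ∈ TowerSet m, S.ev p l = 0 := by
    by_cases hx0 : ((T w).run (fun v : ℂ => v = 0) x j).val i = 0
    · exfalso
      have hx0' : ¬ ((T w).run (fun v : ℂ => v = 0) (tpar m y g) j).val i = 0 := fun h' =>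
        hv ⟨fun _ => h', fun _ => hx0⟩
      apply hx0'
      rw [z2]
      rcases z1.1 hx0 with h1 | ⟨l, hl, h1, h2⟩
      · exact Or.inl h1
      · refine Or.inr ⟨l, hl, h1, ?_⟩
        unfold SSt.ev
        rw [hgx l h2]
        simp [polyFunC]
    · have hx0' : ((T w).run (fun v : ℂ => v = 0) (tpar m y g) j).val i = 0 := by
        by_contra h'
        exact hv ⟨fun h'' => absurd h'' hx0, fun h'' => absurd h'' h'⟩
      rcases z2.1 hx0' with h1 | ⟨l, hl, h1, h2⟩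
      · exact absurd (z1.2 (Or.inl h1)) hx0
      · refine ⟨l, hl, ?_, ?_⟩
        · intro h3
          exact hx0 (z1.2 (Or.inr ⟨l, hl, h1, h3⟩))
        · intro p hp
          obtain ⟨y', g', rfl⟩ := mem_tpar hp
          by_contra h3
          rw [hS] at h2 h3
          exact hyg (w, h, l) ⟨y', g', h3⟩ h2
  obtain ⟨l, hl, hlx, hlS⟩ := key
  -- the parameters of the curve
  have hat : ∀ (s : SSt 2) (q : (Fin 2 → ℂ) × ℂ), s.ev q 0 = q.1 0 ∧ s.ev q 1 = q.1 1 := by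
    intro s q
    constructor
    · simp [SSt.ev, SSt.atom, polyFunC]
    · simp [SSt.ev, SSt.atom, polyFunC]
  have hat0 : ∀ s : SSt 2, s.atom 0 ≠ 0 ∧ s.atom 1 ≠ 0 := by
    intro s
    constructor
    · simp [SSt.atom]
    · simp [SSt.atom]
  have hc0 : x.1 0 ≠ 0 := by
    have h1 := hx (w, h, 0) (hat0 (sym 2 (T w) h)).1
    rw [← (hat (sym 2 (T w) h) x).1]
    exact h1
  have hc1 : x.1 1 ≠ 0 := by
    have h1 := hx (w, h, 1) (hat0 (sym 2 (T w) h)).2
    rw [← (hat (sym 2 (T w) h) x).2]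
    exact h1
  have hl2 : 2 ≤ l := by
    by_contra hlt
    obtain ⟨bb, -, -, -, hev⟩ := branch_point hc0 hc1 (fun _ => true) m
    obtain ⟨R, hR, hR1⟩ := (hev.and (eventually_gt_atTop (0 : ℝ))).exists
    have h1 := hlS _ hR
    have hl01 : l = 0 ∨ l = 1 := by omega
    rcases hl01 with h0 | h0
    · rw [h0, (hat S _).1] at h1
      exact hc0 h1
    · rw [h0, (hat S _).2] at h1
      have h2 : x.1 1 * (R : ℂ) = 0 := h1
      rcases mul_eq_zero.1 h2 with h3 | h3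
      · exact hc1 h3
      · exact hR1.ne' (by exact_mod_cast h3)
  -- the final history
  obtain ⟨h', hsuf⟩ := hist_suffix (T w) x j (k w - j)
  rw [Nat.add_sub_cancel' hj.le, ← hhdef] at hsuf
  refine ⟨w, x, k w, ?_⟩
  obtain ⟨F, hF⟩ : ∃ F : List Bool, F = ((T w).run (fun v : ℂ => v = 0) x (k w)).hist := ⟨_, rfl⟩
  obtain ⟨SF, hSF⟩ : ∃ S : SSt 2, S = sym 2 (T w) F := ⟨_, rfl⟩
  rw [← hF] at hsuf
  have hatl : SF.atom l = S.atom l := by
    rw [hSF, hsuf, hS]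
    rw [hS] at hl
    exact sym_atom (T w) h h' l hl
  have hlen : S.atoms.length ≤ SF.atoms.length := by
    rw [hSF, hsuf, hS]
    exact (sym_prefix (T w) h h').length_le
  have hcost : ((T w).run (fun v : ℂ => v = 0) x (k w)).cost = SF.atoms.length := by
    rw [hSF, hF]
    exact sim_cost _ _ _ _
  rw [hcost]
  set q : Fin 2 → ℕ := ![0, 1] with hq
  have hchain := spec_chain (T w) F x.1 q
  rw [← hSF] at hchain
  set φ : ℕ → P2 := fun j => (SF.atom (2 + j)).map (sp x.1 q) with hφ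
  have hφl : φ (l - 2) = (S.atom l).map (sp x.1 q) := by
    rw [hφ]
    simp only
    rw [show 2 + (l - 2) = l by omega, hatl]
  have hne : φ (l - 2) ≠ 0 := by
    rw [hφl]
    exact spec_ne (c := x.1) (b := x.2) hlx q
  have hnodom : ∀ s : Fin m → Bool, ∀ μ, ¬ Dom (φ (l - 2))
      (∑ j ∈ range m, vx (extB s) (j + 1)) μ := by
    intro s μ
    obtain ⟨bb, C, hC, hlim, hev⟩ := branch_point hc0 hc1 (extB s) m
    refine dom_root_lim hC hlim ?_ μ
    filter_upwards [hev] with R hR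
    rw [hφl, spec_val]
    have e : (fun i => x.1 i * (R : ℂ) ^ q i) = ![x.1 0, x.1 1 * (R : ℂ)] := by
      funext i
      fin_cases i
      · simp [hq]
      · simp [hq]
    rw [e]
    exact hlS _ hR
  let Z : Finset ℝ := (univ : Finset (Fin m → Bool)).image
    fun s => ∑ j ∈ range m, vx (extB s) (j + 1)
  have hZ : Z.card = 2 ^ m := by
    rw [card_image_of_injective _ fun s s' hs => extB_inj hs]
    simp
  have hb := breaks hchain Z (by
    intro t ht
    obtain ⟨s, -, rfl⟩ := mem_image.1 ht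
    refine ⟨l - 2, by omega, hne, hnodom s⟩)
  rw [hZ] at hb
  omega

end Pool.Agent.Lib.MP_641cb6_lc.KC
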