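import Pool.Agent.Lib.MP_641cb6_lc.KC.Prog

/-!
# Verification with guesses; conditional programs
-/

set_option autoImplicit false

namespace Pool.Agent.Lib.MP_641cb6_lc.KC

open Pool.Agent.Lib.MP_641cb6_lc.KH

/-- The tree verifies the set `S` with `k` guesses from `K` in `t` steps: on every input of `n + k`
values and one more it has answered after `t` steps, and `(a, b)` is in `S` iff it answers `true`
on `((a, y), b)` for some `y` in `K ^ k`. -/
def Verifies {K : Type} [Field K] (P : K → Prop) (V : CompTree K) (k t : ℕ) {n : ℕ}
    (S : Set ((Fin n → K) × K)) : Prop :=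
  (∀ x : (Fin (n + k) → K) × K, ∃ b : Bool, V (V.run P x t).hist = .answer b) ∧
    ∀ x : (Fin n → K) × K, x ∈ S ↔
      ∃ y : Fin k → K, V (V.run P (Fin.append x.1 y, x.2) t).hist = .answer true

variable {K : Type} [Field K]

theorem run_stay {P : K → Prop} {T : CompTree K} {n : ℕ} {x : (Fin n → K) × K} {k : ℕ} {b : Bool}
    (h : T (T.run P x k).hist = .answer b) (j : ℕ) : T.run P x (k + j) = T.run P x k := by
  induction j with
  | zero => rfl
  | succ j ih =>
    rw [← Nat.add_assoc, run_succ, ih]
    unfold CompTree.step
    rw [h]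

/-- execute `T true` or `T false` according to the outcome of a test of the value number `i` -/
def cond (i : ℕ) (T : Bool → CompTree K) : CompTree K := fun h =>
  match h.getLast? with
  | none => .test i
  | some o => T o h.dropLast

theorem cond_nil (i : ℕ) (T : Bool → CompTree K) : cond i T [] = .test i := rfl

theorem cond_append (i : ℕ) (T : Bool → CompTree K) (h : List Bool) (o : Bool) :
    cond i T (h ++ [o]) = T o h := by
  unfold cond
  rw [List.getLast?_append]
  simp

theorem cond_run (P : K → Prop) (i : ℕ) (T : Bool → CompTree K) {n : ℕ} (x : (Fin n → K) × K)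
    {o : Bool} (ho : o = true ↔ P ((List.ofFn x.1 ++ [x.2]).getD i 0)) (k : ℕ) :
    (cond i T).run P x (k + 1) = ⟨((T o).run P x k).hist ++ [o], ((T o).run P x k).vals,
      ((T o).run P x k).cost⟩ := by
  classical
  induction k with
  | zero =>
    rw [run_succ]
    have h : cond i T ((cond i T).run P x 0).hist = .test i := rfl
    obtain ⟨o', ho', hs⟩ := step_eq (P := P) h trivial
    rw [hs]
    have : o' = o := by
      rw [Bool.eq_iff_iff, ho', ho]
      rfl
    rw [this]
    rfl
  | succ k ih =>
    rw [run_succ, ih, run_succ]
    set s := (T o).run P x k with hs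
    have h1 : cond i T (s.hist ++ [o]) = T o s.hist := cond_append _ _ _ _
    unfold CompTree.step
    simp only [h1]
    cases T o s.hist with
    | const c => rfl
    | mul i j => rfl
    | div i j => rfl
    | add c d i j => rfl
    | test i => rfl
    | answer b => rfl

theorem cond_answer (P : K → Prop) (i : ℕ) (T : Bool → CompTree K) {n : ℕ} (x : (Fin n → K) × K)
    {o : Bool} (ho : o = true ↔ P ((List.ofFn x.1 ++ [x.2]).getD i 0)) (k : ℕ) :
    cond i T ((cond i T).run P x (k + 1)).hist = T o ((T o).run P x k).hist := by
  rw [cond_run P i T x ho, cond_append]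

/-- the tree with the opposite answers -/
def neg (T : CompTree K) : CompTree K := fun h =>
  match T h with
  | .answer b => .answer (!b)
  | i => i

theorem neg_run (P : K → Prop) (T : CompTree K) {n : ℕ} (x : (Fin n → K) × K) (k : ℕ) :
    (neg T).run P x k = T.run P x k := by
  induction k with
  | zero => rfl
  | succ k ih =>
    rw [run_succ, run_succ, ih]
    unfold CompTree.step neg
    cases T (T.run P x k).hist <;> rfl

theorem neg_answer (P : K → Prop) (T : CompTree K) {n : ℕ} (x : (Fin n → K) × K) (k : ℕ) {b : Bool}
    (h : T (T.run P x k).hist = .answer b) :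
    neg T ((neg T).run P x k).hist = .answer (!b) := by
  rw [neg_run]
  unfold neg
  rw [h]

section getD

variable {A B : List K} {a : ℕ}

theorem getD_off (ha : A.length = a) (i : ℕ) : (A ++ B).getD (a + i) 0 = B.getD i 0 := by
  subst ha
  rw [List.getD_append_right _ _ _ _ (by omega), Nat.add_sub_cancel_left]

theorem getD_off0 (ha : A.length = a) : (A ++ B).getD a 0 = B.getD 0 0 := getD_off ha 0

theorem getD_pre {i : ℕ} (ha : i < A.length) : (A ++ B).getD i 0 = A.getD i 0 :=
  List.getD_append _ _ _ _ ha

end getD

/-- the values of an input with guesses, and the constant `1` -/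
def bse {n k : ℕ} (a : Fin n → K) (y : Fin k → K) (b : K) : List K :=
  List.ofFn (Fin.append a y) ++ [b] ++ [1]

section bse

variable {n k : ℕ} (a : Fin n → K) (y : Fin k → K) (b : K)

theorem bse_length : (bse a y b).length = n + k + 2 := by
  simp only [bse, List.length_append, List.length_ofFn, List.length_cons, List.length_nil]

theorem bse_lt {i : ℕ} (hi : i < n + k) : (bse a y b).getD i 0 = Fin.append a y ⟨i, hi⟩ := by
  unfold bse
  have h : i < (List.ofFn (Fin.append a y)).length := by rw [List.length_ofFn]; exact hi
  rw [List.append_assoc, List.getD_append _ _ _ _ h, List.getD_eq_getElem _ _ h,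
    List.getElem_ofFn]

theorem bse_a (i : Fin n) : (bse a y b).getD i 0 = a i := by
  have := i.isLt
  rw [bse_lt a y b (i := i) (by omega)]
  have h : (⟨i, by omega⟩ : Fin (n + k)) = Fin.castAdd k i := rfl
  rw [h, Fin.append_left]

theorem bse_y (i : Fin k) : (bse a y b).getD (n + i) 0 = y i := by
  have := i.isLt
  rw [bse_lt a y b (i := n + i) (by omega)]
  have h : (⟨n + i, by omega⟩ : Fin (n + k)) = Fin.natAdd n i := rfl
  rw [h, Fin.append_right]

theorem bse_b : (bse a y b).getD (n + k) 0 = b := by
  unfold bse
  rw [List.append_assoc, getD_off0 (by rw [List.length_ofFn])]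
  rfl

theorem bse_one : (bse a y b).getD (n + k + 1) 0 = 1 := by
  unfold bse
  rw [getD_off0 (by rw [List.length_append, List.length_ofFn]; rfl)]
  rfl

end bse

end Pool.Agent.Lib.MP_641cb6_lc.KC
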